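import Pool.Agent.Q23.AQ.Gr

/-!
# Adding logarithms and periods of Legendre families
-/

set_option autoImplicit false

open Set Polynomial Filter Topology

namespace Pool.Agent.Q23.AQ

open Pool.Agent.TH818.AP Pool.Agent.TH818.AR Pool.Agent.TH659.AQ

/-- `log (t + x_j)` for increasing `x_j`, analytic coefficients -/
theorem logC_mono (d : ℕ) (c : ℝ) : ∀ (n : ℕ) (x : Fin n → ℝ), StrictMono x → (∀ j, c < -x j) → ∀ a b : ℝ,
    (∀ j, 0 < a + x j) → c < a → a < b → ∀ C : (Fin n → Fin (d + 1)) → ℝ → ℝ,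
    (∀ e, AnalyticOnNhd ℝ (C e) (Ioi c)) → (∀ t ∈ Icc a b, ∑ e, C e t * mo (lf x) e t = 0) →
    ∀ e, ∀ t, c < t → C e t = 0 := by
  intro n
  induction n with
  | zero =>
    intro x _ _ a b _ hca hab C hC hp e t ht
    have he : ∀ e' : Fin 0 → Fin (d + 1), e' = e := fun e' => Subsingleton.elim _ _
    have h1 : ∀ t ∈ Icc a b, C e t = 0 := by
      intro t ht
      have := hp t ht
      rw [Fintype.sum_eq_single e (fun e' h => absurd (he e') h)] at this
      simpa [mo] using this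
    have h2 : C e =ᶠ[𝓝 ((a + b) / 2)] 0 := by
      filter_upwards [Icc_mem_nhds (show a < (a + b) / 2 by linarith) (show (a + b) / 2 < b by linarith)] with t ht
      exact h1 t ht
    exact (hC e).eqOn_zero_of_preconnected_of_eventuallyEq_zero isPreconnected_Ioi
      (show (a + b) / 2 ∈ Ioi c by rw [mem_Ioi]; linarith) h2 ht
  | succ n ih =>
    intro x hx hcx a b hpos hca hab C hC hp
    classical
    -- continuation
    have hc0 : c < -x 0 := hcx 0
    have han : ∀ j, AnalyticOnNhd ℝ (lf x j) (Ioi (-x 0)) := by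
      intro j t ht
      apply lf_an
      have h1 : x 0 ≤ x j := hx.monotone (Fin.zero_le j)
      rw [mem_Ioi] at ht
      linarith
    have hext : ∀ t, -x 0 < t → ∑ e, C e t * mo (lf x) e t = 0 := by
      have h1 : AnalyticOnNhd ℝ (fun t => ∑ e, C e t * mo (lf x) e t) (Ioi (-x 0)) := by
        intro t ht
        refine Finset.analyticAt_fun_sum _ fun e _ => ?_
        refine AnalyticAt.mul (hC e t (hc0.trans ht)) ?_
        unfold mo
        exact Finset.analyticAt_fun_prod _ fun j _ => (han j t ht).pow _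
      have h2 : (fun t => ∑ e, C e t * mo (lf x) e t) =ᶠ[𝓝 ((a + b) / 2)] 0 := by
        filter_upwards [Icc_mem_nhds (show a < (a + b) / 2 by linarith) (show (a + b) / 2 < b by linarith)] with t ht
        exact hp t ht
      intro t ht
      exact h1.eqOn_zero_of_preconnected_of_eventuallyEq_zero isPreconnected_Ioi
        (show (a + b) / 2 ∈ Ioi (-x 0) by rw [mem_Ioi]; linarith [hpos 0]) h2 ht
    -- the coefficients of the powers of the first logarithm
    let x' : Fin n → ℝ := fun j => x j.succ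
    let g : ℕ → ℝ → ℝ := fun i s => if h : i < d + 1 then
      ∑ e' : Fin n → Fin (d + 1), C (Fin.cons ⟨i, h⟩ e') (s - x 0) * mo (lf x') e' (s - x 0) else 0
    have hx' : ∀ j : Fin n, 0 < -x 0 + x' j := by
      intro j
      have := hx (Fin.succ_pos j)
      simp only [x']
      linarith
    have hg : ∀ i, AnalyticAt ℝ (g i) 0 := by
      intro i
      by_cases h : i < d + 1
      · simp only [g, dif_pos h]
        refine Finset.analyticAt_fun_sum _ fun e' _ => ?_
        have hs : AnalyticAt ℝ (fun s : ℝ => s - x 0) 0 := analyticAt_id.sub analyticAt_const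
        refine AnalyticAt.mul ?_ ?_
        · have h2 : AnalyticAt ℝ (C (Fin.cons ⟨i, h⟩ e')) (0 - x 0) := hC _ _ (by rw [mem_Ioi]; linarith)
          exact AnalyticAt.comp (f := fun s : ℝ => s - x 0) h2 hs
        · have h2 : AnalyticAt ℝ (mo (lf x') e') (0 - x 0) := by
            unfold mo
            refine Finset.analyticAt_fun_prod _ fun j _ => (lf_an x' j ?_).pow _
            have := hx' j
            linarith
          exact AnalyticAt.comp (f := fun s : ℝ => s - x 0) h2 hs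
      · simp only [g, dif_neg h]
        exact analyticAt_const
    have hrel : ∀ᶠ t in 𝓝[>] (0 : ℝ), ∑ i ∈ Finset.range (d + 1), g i t * ((1 : ℝ) * Real.log t + (fun _ => (0 : ℝ)) t) ^ i = 0 := by
      filter_upwards [self_mem_nhdsWithin] with s hs
      have hs0 : (0 : ℝ) < s := hs
      have h1 := hext (s - x 0) (by linarith)
      rw [← Equiv.sum_comp (Fin.consEquiv fun _ : Fin (n + 1) => Fin (d + 1)), Fintype.sum_prod_type] at h1
      refine Eq.trans ?_ h1
      rw [← Fin.sum_univ_eq_sum_range (fun i => g i s * ((1 : ℝ) * Real.log s + 0) ^ i)]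
      refine Finset.sum_congr rfl fun i _ => ?_
      simp only [g, dif_pos i.isLt, Fin.eta, one_mul, add_zero, Finset.sum_mul]
      refine Finset.sum_congr rfl fun e' _ => ?_
      have h2 : mo (lf x) ((Fin.consEquiv fun _ : Fin (n + 1) => Fin (d + 1)) (i, e')) (s - x 0) =
          Real.log s ^ (i : ℕ) * mo (lf x') e' (s - x 0) := by
        unfold mo
        rw [Fin.prod_univ_succ]
        simp [Fin.consEquiv, lf, x']
      rw [h2]
      simp only [Fin.consEquiv, Equiv.coe_fn_mk]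
      ring
    have hz := tr d g 1 (fun _ => 0) one_ne_zero analyticAt_const hg hrel
    -- the induction hypothesis
    intro e
    obtain ⟨⟨i, e'⟩, rfl⟩ := (Fin.consEquiv fun _ : Fin (n + 1) => Fin (d + 1)).surjective e
    have h1 := hz i (Nat.lt_succ_iff.1 i.isLt)
    obtain ⟨δ, hδ, hδz⟩ := Metric.eventually_nhds_iff.1 h1
    have h2 := ih x' (fun j k hjk => hx (Fin.succ_lt_succ_iff.2 hjk)) (fun j => hcx _) (-x 0) (-x 0 + δ / 2) hx' hc0
      (by linarith) (fun e' => C (Fin.cons i e')) (fun e' => hC _) (by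
        intro t ht
        have h3 := hδz (y := t + x 0) (by
          rw [Real.dist_eq, sub_zero, abs_lt]
          constructor
          · linarith [ht.1]
          · linarith [ht.2])
        simp only [g, dif_pos i.isLt, Fin.eta, add_sub_cancel_right] at h3
        exact h3)
    exact h2 e'

/-- `log (t + x_j)` for distinct `x_j`, analytic coefficients -/
theorem logC (d n : ℕ) (c : ℝ) (x : Fin n → ℝ) (hx : Function.Injective x) (hcx : ∀ j, c < -x j) (a b : ℝ)
    (hpos : ∀ j, 0 < a + x j) (hca : c < a) (hab : a < b) (C : (Fin n → Fin (d + 1)) → ℝ → ℝ)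
    (hC : ∀ e, AnalyticOnNhd ℝ (C e) (Ioi c)) (hp : ∀ t ∈ Icc a b, ∑ e, C e t * mo (lf x) e t = 0) :
    ∀ e, ∀ t, c < t → C e t = 0 := by
  classical
  let σ : Equiv.Perm (Fin n) := Tuple.sort x
  have hσ : StrictMono (x ∘ σ) := (Tuple.monotone_sort x).strictMono_of_injective (hx.comp σ.injective)
  have h2 := logC_mono d c n (x ∘ σ) hσ (fun j => hcx _) a b (fun j => hpos _) hca hab
    (fun e => C (fun j => e (σ.symm j))) (fun e => hC _) (by
    intro t ht
    have h3 := hp t ht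
    rw [← Equiv.sum_comp (Equiv.arrowCongr σ (Equiv.refl (Fin (d + 1))))] at h3
    rw [← h3]
    refine Finset.sum_congr rfl fun e _ => ?_
    have h4 : mo (lf (x ∘ σ)) e t = mo (lf x) ((Equiv.arrowCongr σ (Equiv.refl (Fin (d + 1)))) e) t := by
      unfold mo
      rw [← Equiv.prod_comp σ (fun j => lf x j t ^ (((Equiv.arrowCongr σ (Equiv.refl (Fin (d + 1)))) e j : Fin (d + 1)) : ℕ))]
      refine Finset.prod_congr rfl fun j _ => ?_
      simp [lf]
    rw [h4]
    rfl)
  intro e t ht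
  have h3 := h2 (fun j => e (σ j)) t ht
  simpa using h3

/-- splitting of the exponents -/
def sumEq (κ κ' : Type) (d : ℕ) : ((κ → Fin (d + 1)) × (κ' → Fin (d + 1))) ≃ ((κ ⊕ κ') → Fin (d + 1)) where
  toFun e := Sum.elim e.1 e.2
  invFun f := (fun k => f (Sum.inl k), fun k => f (Sum.inr k))
  left_inv e := rfl
  right_inv f := by
    funext p
    rcases p with z | i <;> rfl

/-- adding logarithms to functions analytic on `(c, ∞)` -/
theorem comb_log {κ : Type} [Fintype κ] [DecidableEq κ] {d k : ℕ} (u : κ → ℝ → ℝ) (c a b : ℝ) (hca : c < a)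
    (hab : a < b) (han : ∀ i, AnalyticOnNhd ℝ (u i) (Ioi c))
    (hind : RIndep (fun (e : κ → Fin (d + 1)) (t : ℝ) => ∏ k, u k t ^ (e k : ℕ)) a b)
    (x : Fin k → ℝ) (hx : Function.Injective x) (hcx : ∀ j, c < -x j) (hax : ∀ j, 0 < a + x j) :
    RIndep (fun (e : (κ ⊕ Fin k) → Fin (d + 1)) (t : ℝ) => ∏ p, Sum.elim u (lf x) p t ^ (e p : ℕ)) a b := by
  classical
  intro p hp
  let C : (Fin k → Fin (d + 1)) → ℝ → ℝ := fun e2 t =>
    ∑ e1 : κ → Fin (d + 1), (p (sumEq κ (Fin k) d (e1, e2))).eval t * ∏ i, u i t ^ (e1 i : ℕ)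
  have hC : ∀ e2, AnalyticOnNhd ℝ (C e2) (Ioi c) := by
    intro e2 t ht
    refine Finset.analyticAt_fun_sum _ fun e1 _ => AnalyticAt.mul ?_ ?_
    · exact AnalyticOnNhd.eval_polynomial _ t (mem_univ _)
    · exact Finset.analyticAt_fun_prod _ fun i _ => (han i t ht).pow _
  have hrel : ∀ t ∈ Icc a b, ∑ e2, C e2 t * mo (lf x) e2 t = 0 := by
    intro t ht
    have h1 := hp t ht
    rw [← Equiv.sum_comp (sumEq κ (Fin k) d), Fintype.sum_prod_type, Finset.sum_comm] at h1
    rw [← h1]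
    refine Finset.sum_congr rfl fun e2 _ => ?_
    simp only [C, Finset.sum_mul]
    refine Finset.sum_congr rfl fun e1 _ => ?_
    have h2 : ∏ p, Sum.elim u (lf x) p t ^ ((sumEq κ (Fin k) d (e1, e2) p : Fin (d + 1)) : ℕ) =
        (∏ i, u i t ^ (e1 i : ℕ)) * mo (lf x) e2 t := by
      rw [Fintype.prod_sum_type]
      rfl
    rw [h2]
    ring
  have hz := logC d k c x hx hcx a b hax hca hab C hC hrel
  funext e
  obtain ⟨⟨e1, e2⟩, rfl⟩ := (sumEq κ (Fin k) d).surjective e
  have h2 := hind (fun e1 => p (sumEq κ (Fin k) d (e1, e2))) (fun t ht => hz e2 t (hca.trans_le ht.1))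
  exact congrFun h2 e1

/-- adding periods of nested Legendre families to functions analytic on `(c, y)` -/
theorem comb_leg {κ : Type} [Fintype κ] [DecidableEq κ] {d N : ℕ} (u : κ → ℝ → ℝ) (c y a b : ℝ) (hca : c ≤ a)
    (hab : a < b) (hby : b ≤ y) (han : ∀ i, AnalyticOnNhd ℝ (u i) (Ioo c y))
    (hind : ∀ a' b', a ≤ a' → a' < b' → b' ≤ b →
      RIndep (fun (e : κ → Fin (d + 1)) (t : ℝ) => ∏ k, u k t ^ (e k : ℕ)) a' b')
    (α γ : Fin N → ℝ) (hα : StrictAnti α) (hγ : StrictMono γ) (hαγ : ∀ j, α j < γ j)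
    (hcα : ∀ j, c < α j) (hyγ : ∀ j, γ j < y) (huj : ∀ j, α j ≤ a ∧ b ≤ γ j) :
    RIndep (fun (e : ((Fin N × Fin 3) ⊕ κ) → Fin (d + 1)) (t : ℝ) =>
      ∏ p, Sum.elim (fun z : Fin N × Fin 3 => KC (α z.1) (γ z.1) z.2) u p t ^ (e p : ℕ)) a b := by
  classical
  intro p hp
  let cur : (Fin N → Fin 3 → Fin (d + 1)) → (Fin N × Fin 3 → Fin (d + 1)) := fun e z => e z.1 z.2
  let P : (Fin N → Fin 3 → Fin (d + 1)) → ℝ → ℝ := fun e1 t =>
    ∑ e2 : κ → Fin (d + 1), (p (sumEq (Fin N × Fin 3) κ d (cur e1, e2))).eval t * ∏ i, u i t ^ (e2 i : ℕ)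
  have hPan : ∀ e1, AnalyticOnNhd ℝ (P e1) (Ioo c y) := by
    intro e1 t ht
    refine Finset.analyticAt_fun_sum _ fun e2 _ => AnalyticAt.mul ?_ ?_
    · exact AnalyticOnNhd.eval_polynomial _ t (mem_univ _)
    · exact Finset.analyticAt_fun_prod _ fun i _ => (han i t ht).pow _
  have hrel : ∀ t ∈ Ioo a b, ∑ e1, P e1 t * mon α γ e1 t = 0 := by
    intro t ht
    have h1 := hp t (Ioo_subset_Icc_self ht)
    rw [← Equiv.sum_comp (sumEq (Fin N × Fin 3) κ d), Fintype.sum_prod_type,
      ← Equiv.sum_comp (Equiv.curry (Fin N) (Fin 3) (Fin (d + 1))).symm] at h1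
    rw [← h1]
    refine Finset.sum_congr rfl fun e1 _ => ?_
    simp only [P, Finset.sum_mul]
    refine Finset.sum_congr rfl fun e2 _ => ?_
    have h2 : ∏ p, Sum.elim (fun z : Fin N × Fin 3 => KC (α z.1) (γ z.1) z.2) u p t ^
        ((sumEq (Fin N × Fin 3) κ d ((Equiv.curry (Fin N) (Fin 3) (Fin (d + 1))).symm e1, e2) p : Fin (d + 1)) : ℕ) =
        mon α γ e1 t * ∏ i, u i t ^ (e2 i : ℕ) := by
      rw [Fintype.prod_sum_type, Fintype.prod_prod_type]
      rfl
    rw [h2]
    have h3 : (Equiv.curry (Fin N) (Fin 3) (Fin (d + 1))).symm e1 = cur e1 := rfl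
    rw [h3]
    ring
  have hz := NestL.main an (ind3r_of an pos leg sing tr) d N α γ c y a b P hα hγ hαγ
    (fun j => ⟨hcα j, hyγ j⟩) hPan hab hca hby huj hrel
  funext e
  obtain ⟨⟨e1, e2⟩, rfl⟩ := (sumEq (Fin N × Fin 3) κ d).surjective e
  obtain ⟨e1, rfl⟩ := (Equiv.curry (Fin N) (Fin 3) (Fin (d + 1))).symm.surjective e1
  have h2 := hind ((a + b) / 2) ((a + 3 * b) / 4) (by linarith) (by linarith) (by linarith)
    (fun e2 => p (sumEq (Fin N × Fin 3) κ d (cur e1, e2))) (by
      intro t ht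
      exact hz e1 t ⟨by linarith [ht.1], by linarith [ht.2]⟩)
  exact congrFun h2 e2

end Pool.Agent.Q23.AQ
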