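import Mathlib

/-!
# Extension of real analytic functions to the complex domain
-/

set_option autoImplicit false

open Set Filter Topology

namespace Pool.Agent.Q23.AQ

theorem exists_cx_at (u : ℝ → ℝ) (s : ℝ) (h : AnalyticAt ℝ u s) :
    ∃ F : ℂ → ℂ, AnalyticAt ℂ F s ∧ ∀ᶠ x : ℝ in 𝓝 s, F x = u x := by
  obtain ⟨p, r, hp⟩ := h
  set q : FormalMultilinearSeries ℂ ℂ ℂ := FormalMultilinearSeries.ofScalars ℂ (fun n => ((p.coeff n : ℝ) : ℂ)) with hq
  obtain ⟨r', hr'0, hr'⟩ : ∃ r' : NNReal, 0 < r' ∧ (r' : ENNReal) < p.radius := by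
    obtain ⟨r', h1, h2⟩ := ENNReal.lt_iff_exists_nnreal_btwn.1 (hp.r_pos.trans_le hp.r_le)
    exact ⟨r', by exact_mod_cast h1, h2⟩
  obtain ⟨C, hC0, hC⟩ := p.norm_mul_pow_le_of_lt_radius hr'
  have hqn : ∀ n, ‖q n‖ = ‖p n‖ := by
    intro n
    rw [hq, FormalMultilinearSeries.ofScalars_norm, Complex.norm_real, FormalMultilinearSeries.norm_apply_eq_norm_coef]
  have hqr : (r' : ENNReal) ≤ q.radius := q.le_radius_of_bound C fun n => by rw [hqn]; exact hC n
  have hqr0 : 0 < q.radius := lt_of_lt_of_le (by exact_mod_cast hr'0) hqr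
  have hqs := q.hasFPowerSeriesOnBall hqr0
  refine ⟨fun z => q.sum (z - s), ?_, ?_⟩
  · have h1 : AnalyticAt ℂ q.sum ((s : ℂ) - s) := by
      rw [sub_self]
      exact hqs.analyticAt
    exact h1.comp (g := q.sum) (f := fun z : ℂ => z - s) (analyticAt_id.sub analyticAt_const)
  · have h1 : ∀ᶠ x : ℝ in 𝓝 s, x - s ∈ Metric.eball (0 : ℝ) r ∧ ((x : ℂ) - s) ∈ Metric.eball (0 : ℂ) q.radius := by
      have h2 : Tendsto (fun x : ℝ => x - s) (𝓝 s) (𝓝 0) := by
        have := (continuous_sub_right s).tendsto s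
        simpa using this
      have h3 : Tendsto (fun x : ℝ => (x : ℂ) - s) (𝓝 s) (𝓝 0) := by
        have := ((Complex.continuous_ofReal.tendsto s).sub_const (s : ℂ))
        simpa using this
      exact (h2.eventually (Metric.eball_mem_nhds _ hp.r_pos)).and (h3.eventually (Metric.eball_mem_nhds _ hqr0))
    filter_upwards [h1] with x hx
    have h4 := hp.hasSum hx.1
    have h5 := hqs.hasSum hx.2
    rw [zero_add] at h5
    have h6 : HasSum (fun n => ((p n fun _ => x - s : ℝ) : ℂ)) ((u (s + (x - s)) : ℝ) : ℂ) :=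
      Complex.hasSum_ofReal.2 h4
    have h7 : (fun n => ((p n fun _ => x - s : ℝ) : ℂ)) = fun n => q n fun _ => (x : ℂ) - s := by
      funext n
      rw [hq, FormalMultilinearSeries.ofScalars_apply_eq, FormalMultilinearSeries.apply_eq_pow_smul_coeff]
      simp [mul_comm]
    rw [h7] at h6
    have h8 := h5.unique h6
    rw [h8]
    norm_num

/-- the extension: sums of the Taylor series at the real points -/
noncomputable def cx (u : ℝ → ℝ) (z : ℂ) : ℂ :=
  ∑' n : ℕ, ((n.factorial : ℂ))⁻¹ • (Complex.I * z.im) ^ n • ((iteratedDeriv n u z.re : ℝ) : ℂ)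

theorem deriv_real {G : ℂ → ℂ} {v : ℝ → ℝ} {x : ℝ} (hG : DifferentiableAt ℂ G x)
    (h : ∀ᶠ y : ℝ in 𝓝 x, G y = v y) : deriv G x = ((deriv v x : ℝ) : ℂ) := by
  have h1 := hG.hasDerivAt.comp_ofReal
  have h2 : HasDerivAt (fun y : ℝ => ((v y : ℝ) : ℂ)) (deriv G x) x :=
    h1.congr_of_eventuallyEq (h.mono fun y hy => hy.symm)
  have h3 : HasDerivAt v (deriv G x).re x := by
    have := Complex.reCLM.hasFDerivAt.comp_hasDerivAt x h2
    simpa [Function.comp_def] using this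
  have h4 : HasDerivAt (fun _ : ℝ => (0 : ℝ)) (deriv G x).im x := by
    have := Complex.imCLM.hasFDerivAt.comp_hasDerivAt x h2
    simpa [Function.comp_def] using this
  have h5 := h4.unique (hasDerivAt_const x (0 : ℝ))
  rw [h3.deriv]
  exact Complex.ext rfl (by rw [h5, Complex.ofReal_im])

theorem cx_eq {u : ℝ → ℝ} {s : ℝ} {F : ℂ → ℂ} (hF : AnalyticAt ℂ F s) (hu : ∀ᶠ x : ℝ in 𝓝 s, F x = u x) :
    cx u =ᶠ[𝓝 (s : ℂ)] F := by
  obtain ⟨ρ, hρ, h1⟩ : ∃ ρ > 0, (∀ z ∈ Metric.ball (s : ℂ) ρ, AnalyticAt ℂ F z) ∧ ∀ x : ℝ, |x - s| < ρ → F x = u x := by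
    obtain ⟨ρ1, hρ1, h2⟩ := Metric.eventually_nhds_iff_ball.1 hF.eventually_analyticAt
    obtain ⟨ρ2, hρ2, h3⟩ := Metric.eventually_nhds_iff_ball.1 hu
    refine ⟨min ρ1 ρ2, lt_min hρ1 hρ2, fun z hz => h2 z (Metric.ball_subset_ball (min_le_left _ _) hz), fun x hx => ?_⟩
    refine h3 x ?_
    rw [Metric.mem_ball, Real.dist_eq]
    exact hx.trans_le (min_le_right _ _)
  obtain ⟨hFa, hFu⟩ := h1
  have hFan : AnalyticOnNhd ℂ F (Metric.ball (s : ℂ) ρ) := hFa
  have hmem : ∀ x : ℝ, |x - s| < ρ → (x : ℂ) ∈ Metric.ball (s : ℂ) ρ := by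
    intro x hx
    rw [Metric.mem_ball, dist_eq_norm, ← Complex.ofReal_sub, Complex.norm_real]
    exact hx
  have hder : ∀ n, ∀ x : ℝ, |x - s| < ρ → iteratedDeriv n F (x : ℂ) = ((iteratedDeriv n u x : ℝ) : ℂ) := by
    intro n
    induction n with
    | zero =>
      intro x hx
      rw [iteratedDeriv_zero, iteratedDeriv_zero]
      exact hFu x hx
    | succ n ih =>
      intro x hx
      rw [iteratedDeriv_succ, iteratedDeriv_succ]
      refine deriv_real ?_ ?_
      · exact (hFan.iterated_deriv n (x : ℂ) (hmem x hx)).differentiableAt.congr_of_eventuallyEq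
          (Eventually.of_forall fun z => by rw [iteratedDeriv_eq_iterate])
      · have : ∀ᶠ y : ℝ in 𝓝 x, |y - s| < ρ := by
          have h5 : Continuous fun y : ℝ => |y - s| := by fun_prop
          exact h5.continuousAt.eventually_lt_const hx
        exact this.mono fun y hy => ih y hy
  filter_upwards [Metric.ball_mem_nhds (s : ℂ) (show 0 < ρ / 2 by linarith)] with z hz
  rw [Metric.mem_ball, dist_eq_norm] at hz
  have hre : |z.re - s| < ρ / 2 := by
    have := (Complex.abs_re_le_norm (z - s)).trans_lt hz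
    simpa using this
  have him : |z.im| < ρ / 2 := by
    have := (Complex.abs_im_le_norm (z - s)).trans_lt hz
    simpa using this
  have hsub : Metric.ball ((z.re : ℝ) : ℂ) (ρ / 2) ⊆ Metric.ball (s : ℂ) ρ := by
    intro w hw
    rw [Metric.mem_ball] at hw ⊢
    have h5 : dist ((z.re : ℝ) : ℂ) (s : ℂ) < ρ / 2 := by
      rw [dist_eq_norm, ← Complex.ofReal_sub, Complex.norm_real]
      exact hre
    calc dist w s ≤ dist w ((z.re : ℝ) : ℂ) + dist ((z.re : ℝ) : ℂ) (s : ℂ) := dist_triangle _ _ _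
      _ < ρ := by linarith
  have hz' : z ∈ Metric.ball ((z.re : ℝ) : ℂ) (ρ / 2) := by
    rw [Metric.mem_ball, dist_eq_norm]
    have h5 : z - ((z.re : ℝ) : ℂ) = Complex.I * z.im := by
      apply Complex.ext <;> simp
    rw [h5, norm_mul, Complex.norm_I, one_mul, Complex.norm_real]
    exact him
  have h6 := Complex.hasSum_taylorSeries_on_ball (f := F) (c := ((z.re : ℝ) : ℂ)) (r := (ρ / 2).toNNReal)
    (fun w hw => (hFan w (hsub (by rwa [Real.coe_toNNReal _ (by linarith)] at hw))).differentiableAt.differentiableWithinAt)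
    (z := z) (by rwa [Real.coe_toNNReal _ (by linarith)])
  have h7 : z - ((z.re : ℝ) : ℂ) = Complex.I * z.im := by
    apply Complex.ext <;> simp
  rw [h7] at h6
  rw [cx, ← h6.tsum_eq]
  refine tsum_congr fun n => ?_
  rw [hder n z.re (by linarith)]

theorem cx_an {u : ℝ → ℝ} {s : ℝ} (h : AnalyticAt ℝ u s) : AnalyticAt ℂ (cx u) s := by
  obtain ⟨F, hF, hu⟩ := exists_cx_at u s h
  exact hF.congr (cx_eq hF hu).symm

theorem cx_real (u : ℝ → ℝ) (s : ℝ) : cx u (s : ℂ) = u s := by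
  rw [cx, tsum_eq_single 0]
  · simp
  · intro n hn
    simp [hn]

end Pool.Agent.Q23.AQ
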