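import Mathlib

/-!
# Algebraic independence of solutions of additive difference equations
-/

set_option autoImplicit false
set_option linter.unusedSectionVars false

open MvPolynomial

namespace Pool.Agent.Q23.DA

variable {κ K : Type} [Fintype κ] [DecidableEq κ] [Field K]

/-- all monomials of `P` have degree at most `n - k` -/
def Dl (k : ℕ) (P : MvPolynomial κ K) (n : ℕ) : Prop := ∀ s, coeff s P ≠ 0 → s.degree + k ≤ n

theorem Dl.add {k n : ℕ} {P Q : MvPolynomial κ K} (hP : Dl k P n) (hQ : Dl k Q n) : Dl k (P + Q) n := by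
  intro s hs
  by_cases h : coeff s P = 0
  · exact hQ s (by intro h'; apply hs; rw [coeff_add, h, h', add_zero])
  · exact hP s h

theorem Dl.neg {k n : ℕ} {P : MvPolynomial κ K} (hP : Dl k P n) : Dl k (-P) n := by
  intro s hs
  exact hP s (by intro h'; apply hs; rw [coeff_neg, h', neg_zero])

theorem Dl.sub {k n : ℕ} {P Q : MvPolynomial κ K} (hP : Dl k P n) (hQ : Dl k Q n) : Dl k (P - Q) n := by
  rw [sub_eq_add_neg]
  exact hP.add hQ.neg

theorem Dl.zero {k n : ℕ} : Dl k (0 : MvPolynomial κ K) n := fun s hs => absurd (coeff_zero s) hs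

theorem Dl.sum {ι : Type} {k n : ℕ} {S : Finset ι} {P : ι → MvPolynomial κ K} (h : ∀ i ∈ S, Dl k (P i) n) :
    Dl k (∑ i ∈ S, P i) n := by
  classical
  induction S using Finset.induction_on with
  | empty => simpa using Dl.zero
  | insert a S ha ih =>
    rw [Finset.sum_insert ha]
    exact (h a (Finset.mem_insert_self _ _)).add (ih fun i hi => h i (Finset.mem_insert_of_mem hi))

theorem Dl.C_mul {k n : ℕ} {P : MvPolynomial κ K} (c : K) (hP : Dl k P n) : Dl k (C c * P) n := by
  intro s hs
  exact hP s (by intro h'; apply hs; rw [coeff_C_mul, h', mul_zero])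

theorem Dl.mul_C {k n : ℕ} {P : MvPolynomial κ K} (c : K) (hP : Dl k P n) : Dl k (P * C c) n := by
  rw [mul_comm]
  exact hP.C_mul c

theorem Dl.mono {k k' n n' : ℕ} {P : MvPolynomial κ K} (hP : Dl k P n) (h : k' + n ≤ k + n') : Dl k' P n' := by
  intro s hs
  have := hP s hs
  omega

theorem Dl.mul_X {k n : ℕ} {P : MvPolynomial κ K} (j : κ) (hP : Dl k P n) : Dl k (P * X j) (n + 1) := by
  intro s hs
  rw [coeff_mul_X'] at hs
  split_ifs at hs with h
  · have h1 := hP _ hs
    have h2 : (s - Finsupp.single j 1) + Finsupp.single j 1 = s := by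
      apply tsub_add_cancel_of_le
      rw [Finsupp.single_le_iff]
      exact Nat.one_le_iff_ne_zero.2 (Finsupp.mem_support_iff.1 h)
    have h3 : s.degree = (s - Finsupp.single j 1).degree + 1 := by
      conv_lhs => rw [← h2]
      rw [map_add, Finsupp.degree_single]
    omega
  · exact absurd rfl hs

theorem Dl.pderiv {k n : ℕ} {P : MvPolynomial κ K} (i : κ) (hP : Dl k P n) : Dl (k + 1) (MvPolynomial.pderiv i P) n := by
  intro s hs
  rw [coeff_pderiv] at hs
  have h1 := hP _ (left_ne_zero_of_mul hs)
  rw [map_add, Finsupp.degree_single] at h1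
  omega

theorem Dl.map {k n : ℕ} {P : MvPolynomial κ K} (σ : K →+* K) (hP : Dl k P n) : Dl k (MvPolynomial.map σ P) n := by
  intro s hs
  refine hP s fun h => hs ?_
  rw [coeff_map, h, map_zero]

/-- the shift on polynomials -/
noncomputable def tau (σ : K →+* K) (a : κ → K) : MvPolynomial κ K →+* MvPolynomial κ K :=
  eval₂Hom (C.comp σ) (fun i => X i + C (a i))

theorem tau_C (σ : K →+* K) (a : κ → K) (c : K) : tau σ a (C c) = C (σ c) := by simp [tau]

theorem tau_X (σ : K →+* K) (a : κ → K) (i : κ) : tau σ a (X i) = X i + C (a i) := by simp [tau]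

/-- the remainder of Taylor's formula of order one -/
noncomputable def rem (σ : K →+* K) (a : κ → K) (P : MvPolynomial κ K) : MvPolynomial κ K :=
  tau σ a P - MvPolynomial.map σ P - ∑ i, C (a i) * MvPolynomial.pderiv i (MvPolynomial.map σ P)

theorem rem_add (σ : K →+* K) (a : κ → K) (P Q : MvPolynomial κ K) : rem σ a (P + Q) = rem σ a P + rem σ a Q := by
  unfold rem
  simp only [map_add, mul_add, Finset.sum_add_distrib]
  ring

theorem rem_mul_X (σ : K →+* K) (a : κ → K) (P : MvPolynomial κ K) (j : κ) :
    rem σ a (P * X j) = (∑ i, C (a i) * MvPolynomial.pderiv i (MvPolynomial.map σ P)) * C (a j) +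
      (rem σ a P * X j + rem σ a P * C (a j)) := by
  have h1 : ∑ i, C (a i) * MvPolynomial.pderiv i (MvPolynomial.map σ P * X j) =
      (∑ i, C (a i) * MvPolynomial.pderiv i (MvPolynomial.map σ P)) * X j + C (a j) * MvPolynomial.map σ P := by
    simp only [Derivation.leibniz, pderiv_X, smul_eq_mul, mul_add, Finset.sum_add_distrib, Finset.sum_mul]
    rw [Finset.sum_eq_single j]
    · simp only [Pi.single_eq_same, mul_one]
      rw [add_comm]
      congr 1
      exact Finset.sum_congr rfl fun i _ => by ring
    · intro i _ hi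
      rw [Pi.single_eq_of_ne' hi]
      simp
    · intro h
      exact absurd (Finset.mem_univ _) h
  unfold rem
  rw [map_mul, map_mul, MvPolynomial.map_X, h1, tau_X]
  ring

theorem rem_dl_mon (σ : K →+* K) (a : κ → K) (s : κ →₀ ℕ) (c : K) : ∀ n, Dl 0 (monomial s c) n →
    Dl 2 (rem σ a (monomial s c)) n := by
  refine induction_on_monomial (motive := fun P => ∀ n, Dl 0 P n → Dl 2 (rem σ a P) n) ?_ ?_ s c
  · intro c n _
    have : rem σ a (C c) = 0 := by
      unfold rem
      simp [tau_C]
    rw [this]
    exact Dl.zero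
  · intro P j ih n hP
    by_cases h0 : P = 0
    · rw [h0, zero_mul]
      have : rem σ a (0 : MvPolynomial κ K) = 0 := by unfold rem; simp
      rw [this]
      exact Dl.zero
    · have h1 : ∀ s, coeff s P ≠ 0 → s.degree + 1 ≤ n := by
        intro s hs
        have := hP (s + Finsupp.single j 1) (by rwa [coeff_mul_X])
        rw [map_add, Finsupp.degree_single] at this
        omega
      obtain ⟨s0, hs0⟩ := MvPolynomial.ne_zero_iff.1 h0
      have hn : 1 ≤ n := by
        have := h1 s0 hs0
        omega
      have hP' : Dl 0 P (n - 1) := fun s hs => by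
        have := h1 s hs
        omega
      have h2 := ih (n - 1) hP'
      rw [rem_mul_X]
      refine Dl.add ?_ (Dl.add ?_ ?_)
      · refine Dl.mul_C _ (Dl.sum fun i _ => Dl.C_mul _ ?_)
        exact (hP'.map σ).pderiv i |>.mono (by omega)
      · exact (h2.mul_X j).mono (by omega)
      · exact (h2.mul_C _).mono (by omega)

theorem rem_dl (σ : K →+* K) (a : κ → K) (P : MvPolynomial κ K) (n : ℕ) (hP : Dl 0 P n) : Dl 2 (rem σ a P) n := by
  classical
  have hsum : ∀ S : Finset (κ →₀ ℕ), (∀ s ∈ S, coeff s P ≠ 0) →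
      Dl 2 (rem σ a (∑ s ∈ S, monomial s (coeff s P))) n := by
    intro S
    induction S using Finset.induction_on with
    | empty =>
      intro _
      have : rem σ a (0 : MvPolynomial κ K) = 0 := by unfold rem; simp
      rw [Finset.sum_empty, this]
      exact Dl.zero
    | insert t S ht ih =>
      intro h
      rw [Finset.sum_insert ht, rem_add]
      refine Dl.add ?_ (ih fun s hs => h s (Finset.mem_insert_of_mem hs))
      refine rem_dl_mon σ a t _ n ?_
      intro s hs
      rw [coeff_monomial] at hs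
      split_ifs at hs with h'
      · rw [← h']
        exact hP t (h t (Finset.mem_insert_self _ _))
      · exact absurd rfl hs
  have h := hsum P.support (fun s hs => MvPolynomial.mem_support_iff.1 hs)
  rwa [MvPolynomial.support_sum_monomial_coeff] at h

theorem tau_eq (σ : K →+* K) (a : κ → K) (P : MvPolynomial κ K) :
    tau σ a P = MvPolynomial.map σ P + ∑ i, C (a i) * MvPolynomial.pderiv i (MvPolynomial.map σ P) + rem σ a P := by
  unfold rem
  ring

theorem coeff_top (σ : K →+* K) (a : κ → K) {P : MvPolynomial κ K} {n : ℕ} (hP : Dl 0 P n) {s : κ →₀ ℕ}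
    (hs : n ≤ s.degree) : coeff s (tau σ a P) = σ (coeff s P) := by
  rw [tau_eq, coeff_add, coeff_add, coeff_map]
  have h1 : coeff s (∑ i, C (a i) * MvPolynomial.pderiv i (MvPolynomial.map σ P)) = 0 := by
    have : Dl 1 (∑ i, C (a i) * MvPolynomial.pderiv i (MvPolynomial.map σ P)) n :=
      Dl.sum fun i _ => Dl.C_mul _ ((hP.map σ).pderiv i)
    by_contra h
    have := this s h
    omega
  have h2 : coeff s (rem σ a P) = 0 := by
    by_contra h
    have := rem_dl σ a P n hP s h
    omega
  rw [h1, h2, add_zero, add_zero]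

theorem coeff_next (σ : K →+* K) (a : κ → K) {P : MvPolynomial κ K} {n : ℕ} (hP : Dl 0 P n) {s : κ →₀ ℕ}
    (hs : n ≤ s.degree + 1) : coeff s (tau σ a P) = σ (coeff s P) +
      ∑ i, a i * (σ (coeff (s + Finsupp.single i 1) P) * ((s i : K) + 1)) := by
  rw [tau_eq, coeff_add, coeff_add, coeff_map, coeff_sum]
  have h2 : coeff s (rem σ a P) = 0 := by
    by_contra h
    have := rem_dl σ a P n hP s h
    omega
  rw [h2, add_zero]
  congr 1
  refine Finset.sum_congr rfl fun i _ => ?_
  rw [coeff_C_mul, coeff_pderiv, coeff_map]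

variable {G : Type} [CommRing G] [Nontrivial G] [Algebra K G]

theorem aeval_tau (σ : K →+* K) (S : G →+* G) (hS : ∀ x : K, S (algebraMap K G x) = algebraMap K G (σ x))
    (f : κ → G) (a : κ → K) (hf : ∀ i, S (f i) = f i + algebraMap K G (a i)) (P : MvPolynomial κ K) :
    aeval f (tau σ a P) = S (aeval f P) := by
  induction P using MvPolynomial.induction_on with
  | C c => rw [tau_C, aeval_C, aeval_C, hS]
  | add P Q hP hQ => rw [map_add, map_add, map_add, map_add, hP, hQ]
  | mul_X P i hP => rw [map_mul, map_mul, map_mul, map_mul, hP, tau_X, map_add, aeval_X, aeval_C, hf]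

/-- **Solutions of additive difference equations.** -/
theorem algInd [CharZero K] (σ : K →+* K) (S : G →+* G) (hS : ∀ x : K, S (algebraMap K G x) = algebraMap K G (σ x))
    (f : κ → G) (a : κ → K) (hf : ∀ i, S (f i) = f i + algebraMap K G (a i))
    (h : ∀ (c : κ → K) (g : K), (∀ i, σ (c i) = c i) → ∑ i, c i * a i = σ g - g → c = 0) :
    AlgebraicIndependent K f := by
  classical
  rw [algebraicIndependent_iff]
  by_contra hcon
  push Not at hcon
  let I : Set (MvPolynomial κ K) := {P | aeval f P = 0 ∧ P ≠ 0}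
  have hI : I.Nonempty := hcon
  let top : MvPolynomial κ K → Finset (κ →₀ ℕ) := fun P => P.support.filter fun s => s.degree = P.totalDegree
  let μ : MvPolynomial κ K → ℕ ×ₗ ℕ := fun P => toLex (P.totalDegree, (top P).card)
  obtain ⟨P, hP, hmin⟩ : ∃ P ∈ I, ∀ Q ∈ I, ¬ μ Q < μ P :=
    ⟨Function.argminOn μ I hI, Function.argminOn_mem μ I hI, fun Q hQ => Function.not_lt_argminOn μ I hQ⟩
  obtain ⟨hP0, hPne⟩ := hP
  have hdl : ∀ Q : MvPolynomial κ K, Dl 0 Q Q.totalDegree := fun Q s hs =>
    le_totalDegree (MvPolynomial.mem_support_iff.2 hs)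
  have hle : ∀ (Q : MvPolynomial κ K) (n : ℕ), Dl 0 Q n → Q.totalDegree ≤ n := fun Q n hQ =>
    Finset.sup_le fun s hs => hQ s (MvPolynomial.mem_support_iff.1 hs)
  -- a monomial of top degree
  have htop : (top P).Nonempty := by
    obtain ⟨s, hs, hs'⟩ := Finset.exists_mem_eq_sup P.support (MvPolynomial.support_nonempty.2 hPne)
      (fun s => s.sum fun _ e => e)
    exact ⟨s, Finset.mem_filter.2 ⟨hs, hs'.symm⟩⟩
  obtain ⟨e0, he0⟩ := htop
  rw [Finset.mem_filter] at he0
  obtain ⟨he0s, he0d⟩ := he0
  have hc0 : coeff e0 P ≠ 0 := MvPolynomial.mem_support_iff.1 he0s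
  set n := P.totalDegree with hn
  -- normalisation
  set P' := C (coeff e0 P)⁻¹ * P with hP'
  have hco : ∀ s, coeff s P' = (coeff e0 P)⁻¹ * coeff s P := fun s => by rw [hP', coeff_C_mul]
  have hdl' : Dl 0 P' n := (hdl P).C_mul _
  have hP'0 : aeval f P' = 0 := by rw [hP', map_mul, hP0, mul_zero]
  have hone : coeff e0 P' = 1 := by rw [hco, inv_mul_cancel₀ hc0]
  -- the difference
  have hQ : tau σ a P' - P' = 0 := by
    by_contra hQne
    have hQI : tau σ a P' - P' ∈ I := by
      refine ⟨?_, hQne⟩
      rw [map_sub, aeval_tau σ S hS f a hf, hP'0, map_zero, sub_zero]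
    have hQc : ∀ s : κ →₀ ℕ, n ≤ s.degree → coeff s (tau σ a P' - P') = σ (coeff s P') - coeff s P' := by
      intro s hs
      rw [coeff_sub, coeff_top σ a hdl' hs]
    have hQd : Dl 0 (tau σ a P' - P') n := by
      intro s hs
      by_contra hlt
      apply hs
      rw [hQc s (by omega)]
      have : coeff s P' = 0 := by
        by_contra hne
        have := hdl' s hne
        omega
      rw [this, map_zero, sub_zero]
    have hQt := hle _ n hQd
    rcases lt_or_eq_of_le hQt with hlt | heq
    · refine hmin _ hQI ?_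
      exact Prod.Lex.toLex_lt_toLex.2 (Or.inl hlt)
    · refine hmin _ hQI ?_
      refine Prod.Lex.toLex_lt_toLex.2 (Or.inr ⟨heq, ?_⟩)
      refine Finset.card_lt_card ?_
      rw [Finset.ssubset_iff_of_subset]
      · refine ⟨e0, Finset.mem_filter.2 ⟨he0s, he0d⟩, ?_⟩
        intro hmem
        rw [Finset.mem_filter, MvPolynomial.mem_support_iff] at hmem
        apply hmem.1
        rw [hQc e0 (by omega), hone, map_one, sub_self]
      · intro s hs
        rw [Finset.mem_filter, MvPolynomial.mem_support_iff] at hs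
        rw [Finset.mem_filter, MvPolynomial.mem_support_iff]
        refine ⟨?_, by rw [hs.2, heq]⟩
        intro hne
        apply hs.1
        rw [hQc s (by omega), hco, hne]
        simp
  have htau : tau σ a P' = P' := sub_eq_zero.1 hQ
  -- coefficients of top degree are constants
  have hconst : ∀ s : κ →₀ ℕ, n ≤ s.degree → σ (coeff s P') = coeff s P' := by
    intro s hs
    rw [← coeff_top σ a hdl' hs, htau]
  -- the degree is positive
  have hne0 : e0 ≠ 0 := by
    intro he
    have hn0 : n = 0 := by rw [← he0d, he]; simp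
    have hPC : P' = 1 := by
      ext s
      by_cases hs : s = 0
      · rw [hs, ← he, hone, he]; simp
      · have h1 : coeff s P' = 0 := by
          by_contra hne
          have := hdl' s hne
          rw [hn0] at this
          have h2 : s.degree = 0 := by omega
          exact hs ((Finsupp.degree_eq_zero_iff s).1 h2)
        rw [h1, MvPolynomial.coeff_one, if_neg (Ne.symm hs)]
    rw [hPC, map_one] at hP'0
    exact one_ne_zero hP'0
  obtain ⟨i0, hi0⟩ : ∃ i, e0 i ≠ 0 := by
    by_contra hcon
    push Not at hcon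
    exact hne0 (Finsupp.ext hcon)
  set s0 := e0 - Finsupp.single i0 1 with hs0
  have hadd : s0 + Finsupp.single i0 1 = e0 := by
    apply tsub_add_cancel_of_le
    rw [Finsupp.single_le_iff]
    exact Nat.one_le_iff_ne_zero.2 hi0
  have hdeg : e0.degree = s0.degree + 1 := by
    conv_lhs => rw [← hadd]
    rw [map_add, Finsupp.degree_single]
  have hnext := coeff_next σ a hdl' (s := s0) (by omega)
  rw [htau] at hnext
  have hcz := h (fun i => σ (coeff (s0 + Finsupp.single i 1) P') * ((s0 i : K) + 1)) (-coeff s0 P') (by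
    intro i
    have h1 : σ (coeff (s0 + Finsupp.single i 1) P') = coeff (s0 + Finsupp.single i 1) P' := hconst _ (by
      rw [map_add, Finsupp.degree_single]
      omega)
    rw [h1, map_mul, h1, map_add, map_natCast, map_one]) (by
    rw [map_neg]
    have h1 : ∑ i, σ (coeff (s0 + Finsupp.single i 1) P') * ((s0 i : K) + 1) * a i =
        ∑ i, a i * (σ (coeff (s0 + Finsupp.single i 1) P') * ((s0 i : K) + 1)) :=
      Finset.sum_congr rfl fun i _ => by ring
    rw [h1]
    linear_combination (-1 : K) * hnext)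
  have h2 := congrFun hcz i0
  simp only [hadd, Pi.zero_apply] at h2
  rw [hone, map_one, one_mul] at h2
  have h3 : ((s0 i0 + 1 : ℕ) : K) = 0 := by push_cast; exact h2
  exact Nat.succ_ne_zero _ (Nat.cast_eq_zero.1 h3)

end Pool.Agent.Q23.DA
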