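import Pool.Agent.Q23.AQ.Sc

/-!
# Exponentials of functions of different growth
-/

set_option autoImplicit false

open Set Polynomial Filter Topology

namespace Pool.Agent.Q23.AQ

open Pool.Agent.TH818.AP

/-- monomials in functions such that all nontrivial products of powers, and a power of `t`, tend to `0` or `∞` -/
theorem rindG {κ : Type} [Fintype κ] [DecidableEq κ] {d : ℕ} (u : κ → ℝ → ℝ)
    (hpos : ∀ k, ∀ᶠ t in atTop, 0 < u k t)
    (hu : ∀ (m : κ → ℤ) (n : ℤ), m ≠ 0 → Sep (fun t => ∑ k, (m k : ℝ) * Real.log (u k t) + n * Real.log t))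
    (a b : ℝ) (hab : a < b) (han : ∀ k, AnalyticOnNhd ℝ (u k) (Ici a)) :
    RIndep (fun (e : κ → Fin (d + 1)) (t : ℝ) => ∏ k, u k t ^ (e k : ℕ)) a b := by
  classical
  intro p hp
  have hext := extend u a b han hab p hp
  obtain ⟨N, hN⟩ : ∃ N : ℕ, ∀ e, (p e).natDegree < N :=
    ⟨(Finset.univ.sup fun e => (p e).natDegree) + 1, fun e =>
      Nat.lt_succ_of_le (Finset.le_sup (f := fun e => (p e).natDegree) (Finset.mem_univ e))⟩
  let g : (κ → Fin (d + 1)) × Fin N → ℝ → ℝ := fun i t => t ^ (i.2 : ℕ) * ∏ k, u k t ^ (i.1 k : ℕ)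
  let c : (κ → Fin (d + 1)) × Fin N → ℝ := fun i => (p i.1).coeff i.2
  have hposA : ∀ᶠ t in atTop, ∀ k, 0 < u k t := eventually_all.2 hpos
  have hgpos : ∀ i, ∀ᶠ t in atTop, 0 < g i t := by
    intro i
    filter_upwards [hposA, eventually_gt_atTop 0] with t ht ht0
    exact mul_pos (pow_pos ht0 _) (Finset.prod_pos fun k _ => pow_pos (ht k) _)
  have hlog : ∀ i, ∀ᶠ t in atTop, Real.log (g i t) =
      ((i.2 : ℕ) : ℝ) * Real.log t + ∑ k, ((i.1 k : ℕ) : ℝ) * Real.log (u k t) := by
    intro i
    filter_upwards [hposA, eventually_gt_atTop 0] with t ht ht0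
    simp only [g]
    rw [Real.log_mul (pow_pos ht0 _).ne' (Finset.prod_pos fun k _ => pow_pos (ht k) _).ne',
      Real.log_prod (fun k _ => (pow_pos (ht k) _).ne')]
    simp only [Real.log_pow]
  have hc0 : c = 0 := by
    refine ind_of_log g hgpos ?_ c ?_
    · intro i j hij
      have h9 : (fun t => Real.log (g i t) - Real.log (g j t)) =ᶠ[atTop]
          (fun t => ∑ k, ((((i.1 k : ℕ) : ℤ) - ((j.1 k : ℕ) : ℤ) : ℤ) : ℝ) * Real.log (u k t) +
            ((((i.2 : ℕ) : ℤ) - ((j.2 : ℕ) : ℤ) : ℤ) : ℝ) * Real.log t) := by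
        filter_upwards [hlog i, hlog j] with t h1 h2
        rw [h1, h2]
        push_cast
        simp only [sub_mul, Finset.sum_sub_distrib]
        ring
      have h8 : Sep (fun t => ∑ k, ((((i.1 k : ℕ) : ℤ) - ((j.1 k : ℕ) : ℤ) : ℤ) : ℝ) * Real.log (u k t) +
            ((((i.2 : ℕ) : ℤ) - ((j.2 : ℕ) : ℤ) : ℤ) : ℝ) * Real.log t) := by
        by_cases h1 : i.1 = j.1
        · have h2 : i.2 ≠ j.2 := fun h => hij (Prod.ext h1 h)
          have h3 : (i.2 : ℕ) ≠ (j.2 : ℕ) := fun h => h2 (Fin.ext h)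
          simp only [h1, sub_self, Int.cast_zero, zero_mul, Finset.sum_const_zero, zero_add]
          rcases lt_or_gt_of_ne h3 with h4 | h4
          · right
            refine Real.tendsto_log_atTop.const_mul_atTop_of_neg ?_
            have : ((i.2 : ℕ) : ℤ) - ((j.2 : ℕ) : ℤ) < 0 := by omega
            exact_mod_cast this
          · left
            refine Real.tendsto_log_atTop.const_mul_atTop ?_
            have : 0 < ((i.2 : ℕ) : ℤ) - ((j.2 : ℕ) : ℤ) := by omega
            exact_mod_cast this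
        · refine hu (fun k => ((i.1 k : ℕ) : ℤ) - ((j.1 k : ℕ) : ℤ)) _ fun h => h1 ?_
          funext k
          have := congrFun h k
          simp only [Pi.zero_apply] at this
          exact Fin.ext (by omega)
      rcases h8 with h8 | h8
      · exact Or.inl (h8.congr' h9.symm)
      · exact Or.inr (h8.congr' h9.symm)
    · filter_upwards [eventually_ge_atTop a] with t ht
      rw [← hext t ht, Fintype.sum_prod_type]
      refine Finset.sum_congr rfl fun e _ => ?_
      rw [Polynomial.eval_eq_sum_range' (hN e), Finset.sum_mul, ← Fin.sum_univ_eq_sum_range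
        (fun i => (p e).coeff i * t ^ i * ∏ k, u k t ^ ((e k : Fin (d + 1)) : ℕ))]
      refine Finset.sum_congr rfl fun n _ => ?_
      simp only [c, g]
      ring
  funext e
  ext n
  rw [Pi.zero_apply, coeff_zero]
  rcases lt_or_ge n N with hn | hn
  · exact congrFun hc0 (e, ⟨n, hn⟩)
  · exact Polynomial.coeff_eq_zero_of_natDegree_lt ((hN e).trans_le hn)

theorem lin_log {c : ℝ} (hc : 0 < c) (r : ℝ) : Tendsto (fun t : ℝ => c * t + r * Real.log t) atTop atTop := by
  have h1 : Tendsto (fun t : ℝ => c + r * (Real.log t / t)) atTop (𝓝 c) := by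
    have := (log_div_id.const_mul r).const_add c
    simpa using this
  refine (Tendsto.atTop_mul_pos hc tendsto_id h1).congr' ?_
  filter_upwards [eventually_gt_atTop 0] with t ht
  simp only [id]
  field_simp

theorem poly_sep_pos (P : ℝ[X]) (hP : P.natDegree ≠ 0) (hl : 0 < P.leadingCoeff) (r : ℝ) :
    Tendsto (fun t => P.eval t + r * Real.log t) atTop atTop := by
  have hP0 : P ≠ 0 := fun h => hP (by simp [h])
  set Q := P - C (P.leadingCoeff / 2) * X with hQ
  have hc : Q.coeff P.natDegree = P.leadingCoeff ∨ Q.coeff P.natDegree = P.leadingCoeff / 2 := by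
    rw [hQ, coeff_sub, coeff_C_mul, coeff_X, coeff_natDegree]
    split_ifs with h
    · right; ring
    · left; ring
  have hcp : 0 < Q.coeff P.natDegree := by
    rcases hc with h | h <;> rw [h] <;> linarith
  have hdeg : Q.natDegree ≤ P.natDegree := by
    refine (natDegree_sub_le _ _).trans (max_le le_rfl ?_)
    refine (natDegree_C_mul_le _ _).trans ?_
    rw [natDegree_X]
    omega
  have hd2 : Q.natDegree = P.natDegree := le_antisymm hdeg (le_natDegree_of_ne_zero hcp.ne')
  have h1 : Tendsto (fun t => Q.eval t) atTop atTop := by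
    refine (Polynomial.tendsto_atTop_iff_leadingCoeff_nonneg Q).2 ⟨?_, ?_⟩
    · exact natDegree_pos_iff_degree_pos.1 (by omega)
    · rw [leadingCoeff, hd2]
      exact hcp.le
  have h2 := h1.atTop_add_atTop (lin_log (half_pos hl) r)
  refine h2.congr fun t => ?_
  rw [hQ]
  simp
  ring

theorem poly_sep (P : ℝ[X]) (hP : P.natDegree ≠ 0) (r : ℝ) : Sep (fun t => P.eval t + r * Real.log t) := by
  have hP0 : P ≠ 0 := fun h => hP (by simp [h])
  rcases lt_or_gt_of_ne (leadingCoeff_ne_zero.2 hP0) with h | h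
  · right
    have h1 := poly_sep_pos (-P) (by rwa [natDegree_neg]) (by rw [leadingCoeff_neg]; linarith) (-r)
    have h2 := tendsto_neg_atTop_atBot.comp h1
    refine h2.congr fun t => ?_
    simp
    ring
  · exact Or.inl (poly_sep_pos P hP h r)

end Pool.Agent.Q23.AQ
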