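import Pool.Agent.Q23.AQ.DA
import Pool.Agent.Q23.AQ.Gr

/-!
# Algebraic independence over `ℝ(t)` of solutions of `u (t + 1) = u (t) + r (t)`, `r` rational
-/

set_option autoImplicit false

open Filter Topology Polynomial

namespace Pool.Agent.Q23.DA

abbrev GG := Germ (atTop : Filter ℝ) ℝ
abbrev KK := FractionRing ℝ[X]

/-- polynomials as germs at infinity -/
noncomputable def phi : ℝ[X] →+* GG where
  toFun P := ((fun t : ℝ => P.eval t) : ℝ → ℝ)
  map_one' := by
    rw [← Germ.coe_one]
    congr 1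
    funext t
    simp
  map_mul' P Q := by
    rw [← Germ.coe_mul]
    congr 1
    funext t
    simp
  map_zero' := by
    rw [← Germ.coe_zero]
    congr 1
    funext t
    simp
  map_add' P Q := by
    rw [← Germ.coe_add]
    congr 1
    funext t
    simp

theorem poly_ne {P : ℝ[X]} (hP : P ≠ 0) : ∀ᶠ t : ℝ in atTop, P.eval t ≠ 0 := by
  have h := P.roots.toFinset.finite_toSet
  have h1 : ∀ᶠ t : ℝ in atTop, t ∉ (P.roots.toFinset : Set ℝ) := by
    obtain ⟨M, hM⟩ := h.bddAbove
    filter_upwards [eventually_gt_atTop M] with t ht hmem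
    exact absurd (hM hmem) (not_le.2 ht)
  filter_upwards [h1] with t ht h0
  apply ht
  rw [Finset.mem_coe, Multiset.mem_toFinset, mem_roots hP]
  exact h0

theorem phi_unit {P : ℝ[X]} (hP : P ≠ 0) : IsUnit (phi P) := by
  refine IsUnit.of_mul_eq_one (((fun t : ℝ => (P.eval t)⁻¹) : ℝ → ℝ) : GG) ?_
  show (((fun t : ℝ => P.eval t) : ℝ → ℝ) : GG) * (((fun t : ℝ => (P.eval t)⁻¹) : ℝ → ℝ) : GG) = 1
  rw [← Germ.coe_mul, ← Germ.coe_one]
  refine Germ.coe_eq.2 ?_
  filter_upwards [poly_ne hP] with t ht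
  simp [ht]

/-- rational functions as germs at infinity -/
noncomputable def iota : KK →+* GG :=
  IsLocalization.lift (M := nonZeroDivisors ℝ[X]) (g := phi) (fun y => phi_unit (nonZeroDivisors.ne_zero y.2))

noncomputable instance : Algebra KK GG := iota.toAlgebra

theorem iota_poly (P : ℝ[X]) : iota (algebraMap ℝ[X] KK P) = phi P := IsLocalization.lift_eq _ _

theorem iota_div (P Q : ℝ[X]) (hQ : Q ≠ 0) :
    iota (algebraMap ℝ[X] KK P / algebraMap ℝ[X] KK Q) = (((fun t : ℝ => P.eval t / Q.eval t) : ℝ → ℝ) : GG) := by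
  have hQ' : algebraMap ℝ[X] KK Q ≠ 0 := by
    rw [Ne, IsFractionRing.to_map_eq_zero_iff]
    exact hQ
  have h1 : iota (algebraMap ℝ[X] KK P / algebraMap ℝ[X] KK Q) * phi Q = phi P := by
    rw [← iota_poly Q, ← map_mul, div_mul_cancel₀ _ hQ', iota_poly]
  have h2 : (((fun t : ℝ => P.eval t / Q.eval t) : ℝ → ℝ) : GG) * phi Q = phi P := by
    show (((fun t : ℝ => P.eval t / Q.eval t) : ℝ → ℝ) : GG) * (((fun t : ℝ => Q.eval t) : ℝ → ℝ) : GG) =
      (((fun t : ℝ => P.eval t) : ℝ → ℝ) : GG)
    rw [← Germ.coe_mul]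
    refine Germ.coe_eq.2 ?_
    filter_upwards [poly_ne hQ] with t ht
    simp only [Pi.mul_apply]
    field_simp
  exact (phi_unit hQ).mul_right_cancel (h1.trans h2.symm)

theorem shift_inj : Function.Injective (compRingHom (X + 1 : ℝ[X])) := by
  rw [injective_iff_map_eq_zero]
  intro P hP
  have h1 : P.comp (X + 1) = 0 := hP
  have h2 : (P.comp (X + 1)).comp (X - 1) = P := by
    rw [comp_assoc]
    simp
  rw [h1, zero_comp] at h2
  exact h2.symm

/-- the shift on rational functions -/
noncomputable def sig : KK →+* KK := IsFractionRing.map shift_inj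

theorem sig_poly (P : ℝ[X]) : sig (algebraMap ℝ[X] KK P) = algebraMap ℝ[X] KK (P.comp (X + 1)) :=
  IsLocalization.map_eq (M := nonZeroDivisors ℝ[X]) (T := nonZeroDivisors ℝ[X]) (S := KK) (Q := KK) (g := compRingHom (X + 1 : ℝ[X]))
    (nonZeroDivisors_le_comap_nonZeroDivisors_of_injective _ shift_inj) P

theorem tend1 : Tendsto (fun t : ℝ => t + 1) atTop atTop := tendsto_atTop_add_const_right _ _ tendsto_id

/-- the shift on germs -/
noncomputable def Sh : GG →+* GG where
  toFun g := g.compTendsto (fun t : ℝ => t + 1) tend1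
  map_one' := rfl
  map_zero' := rfl
  map_mul' f g := by
    induction f, g using Germ.inductionOn₂ with
    | _ f g => rfl
  map_add' f g := by
    induction f, g using Germ.inductionOn₂ with
    | _ f g => rfl

theorem Sh_coe (f : ℝ → ℝ) : Sh (f : GG) = ((fun t => f (t + 1) : ℝ → ℝ) : GG) := rfl

theorem Sh_iota (x : KK) : Sh (algebraMap KK GG x) = algebraMap KK GG (sig x) := by
  have h : Sh.comp iota = iota.comp sig := by
    refine IsLocalization.ringHom_ext (nonZeroDivisors ℝ[X]) ?_
    ext P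
    · simp only [RingHom.comp_apply]
      rw [iota_poly, sig_poly, iota_poly]
      show Sh (((fun t : ℝ => (C P).eval t) : ℝ → ℝ) : GG) = (((fun t : ℝ => ((C P).comp (X + 1)).eval t) : ℝ → ℝ) : GG)
      rw [Sh_coe]
      congr 1
      funext t
      simp
    · simp only [RingHom.comp_apply]
      rw [iota_poly, sig_poly, iota_poly]
      show Sh (((fun t : ℝ => (X : ℝ[X]).eval t) : ℝ → ℝ) : GG) =
        (((fun t : ℝ => ((X : ℝ[X]).comp (X + 1)).eval t) : ℝ → ℝ) : GG)
      rw [Sh_coe]
      congr 1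
      funext t
      simp
  exact RingHom.congr_fun h x

/-- periodic rational functions are constant -/
theorem sig_fix {x : KK} (hx : sig x = x) : ∃ r : ℝ, x = algebraMap ℝ[X] KK (C r) := by
  obtain ⟨P, Q, hQ, rfl⟩ := IsFractionRing.div_surjective (A := ℝ[X]) x
  have hQ0 : Q ≠ 0 := nonZeroDivisors.ne_zero hQ
  have h1 := Sh_iota (algebraMap ℝ[X] KK P / algebraMap ℝ[X] KK Q)
  rw [hx] at h1
  have h2 : (algebraMap KK GG (algebraMap ℝ[X] KK P / algebraMap ℝ[X] KK Q)) =
      (((fun t : ℝ => P.eval t / Q.eval t) : ℝ → ℝ) : GG) := iota_div P Q hQ0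
  rw [h2, Sh_coe] at h1
  have h3 : ∀ᶠ t : ℝ in atTop, P.eval (t + 1) / Q.eval (t + 1) = P.eval t / Q.eval t := Germ.coe_eq.1 h1
  obtain ⟨t0, ht0⟩ := (h3.and (poly_ne hQ0)).exists_forall_of_atTop
  set r := P.eval t0 / Q.eval t0 with hr
  have h4 : ∀ n : ℕ, P.eval (t0 + n) / Q.eval (t0 + n) = r := by
    intro n
    induction n with
    | zero => simp [hr]
    | succ n ih =>
      rw [← ih, ← (ht0 (t0 + n) (by simp)).1]
      push_cast
      ring_nf
  have h5 : P - C r * Q = 0 := by
    refine eq_zero_of_infinite_isRoot _ ?_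
    refine Set.Infinite.mono (s := Set.range fun n : ℕ => t0 + (n : ℝ)) ?_ ?_
    · rintro _ ⟨n, rfl⟩
      have h6 := h4 n
      have h7 := (ht0 (t0 + n) (by simp)).2
      rw [div_eq_iff h7] at h6
      show (P - C r * Q).eval (t0 + n) = 0
      simp [h6]
    · exact Set.infinite_range_of_injective fun m n h => by simpa using h
  refine ⟨r, ?_⟩
  have h8 : P = C r * Q := sub_eq_zero.1 h5
  have hQ' : algebraMap ℝ[X] KK Q ≠ 0 := by
    rw [Ne, IsFractionRing.to_map_eq_zero_iff]
    exact hQ0
  rw [h8, map_mul, mul_div_cancel_right₀ _ hQ']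

theorem concrete {κ : Type} [Fintype κ] [DecidableEq κ] {d : ℕ} (u : κ → ℝ → ℝ) (N D : κ → ℝ[X])
    (hD : ∀ i, D i ≠ 0) (hu : ∀ i, ∀ᶠ t in atTop, u i (t + 1) = u i t + (N i).eval t / (D i).eval t)
    (hind : ∀ (c : κ → ℝ) (A B : ℝ[X]), B ≠ 0 → (∀ᶠ t in atTop, ∑ i, c i * ((N i).eval t / (D i).eval t) =
      A.eval (t + 1) / B.eval (t + 1) - A.eval t / B.eval t) → c = 0)
    (a b : ℝ) (hab : a < b) (han : ∀ k, AnalyticOnNhd ℝ (u k) (Set.Ici a)) :
    TH818.AP.RIndep (fun (e : κ → Fin (d + 1)) (t : ℝ) => ∏ k, u k t ^ (e k : ℕ)) a b := by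
  classical
  have key : AlgebraicIndependent KK (fun i => ((u i : ℝ → ℝ) : GG)) := by
    refine algInd sig Sh Sh_iota _ (fun i => algebraMap ℝ[X] KK (N i) / algebraMap ℝ[X] KK (D i)) ?_ ?_
    · intro i
      have h1 : algebraMap KK GG (algebraMap ℝ[X] KK (N i) / algebraMap ℝ[X] KK (D i)) =
        (((fun t : ℝ => (N i).eval t / (D i).eval t) : ℝ → ℝ) : GG) := iota_div _ _ (hD i)
      rw [h1, Sh_coe, ← Germ.coe_add]
      exact Germ.coe_eq.2 (hu i)
    · intro c g hc hg
      choose r hr using fun i => sig_fix (hc i)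
      obtain ⟨A, B, hB, rfl⟩ := IsFractionRing.div_surjective (A := ℝ[X]) g
      have hB0 : B ≠ 0 := nonZeroDivisors.ne_zero hB
      have h1 := congrArg (algebraMap KK GG) hg
      rw [map_sub, ← Sh_iota, map_sum] at h1
      have h2 : (algebraMap KK GG (algebraMap ℝ[X] KK A / algebraMap ℝ[X] KK B)) =
        (((fun t : ℝ => A.eval t / B.eval t) : ℝ → ℝ) : GG) := iota_div A B hB0
      have h3 : ∀ i, algebraMap KK GG (c i * (algebraMap ℝ[X] KK (N i) / algebraMap ℝ[X] KK (D i))) =
          (((fun t : ℝ => r i * ((N i).eval t / (D i).eval t)) : ℝ → ℝ) : GG) := by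
        intro i
        have h4 : algebraMap KK GG (algebraMap ℝ[X] KK (N i) / algebraMap ℝ[X] KK (D i)) =
          (((fun t : ℝ => (N i).eval t / (D i).eval t) : ℝ → ℝ) : GG) := iota_div _ _ (hD i)
        have h5 : algebraMap KK GG (algebraMap ℝ[X] KK (C (r i))) = (((fun _ : ℝ => r i) : ℝ → ℝ) : GG) := by
          have : algebraMap KK GG (algebraMap ℝ[X] KK (C (r i))) = phi (C (r i)) := iota_poly _
          rw [this]
          show (((fun t : ℝ => (C (r i)).eval t) : ℝ → ℝ) : GG) = _
          congr 1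
          funext t
          simp
        rw [map_mul, h4, hr i, h5, ← Germ.coe_mul]
        rfl
      rw [h2, Sh_coe] at h1
      simp only [h3] at h1
      have h6 : ∑ i, (((fun t : ℝ => r i * ((N i).eval t / (D i).eval t)) : ℝ → ℝ) : GG) =
          (((fun t : ℝ => ∑ i, r i * ((N i).eval t / (D i).eval t)) : ℝ → ℝ) : GG) := by
        have : ∀ s : Finset κ, ∑ i ∈ s, (((fun t : ℝ => r i * ((N i).eval t / (D i).eval t)) : ℝ → ℝ) : GG) =
          (((fun t : ℝ => ∑ i ∈ s, r i * ((N i).eval t / (D i).eval t)) : ℝ → ℝ) : GG) := by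
          intro s
          induction s using Finset.induction_on with
          | empty => simp; rfl
          | insert j s hj ih =>
            rw [Finset.sum_insert hj, ih, ← Germ.coe_add]
            congr 1
            funext t
            rw [Finset.sum_insert hj]
            rfl
        exact this _
      rw [h6, ← Germ.coe_sub] at h1
      have h7 := hind r A B hB0 (Germ.coe_eq.1 h1)
      funext i
      rw [hr i, h7]
      simp
  intro p hp
  have hext := Q23.AQ.extend u a b han hab p hp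
  let P : MvPolynomial κ KK := ∑ e : κ → Fin (d + 1), MvPolynomial.monomial
    (Finsupp.equivFunOnFinite.symm fun k => (e k : ℕ)) (algebraMap ℝ[X] KK (p e))
  have hP : MvPolynomial.aeval (fun i => ((u i : ℝ → ℝ) : GG)) P = 0 := by
    simp only [P, map_sum]
    have h1 : ∀ e : κ → Fin (d + 1), MvPolynomial.aeval (fun i => ((u i : ℝ → ℝ) : GG))
        (MvPolynomial.monomial (Finsupp.equivFunOnFinite.symm fun k => (e k : ℕ)) (algebraMap ℝ[X] KK (p e))) =
        (((fun t : ℝ => (p e).eval t * ∏ k, u k t ^ (e k : ℕ)) : ℝ → ℝ) : GG) := by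
      intro e
      rw [MvPolynomial.aeval_monomial]
      have h2 : algebraMap KK GG (algebraMap ℝ[X] KK (p e)) = (((fun t : ℝ => (p e).eval t) : ℝ → ℝ) : GG) :=
        iota_poly _
      rw [h2, Finsupp.prod_fintype _ _ (fun i => by simp)]
      simp only [Finsupp.equivFunOnFinite_symm_apply_apply]
      have h3 : ∀ s : Finset κ, ∏ k ∈ s, ((u k : ℝ → ℝ) : GG) ^ (e k : ℕ) =
          (((fun t : ℝ => ∏ k ∈ s, u k t ^ (e k : ℕ)) : ℝ → ℝ) : GG) := by
        intro s
        induction s using Finset.induction_on with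
        | empty => simp; rfl
        | insert j s hj ih =>
          rw [Finset.prod_insert hj, ih, ← Germ.coe_pow, ← Germ.coe_mul]
          congr 1
          funext t
          rw [Finset.prod_insert hj]
          rfl
      rw [h3, ← Germ.coe_mul]
      rfl
    simp only [h1]
    have h4 : ∀ s : Finset (κ → Fin (d + 1)),
        ∑ e ∈ s, (((fun t : ℝ => (p e).eval t * ∏ k, u k t ^ (e k : ℕ)) : ℝ → ℝ) : GG) =
        (((fun t : ℝ => ∑ e ∈ s, (p e).eval t * ∏ k, u k t ^ (e k : ℕ)) : ℝ → ℝ) : GG) := by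
      intro s
      induction s using Finset.induction_on with
      | empty => simp; rfl
      | insert j s hj ih =>
        rw [Finset.sum_insert hj, ih, ← Germ.coe_add]
        congr 1
        funext t
        rw [Finset.sum_insert hj]
        rfl
    rw [h4, ← Germ.coe_zero]
    refine Germ.coe_eq.2 ?_
    filter_upwards [eventually_ge_atTop a] with t ht
    exact hext t ht
  have hP0 : P = 0 := (algebraicIndependent_iff.1 key) P hP
  funext e
  have h1 := congrArg (MvPolynomial.coeff (Finsupp.equivFunOnFinite.symm fun k => ((e k : Fin (d + 1)) : ℕ))) hP0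
  simp only [P, MvPolynomial.coeff_sum, MvPolynomial.coeff_monomial, MvPolynomial.coeff_zero] at h1
  rw [Finset.sum_eq_single e] at h1
  · rw [if_pos rfl] at h1
    exact (IsFractionRing.to_map_eq_zero_iff (K := KK)).1 h1
  · intro e' _ he'
    rw [if_neg]
    intro h
    apply he'
    funext k
    have := DFunLike.congr_fun h k
    exact Fin.ext (by simpa using this)
  · intro h
    exact absurd (Finset.mem_univ _) h

end Pool.Agent.Q23.DA
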