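import Pool.Agent.Q23.AQ.Sc

/-!
# Exponentials of real exponential-logarithmic polynomials
-/

set_option autoImplicit false

open Set Filter Topology

namespace Pool.Agent.Q23.AQ

open Pool.Agent.TH818.AP

/-- `e^(α t) t^k (log t)^j` -/
noncomputable def sc (x : ℝ × ℕ × ℕ) (t : ℝ) : ℝ := Real.exp (x.1 * t) * (t ^ x.2.1 * Real.log t ^ x.2.2)

theorem sc_pos (x : ℝ × ℕ × ℕ) : ∀ᶠ t in atTop, 0 < sc x t := by
  filter_upwards [eventually_gt_atTop 1] with t ht
  exact mul_pos (Real.exp_pos _) (mul_pos (pow_pos (by linarith) _) (pow_pos (Real.log_pos ht) _))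

theorem exp_neg_pow {c : ℝ} (hc : 0 < c) (n : ℕ) : Tendsto (fun t : ℝ => t ^ n * Real.exp (-(c * t))) atTop (𝓝 0) := by
  have h1 := (Real.tendsto_pow_mul_exp_neg_atTop_nhds_zero n).comp (tendsto_id.const_mul_atTop hc)
  have h2 := h1.const_mul ((c ^ n)⁻¹)
  rw [mul_zero] at h2
  refine h2.congr fun t => ?_
  simp only [Function.comp, id]
  rw [mul_pow]
  have : c ^ n ≠ 0 := pow_ne_zero _ hc.ne'
  field_simp

theorem log_ge_one : ∀ᶠ t : ℝ in atTop, 1 ≤ Real.log t := Real.tendsto_log_atTop.eventually_ge_atTop 1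

theorem sc_ratio (x y : ℝ × ℕ × ℕ) (h : y.1 < x.1 ∨ (y.1 = x.1 ∧ (y.2.1 < x.2.1 ∨ (y.2.1 = x.2.1 ∧ y.2.2 < x.2.2)))) :
    Tendsto (fun t => sc y t / sc x t) atTop (𝓝 0) := by
  rcases h with h | ⟨h1, h | ⟨h2, h3⟩⟩
  · refine tendsto_of_tendsto_of_tendsto_of_le_of_le' tendsto_const_nhds
      (exp_neg_pow (sub_pos.2 h) (y.2.1 + y.2.2)) ?_ ?_
    · filter_upwards [sc_pos x, sc_pos y] with t h1 h2
      positivity
    · filter_upwards [eventually_ge_atTop 1, log_ge_one] with t ht hl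
      have h1 : 1 ≤ t ^ x.2.1 * Real.log t ^ x.2.2 := one_le_mul_of_one_le_of_one_le (one_le_pow₀ ht) (one_le_pow₀ hl)
      have h2 : Real.log t ^ y.2.2 ≤ t ^ y.2.2 :=
        pow_le_pow_left₀ (by linarith) ((Real.log_le_sub_one_of_pos (by linarith)).trans (by linarith)) _
      have h3 : sc y t / sc x t = Real.exp (-((x.1 - y.1) * t)) * ((t ^ y.2.1 * Real.log t ^ y.2.2) /
          (t ^ x.2.1 * Real.log t ^ x.2.2)) := by
        unfold sc
        rw [mul_div_mul_comm, ← Real.exp_sub]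
        congr 2
        ring
      rw [h3, mul_comm (t ^ (y.2.1 + y.2.2)), pow_add]
      refine mul_le_mul_of_nonneg_left ?_ (Real.exp_pos _).le
      rw [div_le_iff₀ (by linarith)]
      have h4 : t ^ y.2.1 * Real.log t ^ y.2.2 ≤ t ^ y.2.1 * t ^ y.2.2 :=
        mul_le_mul_of_nonneg_left h2 (by positivity)
      have h5 : 0 ≤ t ^ y.2.1 * t ^ y.2.2 := by positivity
      nlinarith
  · have h0 : Tendsto (fun t : ℝ => Real.log t ^ y.2.2 / t) atTop (𝓝 0) :=
      (Real.isLittleO_pow_log_id_atTop (n := y.2.2)).tendsto_div_nhds_zero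
    refine tendsto_of_tendsto_of_tendsto_of_le_of_le' tendsto_const_nhds h0 ?_ ?_
    · filter_upwards [sc_pos x, sc_pos y] with t h1 h2
      positivity
    · filter_upwards [eventually_ge_atTop 1, log_ge_one] with t ht hl
      have h2 : 1 ≤ Real.log t ^ x.2.2 := one_le_pow₀ hl
      have h4 : sc y t / sc x t = Real.log t ^ y.2.2 / (t ^ (x.2.1 - y.2.1) * Real.log t ^ x.2.2) := by
        unfold sc
        have h5 : x.2.1 = (x.2.1 - y.2.1) + y.2.1 := by omega
        rw [h1]
        conv_lhs => rw [h5, pow_add]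
        have h6 : t ^ y.2.1 ≠ 0 := pow_ne_zero _ (by linarith)
        have h7 : Real.exp (x.1 * t) ≠ 0 := Real.exp_ne_zero _
        field_simp
      rw [h4]
      refine div_le_div_of_nonneg_left (by positivity) (by linarith) ?_
      have h5 : t ≤ t ^ (x.2.1 - y.2.1) := by
        conv_lhs => rw [← pow_one t]
        exact pow_le_pow_right₀ ht (by omega)
      have h6 : 0 ≤ t ^ (x.2.1 - y.2.1) := by positivity
      nlinarith
  · have h0 : Tendsto (fun t : ℝ => (Real.log t)⁻¹) atTop (𝓝 0) := inv_log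
    refine tendsto_of_tendsto_of_tendsto_of_le_of_le' tendsto_const_nhds h0 ?_ ?_
    · filter_upwards [sc_pos x, sc_pos y] with t h1 h2
      positivity
    · filter_upwards [eventually_ge_atTop 1, log_ge_one] with t ht hl
      have h4 : sc y t / sc x t = (Real.log t ^ (x.2.2 - y.2.2))⁻¹ := by
        unfold sc
        have h5 : x.2.2 = (x.2.2 - y.2.2) + y.2.2 := by omega
        rw [h1, h2]
        conv_lhs => rw [h5, pow_add]
        have h6 : t ^ x.2.1 ≠ 0 := pow_ne_zero _ (by linarith)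
        have h7 : Real.exp (x.1 * t) ≠ 0 := Real.exp_ne_zero _
        have h8 : Real.log t ^ y.2.2 ≠ 0 := pow_ne_zero _ (by linarith)
        field_simp
      rw [h4]
      refine inv_anti₀ (by linarith) ?_
      conv_lhs => rw [← pow_one (Real.log t)]
      exact pow_le_pow_right₀ hl (by omega)

theorem sc_zero (t : ℝ) : sc (0, 0, 0) t = 1 := by simp [sc]

/-- the ordered type of the exponents -/
abbrev WW : Type := (ℝ ×ₗ (ℕ ×ₗ ℕ))ᵒᵈ

/-- the exponents as elements of the ordered type -/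
def th (x : ℝ × ℕ × ℕ) : WW := OrderDual.toDual (toLex (x.1, toLex x.2))

/-- the inverse map -/
def thi (w : WW) : ℝ × ℕ × ℕ := ((ofLex (OrderDual.ofDual w)).1, ofLex (ofLex (OrderDual.ofDual w)).2)

theorem thi_th (x : ℝ × ℕ × ℕ) : thi (th x) = x := rfl

theorem th_thi (w : WW) : th (thi w) = w := rfl

theorem lt_iff {w w' : WW} (h : w < w') : (thi w').1 < (thi w).1 ∨ ((thi w').1 = (thi w).1 ∧
    ((thi w').2.1 < (thi w).2.1 ∨ ((thi w').2.1 = (thi w).2.1 ∧ (thi w').2.2 < (thi w).2.2))) := by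
  have h1 : OrderDual.ofDual w' < OrderDual.ofDual w := h
  rw [Prod.Lex.lt_iff] at h1
  rcases h1 with h1 | ⟨h1, h2⟩
  · exact Or.inl h1
  · rw [Prod.Lex.lt_iff] at h2
    exact Or.inr ⟨h1, h2⟩

theorem scalesW (T : Finset WW) (hT : ∀ w ∈ T, 0 ≤ (thi w).1 ∧ thi w ≠ (0, 0, 0)) :
    Scales (fun (w : {w // w ∈ T}) t => sc (thi w.1) t) := by
  refine ⟨fun w => ?_, fun w w' h => sc_ratio _ _ (lt_iff h)⟩
  obtain ⟨h0, h1⟩ := hT w.1 w.2
  have h2 : Tendsto (fun t => sc (0, 0, 0) t / sc (thi w.1) t) atTop (𝓝 0) := by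
    refine sc_ratio _ _ ?_
    rcases h0.lt_or_eq with h | h
    · exact Or.inl h
    · refine Or.inr ⟨h, ?_⟩
      rcases Nat.eq_zero_or_pos (thi w.1).2.1 with h3 | h3
      · refine Or.inr ⟨h3.symm, ?_⟩
        rcases Nat.eq_zero_or_pos (thi w.1).2.2 with h4 | h4
        · exact absurd (Prod.ext h.symm (Prod.ext h3 h4)) h1
        · exact h4
      · exact Or.inl h3
  have h3 : Tendsto (fun t => (sc (thi w.1) t)⁻¹) atTop (𝓝[>] 0) := by
    rw [tendsto_nhdsWithin_iff]
    refine ⟨h2.congr fun t => by rw [sc_zero, one_div], ?_⟩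
    filter_upwards [sc_pos (thi w.1)] with t ht
    exact inv_pos.2 ht
  exact (h3.inv_tendsto_nhdsGT_zero).congr fun t => inv_inv _

theorem el_ind {κ σ : Type} [Fintype κ] [DecidableEq κ] [Fintype σ] {d : ℕ} (τ : σ → ℝ × ℕ × ℕ)
    (hτ : Function.Injective τ) (hτ0 : ∀ l, 0 ≤ (τ l).1) (c : κ → σ → ℝ)
    (hc : ∀ (μ : κ → ℤ) (r : ℤ), (∀ l, τ l ≠ (0, 0, 0) → ∑ i, (μ i : ℝ) * c i l =
      if τ l = (0, 0, 1) then (r : ℝ) else 0) → μ = 0) (a b : ℝ) (ha : 0 < a) (hab : a < b) :
    RIndep (fun (e : κ → Fin (d + 1)) (t : ℝ) =>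
      ∏ i, (Real.exp (∑ l, c i l * sc (τ l) t)) ^ (e i : ℕ)) a b := by
  classical
  let T : Finset WW := insert (th (0, 0, 1)) ((Finset.univ.image fun l => th (τ l)).erase (th (0, 0, 0)))
  have hT : ∀ w ∈ T, 0 ≤ (thi w).1 ∧ thi w ≠ (0, 0, 0) := by
    intro w hw
    rcases Finset.mem_insert.1 hw with h | h
    · rw [h, thi_th]
      simp
    · obtain ⟨h1, h2⟩ := Finset.mem_erase.1 h
      obtain ⟨l, -, rfl⟩ := Finset.mem_image.1 h2
      refine ⟨hτ0 l, fun h3 => h1 ?_⟩
      rw [← h3, thi_th]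
  have hmem : ∀ l, th (τ l) ∈ T ↔ τ l ≠ (0, 0, 0) := by
    intro l
    constructor
    · intro h1
      exact (hT _ h1).2
    · intro h1
      exact Finset.mem_insert_of_mem (Finset.mem_erase.2 ⟨fun h2 => h1 (by rw [← thi_th (τ l), h2, thi_th]),
        Finset.mem_image_of_mem _ (Finset.mem_univ l)⟩)
  let A : κ → {w // w ∈ T} → ℝ := fun i w => ∑ l, if th (τ l) = w.1 then c i l else 0
  refine rind (fun i t => Real.exp (∑ l, c i l * sc (τ l) t)) (fun (w : {w // w ∈ T}) t => sc (thi w.1) t)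
    (scalesW T hT) ⟨th (0, 0, 1), Finset.mem_insert_self _ _⟩ (Eventually.of_forall fun t => by
      simp [thi_th, sc]) A (fun i _ => ∑ l, if τ l = (0, 0, 0) then c i l else 0)
    (fun i => Eventually.of_forall fun t => Real.exp_pos _) ?_ ?_ ?_ a b hab ?_
  · intro i
    refine Eventually.of_forall fun t => ?_
    rw [Real.log_exp]
    have h1 : ∑ w : {w // w ∈ T}, A i w * sc (thi w.1) t =
        ∑ l, if τ l = (0, 0, 0) then 0 else c i l * sc (τ l) t := by
      simp only [A, Finset.sum_mul]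
      rw [Finset.sum_comm]
      refine Finset.sum_congr rfl fun l _ => ?_
      by_cases h2 : τ l = (0, 0, 0)
      · rw [if_pos h2]
        refine Finset.sum_eq_zero fun w _ => ?_
        rw [if_neg, zero_mul]
        intro h3
        exact ((hmem l).1 (h3 ▸ w.2)) h2
      · rw [if_neg h2, Finset.sum_eq_single ⟨th (τ l), (hmem l).2 h2⟩]
        · rw [if_pos rfl, thi_th]
        · intro w _ hw
          rw [if_neg, zero_mul]
          intro h3
          exact hw (Subtype.ext h3.symm)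
        · intro h3
          exact absurd (Finset.mem_univ _) h3
    rw [h1, ← Finset.sum_add_distrib]
    refine Finset.sum_congr rfl fun l _ => ?_
    by_cases h2 : τ l = (0, 0, 0)
    · rw [if_pos h2, if_pos h2, h2, sc_zero]
      ring
    · rw [if_neg h2, if_neg h2, add_zero]
  · intro i w
    exact Tendsto.div_atTop tendsto_const_nhds ((scalesW T hT).top w)
  · intro μ r h
    refine hc μ r fun l hl => ?_
    have h1 := h ⟨th (τ l), (hmem l).2 hl⟩
    have h2 : ∀ i, A i ⟨th (τ l), (hmem l).2 hl⟩ = c i l := by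
      intro i
      simp only [A]
      rw [Finset.sum_eq_single l]
      · rw [if_pos rfl]
      · intro l' _ hl'
        rw [if_neg]
        intro h3
        exact hl' (hτ (by rw [← thi_th (τ l'), h3, thi_th]))
      · intro h3
        exact absurd (Finset.mem_univ _) h3
    simp only [h2] at h1
    rw [h1]
    by_cases h3 : τ l = (0, 0, 1)
    · rw [if_pos h3, if_pos]
      simp [h3]
    · rw [if_neg h3, if_neg]
      intro h4
      apply h3
      have h5 := congrArg Subtype.val h4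
      simp only at h5
      rw [← thi_th (τ l), h5, thi_th]
  · intro i t ht
    have ht0 : 0 < t := ha.trans_le ht
    refine AnalyticAt.rexp ?_
    refine Finset.analyticAt_fun_sum _ fun l _ => analyticAt_const.mul ?_
    unfold sc
    exact ((analyticAt_const.mul analyticAt_id).rexp).mul ((analyticAt_id.pow _).mul ((analyticAt_log ht0).pow _))

end Pool.Agent.Q23.AQ
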