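import Pool.Agent.TH659.AQ.Mixed
import Pool.Agent.TH659.AQ.Grow

/-!
# Functions of pairwise different growth
-/

set_option autoImplicit false

open Set Polynomial Filter Topology

namespace Pool.Agent.Q23.AQ

open Pool.Agent.TH818.AP

/-- `f` tends to `+∞` or to `-∞` -/
def Sep (f : ℝ → ℝ) : Prop := Tendsto f atTop atTop ∨ Tendsto f atTop atBot

theorem exists_top {ι : Type} (h : ι → ℝ → ℝ) (hsep : ∀ i j, i ≠ j → Sep (fun t => h i t - h j t))
    (S : Finset ι) (hS : S.Nonempty) :
    ∃ i ∈ S, ∀ j ∈ S, j ≠ i → Tendsto (fun t => h j t - h i t) atTop atBot := by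
  classical
  induction hS using Finset.Nonempty.cons_induction with
  | singleton a => exact ⟨a, Finset.mem_singleton_self a, fun j hj hji => absurd (Finset.mem_singleton.1 hj) hji⟩
  | cons a s ha hs ih =>
    obtain ⟨i, hi, him⟩ := ih
    have hai : a ≠ i := fun h => ha (h ▸ hi)
    rcases hsep a i hai with h1 | h1
    · refine ⟨a, Finset.mem_cons_self a s, fun j hj hja => ?_⟩
      have h2 : Tendsto (fun t => h i t - h a t) atTop atBot := by
        have := tendsto_neg_atTop_atBot.comp h1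
        refine this.congr fun t => ?_
        simp
      rcases Finset.mem_cons.1 hj with rfl | hj
      · exact absurd rfl hja
      · rcases eq_or_ne j i with rfl | hji
        · exact h2
        · have := (him j hj hji).atBot_add_atBot h2
          refine this.congr fun t => by ring
    · refine ⟨i, Finset.mem_cons_of_mem hi, fun j hj hji => ?_⟩
      rcases Finset.mem_cons.1 hj with rfl | hj
      · exact h1
      · exact him j hj hji

/-- functions of pairwise different growth are linearly independent -/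
theorem ind_of_log {ι : Type} [Fintype ι] (g : ι → ℝ → ℝ) (hpos : ∀ i, ∀ᶠ t in atTop, 0 < g i t)
    (hsep : ∀ i j, i ≠ j → Sep (fun t => Real.log (g i t) - Real.log (g j t)))
    (c : ι → ℝ) (h : ∀ᶠ t in atTop, ∑ i, c i * g i t = 0) : c = 0 := by
  classical
  by_contra hc
  obtain ⟨i1, hi1⟩ : ∃ i, c i ≠ 0 := by
    by_contra hcon
    push Not at hcon
    exact hc (funext hcon)
  obtain ⟨i0, hi0, hmax⟩ := exists_top (fun i t => Real.log (g i t)) hsep (Finset.univ.filter fun i => c i ≠ 0)
    ⟨i1, by simp [hi1]⟩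
  rw [Finset.mem_filter] at hi0
  have hterm : ∀ i ∈ Finset.univ.erase i0, Tendsto (fun t => c i * (g i t / g i0 t)) atTop (𝓝 0) := by
    intro i hi
    rcases eq_or_ne (c i) 0 with h0 | h0
    · simp [h0]
    have h1 := hmax i (by simp [h0]) (Finset.ne_of_mem_erase hi)
    have h2 := (Real.tendsto_exp_atBot.comp h1).const_mul (c i)
    rw [mul_zero] at h2
    refine h2.congr' ?_
    filter_upwards [hpos i, hpos i0] with t ht1 ht2
    simp only [Function.comp]
    rw [← Real.log_div ht1.ne' ht2.ne', Real.exp_log (div_pos ht1 ht2)]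
  have hsum := tendsto_finsetSum _ hterm
  rw [Finset.sum_const_zero] at hsum
  have hlim : Tendsto (fun _ : ℝ => c i0) atTop (𝓝 0) := by
    have h2 := hsum.neg
    rw [neg_zero] at h2
    refine h2.congr' ?_
    filter_upwards [h, hpos i0] with t ht1 ht2
    have h3 : ∑ i, c i * (g i t / g i0 t) = 0 := by
      have : ∑ i, c i * (g i t / g i0 t) = (∑ i, c i * g i t) / g i0 t := by
        rw [Finset.sum_div]
        exact Finset.sum_congr rfl fun e _ => by ring
      rw [this, ht1, zero_div]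
    rw [← Finset.add_sum_erase _ _ (Finset.mem_univ i0), div_self ht2.ne', mul_one] at h3
    linarith
  exact hi0.2 (tendsto_nhds_unique tendsto_const_nhds hlim)

/-- a scale of functions tending to infinity, decreasing in growth -/
structure Scales {Λ : Type} [LinearOrder Λ] (L : Λ → ℝ → ℝ) : Prop where
  top : ∀ k, Tendsto (L k) atTop atTop
  lt : ∀ k l, k < l → Tendsto (fun t => L l t / L k t) atTop (𝓝 0)

theorem sep_of_scales {Λ : Type} [Fintype Λ] [LinearOrder Λ] {L : Λ → ℝ → ℝ} (hL : Scales L) (c : Λ → ℝ)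
    (hc : c ≠ 0) (R : ℝ → ℝ) (hR : ∀ k, Tendsto (fun t => R t / L k t) atTop (𝓝 0)) :
    Sep (fun t => ∑ k, c k * L k t + R t) := by
  classical
  obtain ⟨k1, hk1⟩ : ∃ k, c k ≠ 0 := by
    by_contra hcon
    push Not at hcon
    exact hc (funext hcon)
  obtain ⟨k0, hk0, hmin⟩ := (Finset.univ.filter fun k => c k ≠ 0).exists_min_image id ⟨k1, by simp [hk1]⟩
  rw [Finset.mem_filter] at hk0
  have hne : ∀ᶠ t in atTop, 0 < L k0 t := (hL.top k0).eventually_gt_atTop 0
  have hterm : ∀ k ∈ Finset.univ.erase k0, Tendsto (fun t => c k * (L k t / L k0 t)) atTop (𝓝 0) := by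
    intro k hk
    rcases eq_or_ne (c k) 0 with h0 | h0
    · simp [h0]
    have hle := hmin k (by simp [h0])
    simp only [id] at hle
    have hlt : k0 < k := lt_of_le_of_ne hle (Finset.ne_of_mem_erase hk).symm
    have := (hL.lt k0 k hlt).const_mul (c k)
    rwa [mul_zero] at this
  have hsum := tendsto_finsetSum _ hterm
  rw [Finset.sum_const_zero] at hsum
  have h1 : Tendsto (fun t => (∑ k, c k * L k t + R t) / L k0 t) atTop (𝓝 (c k0)) := by
    have h2 := (hsum.add (hR k0)).const_add (c k0)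
    simp only [add_zero] at h2
    refine h2.congr' ?_
    filter_upwards [hne] with t ht
    rw [add_div, Finset.sum_div, ← Finset.add_sum_erase _ _ (Finset.mem_univ k0)]
    have h3 : ∀ k, c k * L k t / L k0 t = c k * (L k t / L k0 t) := fun k => by ring
    simp only [h3]
    rw [div_self ht.ne', mul_one]
    ring
  rcases lt_or_gt_of_ne hk0.2 with hneg | hposi
  · right
    have h4 := Tendsto.atTop_mul_neg hneg (hL.top k0) h1
    refine h4.congr' ?_
    filter_upwards [hne] with t ht
    field_simp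
  · left
    have h4 := Tendsto.atTop_mul_pos hposi (hL.top k0) h1
    refine h4.congr' ?_
    filter_upwards [hne] with t ht
    field_simp

/-- continuation of a relation -/
theorem extend {κ : Type} [Fintype κ] [DecidableEq κ] {d : ℕ} (u : κ → ℝ → ℝ) (a b : ℝ) (han : ∀ k, AnalyticOnNhd ℝ (u k) (Ici a))
    (hab : a < b) (p : (κ → Fin (d + 1)) → ℝ[X])
    (h : ∀ t ∈ Icc a b, ∑ e, (p e).eval t * ∏ k, u k t ^ (e k : ℕ) = 0) :
    ∀ t, a ≤ t → ∑ e, (p e).eval t * ∏ k, u k t ^ (e k : ℕ) = 0 := by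
  classical
  have h1 : AnalyticOnNhd ℝ (fun t => ∑ e, (p e).eval t * ∏ k, u k t ^ ((e k : Fin (d + 1)) : ℕ)) (Ici a) := by
    intro t ht
    refine Finset.analyticAt_fun_sum _ fun e _ => ?_
    refine AnalyticAt.mul ?_ ?_
    · exact AnalyticOnNhd.eval_polynomial (p e) t (mem_univ _)
    · exact Finset.analyticAt_fun_prod _ fun j _ => (han j t ht).pow _
  have h2 : (fun t => ∑ e, (p e).eval t * ∏ k, u k t ^ ((e k : Fin (d + 1)) : ℕ)) =ᶠ[𝓝 ((a + b) / 2)] 0 := by
    filter_upwards [Icc_mem_nhds (show a < (a + b) / 2 by linarith) (show (a + b) / 2 < b by linarith)] with t ht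
    exact h t ht
  have h3 := h1.eqOn_zero_of_preconnected_of_eventuallyEq_zero isPreconnected_Ici
    (show (a + b) / 2 ∈ Ici a by rw [mem_Ici]; linarith) h2
  intro t ht
  exact h3 ht

/-- monomials in functions with logarithms in a scale -/
theorem rind {κ Λ : Type} [Fintype κ] [DecidableEq κ] [Fintype Λ] [LinearOrder Λ] {d : ℕ} (u : κ → ℝ → ℝ)
    (L : Λ → ℝ → ℝ) (hL : Scales L) (l0 : Λ) (hl0 : ∀ᶠ t in atTop, L l0 t = Real.log t)
    (A : κ → Λ → ℝ) (R : κ → ℝ → ℝ) (hpos : ∀ k, ∀ᶠ t in atTop, 0 < u k t)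
    (hu : ∀ k, ∀ᶠ t in atTop, Real.log (u k t) = ∑ l, A k l * L l t + R k t)
    (hR : ∀ k l, Tendsto (fun t => R k t / L l t) atTop (𝓝 0))
    (hA : ∀ (m : κ → ℤ) (n : ℤ), (∀ l, ∑ k, (m k : ℝ) * A k l = if l = l0 then (n : ℝ) else 0) → m = 0)
    (a b : ℝ) (hab : a < b) (han : ∀ k, AnalyticOnNhd ℝ (u k) (Ici a)) :
    RIndep (fun (e : κ → Fin (d + 1)) (t : ℝ) => ∏ k, u k t ^ (e k : ℕ)) a b := by
  classical
  intro p hp
  have hext := extend u a b han hab p hp
  obtain ⟨N, hN⟩ : ∃ N : ℕ, ∀ e, (p e).natDegree < N :=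
    ⟨(Finset.univ.sup fun e => (p e).natDegree) + 1, fun e =>
      Nat.lt_succ_of_le (Finset.le_sup (f := fun e => (p e).natDegree) (Finset.mem_univ e))⟩
  let g : (κ → Fin (d + 1)) × Fin N → ℝ → ℝ := fun i t => t ^ (i.2 : ℕ) * ∏ k, u k t ^ (i.1 k : ℕ)
  let c : (κ → Fin (d + 1)) × Fin N → ℝ := fun i => (p i.1).coeff i.2
  have hposA : ∀ᶠ t in atTop, ∀ k, 0 < u k t := eventually_all.2 hpos
  have huA : ∀ᶠ t in atTop, ∀ k, Real.log (u k t) = ∑ l, A k l * L l t + R k t := eventually_all.2 hu
  have hgpos : ∀ i, ∀ᶠ t in atTop, 0 < g i t := by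
    intro i
    filter_upwards [hposA, eventually_gt_atTop 0] with t ht ht0
    exact mul_pos (pow_pos ht0 _) (Finset.prod_pos fun k _ => pow_pos (ht k) _)
  have hlog : ∀ i, ∀ᶠ t in atTop, Real.log (g i t) =
      ∑ l, (∑ k, ((i.1 k : ℕ) : ℝ) * A k l + if l = l0 then ((i.2 : ℕ) : ℝ) else 0) * L l t +
        ∑ k, ((i.1 k : ℕ) : ℝ) * R k t := by
    intro i
    filter_upwards [hposA, huA, hl0, eventually_gt_atTop 0] with t ht hut hlt ht0
    simp only [g]
    rw [Real.log_mul (pow_pos ht0 _).ne' (Finset.prod_pos fun k _ => pow_pos (ht k) _).ne',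
      Real.log_prod (fun k _ => (pow_pos (ht k) _).ne')]
    simp only [Real.log_pow, hut, add_mul, Finset.sum_add_distrib, ite_mul, zero_mul,
      Finset.sum_ite_eq', Finset.mem_univ, if_true, hlt]
    simp only [mul_add, Finset.sum_add_distrib, Finset.mul_sum, Finset.sum_mul]
    rw [Finset.sum_comm]
    have h5 : ∀ (x : Λ) (y : κ), ((i.1 y : ℕ) : ℝ) * (A y x * L x t) = ((i.1 y : ℕ) : ℝ) * A y x * L x t :=
      fun x y => by ring
    simp only [h5]
    ring
  have hc0 : c = 0 := by
    refine ind_of_log g hgpos ?_ c ?_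
    · intro i j hij
      have hne : (fun l => (∑ k, ((i.1 k : ℕ) : ℝ) * A k l + if l = l0 then ((i.2 : ℕ) : ℝ) else 0) -
          (∑ k, ((j.1 k : ℕ) : ℝ) * A k l + if l = l0 then ((j.2 : ℕ) : ℝ) else 0)) ≠ 0 := by
        intro h0
        have h1 : ∀ l, ∑ k, ((((i.1 k : ℕ) : ℤ) - ((j.1 k : ℕ) : ℤ) : ℤ) : ℝ) * A k l =
            if l = l0 then ((((j.2 : ℕ) : ℤ) - ((i.2 : ℕ) : ℤ) : ℤ) : ℝ) else 0 := by
          intro l
          have := congrFun h0 l
          simp only [Pi.zero_apply] at this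
          push_cast
          simp only [sub_mul, Finset.sum_sub_distrib]
          split_ifs at this ⊢ with hl <;> linarith
        have h2 := hA _ _ h1
        have h3 : i.1 = j.1 := by
          funext k
          have := congrFun h2 k
          simp only [Pi.zero_apply] at this
          exact Fin.ext (by omega)
        have h4 : i.2 = j.2 := by
          have := congrFun h0 l0
          simp only [Pi.zero_apply, if_true, h3] at this
          have h6 : ((i.2 : ℕ) : ℝ) = ((j.2 : ℕ) : ℝ) := by linarith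
          exact Fin.ext (by exact_mod_cast h6)
        exact hij (Prod.ext h3 h4)
      have hRR : ∀ l, Tendsto (fun t => (∑ k, ((i.1 k : ℕ) : ℝ) * R k t - ∑ k, ((j.1 k : ℕ) : ℝ) * R k t) / L l t)
          atTop (𝓝 0) := by
        intro l
        have h1 : ∀ k ∈ (Finset.univ : Finset κ),
            Tendsto (fun t => (((i.1 k : ℕ) : ℝ) - ((j.1 k : ℕ) : ℝ)) * (R k t / L l t)) atTop (𝓝 0) := by
          intro k _
          have := (hR k l).const_mul (((i.1 k : ℕ) : ℝ) - ((j.1 k : ℕ) : ℝ))
          rwa [mul_zero] at this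
        have h7 := tendsto_finsetSum _ h1
        rw [Finset.sum_const_zero] at h7
        refine h7.congr fun t => ?_
        rw [← Finset.sum_sub_distrib, Finset.sum_div]
        exact Finset.sum_congr rfl fun k _ => by ring
      have h8 := sep_of_scales hL _ hne _ hRR
      have h9 : (fun t => Real.log (g i t) - Real.log (g j t)) =ᶠ[atTop]
          (fun t => ∑ l, ((∑ k, ((i.1 k : ℕ) : ℝ) * A k l + if l = l0 then ((i.2 : ℕ) : ℝ) else 0) -
          (∑ k, ((j.1 k : ℕ) : ℝ) * A k l + if l = l0 then ((j.2 : ℕ) : ℝ) else 0)) * L l t +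
            (∑ k, ((i.1 k : ℕ) : ℝ) * R k t - ∑ k, ((j.1 k : ℕ) : ℝ) * R k t)) := by
        filter_upwards [hlog i, hlog j] with t h1 h2
        rw [h1, h2]
        simp only [sub_mul, Finset.sum_sub_distrib]
        ring
      rcases h8 with h8 | h8
      · exact Or.inl (h8.congr' h9.symm)
      · exact Or.inr (h8.congr' h9.symm)
    · filter_upwards [eventually_ge_atTop a] with t ht
      rw [← hext t ht, Fintype.sum_prod_type]
      refine Finset.sum_congr rfl fun e _ => ?_
      rw [Polynomial.eval_eq_sum_range' (hN e), Finset.sum_mul, ← Fin.sum_univ_eq_sum_range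
        (fun i => (p e).coeff i * t ^ i * ∏ k, u k t ^ ((e k : Fin (d + 1)) : ℕ))]
      refine Finset.sum_congr rfl fun n _ => ?_
      simp only [c, g]
      ring
  funext e
  ext n
  rw [Pi.zero_apply, coeff_zero]
  rcases lt_or_ge n N with hn | hn
  · exact congrFun hc0 (e, ⟨n, hn⟩)
  · exact Polynomial.coeff_eq_zero_of_natDegree_lt ((hN e).trans_le hn)

end Pool.Agent.Q23.AQ
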