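import Pool.Agent.Q23.AQ.Cx
import Pool.Agent.Q23.AQ.Lex
import Pool.Agent.Y771.RP.Rel

/-!
# From the independence of real functions to the values at points of number fields
-/

set_option autoImplicit false

open Set Filter Topology Polynomial

namespace Pool.Agent.Q23.AQ

open Pool.Agent.TH818.AP Pool.Agent.Y771

/-- local independence of complex functions from the independence of real functions on one interval -/
theorem locInd_real {κ : Type} [Fintype κ] [DecidableEq κ] (u : κ → ℝ → ℝ) (f : κ → ℂ → ℂ) (Ω : Set ℂ)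
    (hpc : IsPreconnected Ω) (han : ∀ y, ∀ t ∈ Ω, AnalyticAt ℂ (f y) t) (a b : ℝ)
    (hsub : ∀ t ∈ Icc a b, (t : ℂ) ∈ Ω) (hf : ∀ y, ∀ t ∈ Icc a b, f y (t : ℂ) = (u y t : ℂ))
    (hind : ∀ d : ℕ, RIndep (fun (e : κ → Fin (d + 1)) (t : ℝ) => ∏ k, u k t ^ (e k : ℕ)) a b) :
    ∀ t0 ∈ Ω, Y124.LocInd f t0 := by
  refine RP.locInd_of f Ω hpc han fun P hP => ?_
  refine RP.ind_of_real f u (Icc a b) hf (fun Q hQ => ?_) P fun t ht => hP t (hsub t ht)
  exact RP.mv_of_exp u (Icc a b) (fun d p hp => hind d p hp) Q hQ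

/-- the same for the extensions of real analytic functions near an interval -/
theorem locInd_cx {κ : Type} [Fintype κ] [DecidableEq κ] (u : κ → ℝ → ℝ) (a b : ℝ)
    (han : ∀ y, ∀ t ∈ Icc a b, AnalyticAt ℝ (u y) t)
    (hind : ∀ d : ℕ, RIndep (fun (e : κ → Fin (d + 1)) (t : ℝ) => ∏ k, u k t ^ (e k : ℕ)) a b) :
    ∀ t0 ∈ (fun x : ℝ => (x : ℂ)) '' Icc a b, Y124.LocInd (fun y => cx (u y)) t0 := by
  refine locInd_real u (fun y => cx (u y)) _ ?_ ?_ a b (fun t ht => ⟨t, ht, rfl⟩) (fun y t _ => cx_real _ _) hind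
  · exact isPreconnected_Icc.image _ Complex.continuous_ofReal.continuousOn
  · rintro y _ ⟨t, ht, rfl⟩
    exact cx_an (han y t ht)

/-- values at the points of number fields in a compact set -/
theorem strong {κ : Type} [Fintype κ] [DecidableEq κ] (u : κ → ℝ → ℝ) (f : κ → ℂ → ℂ) (Ω : Set ℂ)
    (hpc : IsPreconnected Ω) (han : ∀ y, ∀ t ∈ Ω, AnalyticAt ℂ (f y) t) (a b : ℝ)
    (hsub : ∀ t ∈ Icc a b, (t : ℂ) ∈ Ω) (hf : ∀ y, ∀ t ∈ Icc a b, f y (t : ℂ) = (u y t : ℂ))
    (hind : ∀ d : ℕ, RIndep (fun (e : κ → Fin (d + 1)) (t : ℝ) => ∏ k, u k t ^ (e k : ℕ)) a b)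
    (K : Set ℂ) (hK : IsCompact K) (hKΩ : K ⊆ Ω) (m n g d : ℕ) (A ε : ℝ) (hε : 0 < ε) :
    ∃ B C T₀ : ℝ, ∀ (F : Type) [Field F] [NumberField F], Module.finrank ℚ F ≤ m → ∀ (ι : F →+* ℂ) (ξ : Fin g → ℂ)
      (T : ℝ), T₀ ≤ T → (RP.Exc n d F ι ξ (fun _ => f) (fun _ => K) A B T).Finite ∧
        ((RP.Exc n d F ι ξ (fun _ => f) (fun _ => K) A B T).ncard : ℝ) ≤
          C * T ^ ε * ((RP.Pts F ι K T).ncard : ℝ) ^ (n - 1) :=
  RP.main' m n g d f K hK (fun y t ht => han y t (hKΩ ht))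
    (fun t ht => locInd_real u f Ω hpc han a b hsub hf hind t (hKΩ ht)) A ε hε

/-- values at the real points of number fields in an interval -/
theorem strongR {κ : Type} [Fintype κ] [DecidableEq κ] (u : κ → ℝ → ℝ) (a b : ℝ)
    (han : ∀ y, ∀ t ∈ Icc a b, AnalyticAt ℝ (u y) t)
    (hind : ∀ d : ℕ, RIndep (fun (e : κ → Fin (d + 1)) (t : ℝ) => ∏ k, u k t ^ (e k : ℕ)) a b)
    (m n g d : ℕ) (A ε : ℝ) (hε : 0 < ε) :
    ∃ B C T₀ : ℝ, ∀ (F : Type) [Field F] [NumberField F], Module.finrank ℚ F ≤ m → ∀ (ι : F →+* ℂ) (ξ : Fin g → ℂ)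
      (T : ℝ), T₀ ≤ T →
        (RP.Exc n d F ι ξ (fun _ y => cx (u y)) (fun _ => (fun x : ℝ => (x : ℂ)) '' Icc a b) A B T).Finite ∧
        ((RP.Exc n d F ι ξ (fun _ y => cx (u y)) (fun _ => (fun x : ℝ => (x : ℂ)) '' Icc a b) A B T).ncard : ℝ) ≤
          C * T ^ ε * ((RP.Pts F ι ((fun x : ℝ => (x : ℂ)) '' Icc a b) T).ncard : ℝ) ^ (n - 1) :=
  RP.main' m n g d (fun y => cx (u y)) _ (isCompact_Icc.image Complex.continuous_ofReal)
    (by
      rintro y _ ⟨t, ht, rfl⟩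
      exact cx_an (han y t ht))
    (locInd_cx u a b han hind) A ε hε

/-- families which differ by nonzero constant factors -/
theorem locInd_smul {κ : Type} (c : κ → ℂ) (hc : ∀ y, c y ≠ 0) (f g : κ → ℂ → ℂ) (t0 : ℂ)
    (hfg : ∀ y z, f y z = c y * g y z) (h : Y124.LocInd g t0) : Y124.LocInd f t0 := by
  intro P hP
  let φ : MvPolynomial (Option κ) ℂ →ₐ[ℂ] MvPolynomial (Option κ) ℂ :=
    MvPolynomial.aeval (fun o : Option κ => o.elim (MvPolynomial.X none) fun y => MvPolynomial.C (c y) * MvPolynomial.X (some y))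
  let φ' : MvPolynomial (Option κ) ℂ →ₐ[ℂ] MvPolynomial (Option κ) ℂ :=
    MvPolynomial.aeval (fun o : Option κ => o.elim (MvPolynomial.X none) fun y => MvPolynomial.C (c y)⁻¹ * MvPolynomial.X (some y))
  have hinv : φ'.comp φ = AlgHom.id ℂ _ := by
    refine MvPolynomial.algHom_ext fun o => ?_
    rcases o with _ | y
    · simp [φ, φ']
    · simp only [φ, φ', AlgHom.comp_apply, MvPolynomial.aeval_X, Option.elim_some, map_mul, AlgHom.id_apply]
      rw [← MvPolynomial.algebraMap_eq, AlgHom.commutes, MvPolynomial.algebraMap_eq, ← mul_assoc, ← map_mul,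
        mul_inv_cancel₀ (hc y), map_one, one_mul]
  have h1 := h (φ P) (by
    filter_upwards [hP] with t ht
    rw [← ht]
    have h2 : (MvPolynomial.eval fun o : Option κ => o.elim t fun y => g y t).comp φ.toRingHom =
        MvPolynomial.eval (fun o : Option κ => o.elim t fun y => f y t) := by
      refine MvPolynomial.ringHom_ext ?_ ?_
      · intro r
        simp [φ]
      · rintro (_ | y)
        · simp [φ]
        · simp [φ, hfg]
    exact RingHom.congr_fun h2 P)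
  have h2 : φ' (φ P) = P := AlgHom.congr_fun hinv P
  rw [h1, map_zero] at h2
  exact h2.symm

/-- subfamilies of independent families -/
theorem locInd_comp {κ κ' : Type} (e : κ → κ') (he : Function.Injective e) (f : κ' → ℂ → ℂ) (t0 : ℂ)
    (h : Y124.LocInd f t0) : Y124.LocInd (fun y => f (e y)) t0 := by
  intro P hP
  have h1 := h (MvPolynomial.rename (Option.map e) P) (by
    filter_upwards [hP] with t ht
    rw [MvPolynomial.eval_rename, ← ht]
    congr 2
    funext o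
    cases o <;> rfl)
  exact (map_eq_zero_iff _ (MvPolynomial.rename_injective _ (Option.map_injective he))).1 h1

end Pool.Agent.Q23.AQ
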