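import Pool.Agent.Q23.AQ.Comb
import Pool.Agent.Q23.AQ.Str
import Pool.Agent.Y124.EllInd

/-!
# `K(z)`, `E(z)` and entire functions on the plane slit along `[1, ∞)`
-/

set_option autoImplicit false

open Set Filter Topology

namespace Pool.Agent.Q23.AQ

open Pool.Agent.TH818.AP Pool.Agent.Y771

/-- local independence spreads over connected open sets -/
theorem locInd_spread {κ : Type} (f : κ → ℂ → ℂ) (Ω : Set ℂ) (ho : IsOpen Ω) (hpc : IsPreconnected Ω)
    (han : ∀ y, ∀ t ∈ Ω, AnalyticAt ℂ (f y) t) (t0 : ℂ) (ht0 : t0 ∈ Ω) (h : Y124.LocInd f t0) :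
    ∀ t1 ∈ Ω, Y124.LocInd f t1 := by
  refine RP.locInd_of f Ω hpc han fun P hP => h P ?_
  filter_upwards [ho.mem_nhds ht0] with t ht
  exact hP t ht

theorem slit_pre : IsPreconnected Complex.slitPlane :=
  (Complex.starConvex_one_slitPlane.isPathConnected Complex.one_mem_slitPlane).isConnected.isPreconnected

/-- the plane slit along `[1, ∞)` -/
def Slit1 : Set ℂ := {z | 1 - z ∈ Complex.slitPlane}

theorem slit1_open : IsOpen Slit1 := Y124.isOpen_dom

theorem slit1_pre : IsPreconnected Slit1 := by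
  have h1 : Slit1 = (fun z : ℂ => 1 - z) '' Complex.slitPlane := by
    ext z
    constructor
    · intro hz
      exact ⟨1 - z, hz, by ring⟩
    · rintro ⟨w, hw, rfl⟩
      show 1 - (1 - w) ∈ Complex.slitPlane
      rw [sub_sub_cancel]
      exact hw
  rw [h1]
  exact slit_pre.image _ (by fun_prop)

/-- the complete elliptic integrals -/
noncomputable def ke (y : Fin 2) : ℂ → ℂ := Y124.fC (Fin.castSucc y)

theorem ke_an (y : Fin 2) {z : ℂ} (hz : z ∈ Slit1) : AnalyticAt ℂ (ke y) z := by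
  fin_cases y
  · exact Y124.ellI_analyticAt _ z hz
  · exact Y124.ellI_analyticAt _ z hz

theorem ellExp {κ : Type} [Fintype κ] [DecidableEq κ] (u : κ → ℝ → ℝ) (f : κ → ℂ → ℂ)
    (hf : ∀ i, Differentiable ℂ (f i)) (hu : ∀ i t, AnalyticAt ℝ (u i) t) (hfu : ∀ i (t : ℝ), f i t = u i t)
    (hind : ∀ (d : ℕ) (a b : ℝ), a < b → RIndep (fun (e : κ → Fin (d + 1)) (t : ℝ) => ∏ k, u k t ^ (e k : ℕ)) a b) :
    ∀ z ∈ Slit1, Y124.LocInd (Sum.elim ke f) z := by
  have hR : ∀ d : ℕ, RIndep (fun (e : ((Fin 1 × Fin 3) ⊕ κ) → Fin (d + 1)) (t : ℝ) =>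
      ∏ p, Sum.elim (fun z : Fin 1 × Fin 3 => KC 0 1 z.2) u p t ^ (e p : ℕ)) (1 / 4) (3 / 4) := by
    intro d
    exact comb_leg u (-1) 2 (1 / 4) (3 / 4) (by norm_num) (by norm_num) (by norm_num) (fun i t _ => hu i t)
      (fun a' b' _ h _ => hind d a' b' h) (fun _ => 0) (fun _ => 1) (fun i j h => absurd (Subsingleton.elim i j) h.ne)
      (fun i j h => absurd (Subsingleton.elim i j) h.ne) (fun _ => by norm_num) (fun _ => by norm_num)
      (fun _ => by norm_num) (fun _ => by norm_num)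
  have h1 : Y124.LocInd (Sum.elim (fun z : Fin 1 × Fin 3 => Y124.fC z.2) f) (((1 / 2 : ℝ)) : ℂ) := by
    refine locInd_real _ _ Y124.Dom Y124.isPreconnected_Dom ?_ (1 / 4) (3 / 4) (fun t ht => ?_) ?_ hR _
      Y124.half_mem_Dom
    · rintro (y | i) t ht
      · exact Y124.fC_analytic y.2 t ht
      · exact (hf i).analyticAt t
    · exact Y124.real_mem_Dom (by linarith [ht.1]) (by linarith [ht.2])
    · rintro (y | i) t ht
      · exact Y124.fC_real y.2 t (by linarith [ht.1]) (by linarith [ht.2])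
      · exact hfu i t
  have h2 := locInd_comp (Sum.map (fun y : Fin 2 => ((0 : Fin 1), Fin.castSucc y)) id : Fin 2 ⊕ κ → (Fin 1 × Fin 3) ⊕ κ)
    (Function.Injective.sumMap (fun a b hab => by
      have := congrArg Prod.snd hab
      exact Fin.castSucc_injective _ this) Function.injective_id) _ _ h1
  have h3 : (fun y => Sum.elim (fun z : Fin 1 × Fin 3 => Y124.fC z.2) f
      ((Sum.map (fun y : Fin 2 => ((0 : Fin 1), Fin.castSucc y)) id : Fin 2 ⊕ κ → (Fin 1 × Fin 3) ⊕ κ) y)) =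
      Sum.elim ke f := by
    funext y
    rcases y with y | i <;> rfl
  rw [h3] at h2
  refine locInd_spread _ Slit1 slit1_open slit1_pre ?_ _ ?_ h2
  · rintro (y | i) t ht
    · exact ke_an y ht
    · exact (hf i).analyticAt t
  · exact Y124.half_mem_Dom.2

end Pool.Agent.Q23.AQ
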