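import Pool.Agent.Q23.AQ.Comb

/-!
# The functions `e^(α_i t)`
-/

set_option autoImplicit false

open Set Polynomial Filter Topology

namespace Pool.Agent.Q23.AQ

open Pool.Agent.TH818.AP Pool.Agent.TH818.AR Pool.Agent.TH659.AQ

/-- the functions `e^(α_i t)` -/
noncomputable def ef {m : ℕ} (α : Fin m → ℝ) (i : Fin m) (t : ℝ) : ℝ := Real.exp (α i * t)

theorem ef_an {m : ℕ} (α : Fin m → ℝ) (i : Fin m) (t : ℝ) : AnalyticAt ℝ (ef α i) t :=
  (analyticAt_const.mul analyticAt_id).rexp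

theorem ef_ind {m d : ℕ} (α : Fin m → ℝ) (hα : ∀ k : Fin m → ℤ, ∑ i, (k i : ℝ) * α i = 0 → k = 0) (a b : ℝ)
    (hab : a < b) : RIndep (fun (e : Fin m → Fin (d + 1)) (t : ℝ) => ∏ k, ef α k t ^ (e k : ℕ)) a b := by
  refine rindG (ef α) (fun i => Eventually.of_forall fun t => Real.exp_pos _) ?_ a b hab (fun i t _ => ef_an α i t)
  intro k r hk
  have h0 : ∑ i, (k i : ℝ) * α i ≠ 0 := fun h => hk (hα k h)
  have h1 : (fun t : ℝ => ∑ i, (k i : ℝ) * Real.log (ef α i t) + r * Real.log t) =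
      fun t => (∑ i, (k i : ℝ) * α i) * t + r * Real.log t := by
    funext t
    simp only [ef, Real.log_exp, Finset.sum_mul]
    congr 1
    exact Finset.sum_congr rfl fun i _ => by ring
  rw [h1]
  rcases lt_or_gt_of_ne h0 with h | h
  · right
    have h2 := tendsto_neg_atTop_atBot.comp (lin_log (c := -∑ i, (k i : ℝ) * α i) (by linarith) (-r))
    refine h2.congr fun t => ?_
    simp only [Function.comp]
    ring
  · exact Or.inl (lin_log h r)

end Pool.Agent.Q23.AQ
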