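import Pool.Agent.Q23.AQ.Str

/-!
# Values at the points of finite sets of points of number fields: explicit forms
-/

set_option autoImplicit false

open Set Filter Topology NumberField

namespace Pool.Agent.Q23.AQ

open Pool.Agent.TH818.AP Pool.Agent.Y771

/-- complex form -/
theorem fewC {κ : Type} [Fintype κ] (f : κ → ℂ → ℂ) (K : Set ℂ) (hK : IsCompact K)
    (han : ∀ y, ∀ t ∈ K, AnalyticAt ℂ (f y) t) (hind : ∀ t ∈ K, Y124.LocInd f t)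
    (m n g d : ℕ) (A ε : ℝ) (hε : 0 < ε) :
    ∃ B C T₀ : ℝ, ∀ (F : Type) [Field F] [NumberField F], Module.finrank ℚ F ≤ m → ∀ (ι : F →+* ℂ) (ξ : Fin g → ℂ)
      (T : ℝ), T₀ ≤ T → ∀ X : Finset F,
        (∀ x ∈ X, ι x ∈ K ∧ ∃ a b : 𝓞 F, b ≠ 0 ∧ (∀ φ : F →+* ℂ, ‖φ a‖ ≤ T ∧ ‖φ b‖ ≤ T) ∧ x = a / b) →
        (({q : Fin n → F | (∀ h, q h ∈ X) ∧ ∃ P : MvPolynomial (Fin n × κ) ℂ, (∀ x, P.degreeOf x ≤ d) ∧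
          (∀ s, ∃ c : Fin g → 𝓞 F, (∀ a (φ : F →+* ℂ), ‖φ (c a)‖ ≤ T ^ A) ∧ P.coeff s = ∑ a, ξ a * ι (c a)) ∧
          ∃ s₀, P.coeff s₀ ≠ 0 ∧ ‖MvPolynomial.aeval (fun x : Fin n × κ => f x.2 (ι (q x.1))) P‖ ≤
            T ^ (-B) * ‖P.coeff s₀‖}.ncard : ℕ) : ℝ) ≤ C * T ^ ε * (X.card : ℝ) ^ (n - 1) := by
  obtain ⟨B, C, T₀, -, -, H⟩ := RP.mainS m n g d f K hK han hind A ε hε
  refine ⟨B, C, T₀, fun F _ _ hF ι ξ T hT X hX => ?_⟩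
  have h1 := H F hF ι ξ T hT X hX
  refine le_trans (le_of_eq ?_) h1
  congr 2
  ext q
  constructor
  · rintro ⟨h2, h3⟩
    exact ⟨⟨fun j => hX _ (h2 j), h3⟩, h2⟩
  · rintro ⟨⟨_, h3⟩, h2⟩
    exact ⟨h2, h3⟩

/-- real form -/
theorem fewR {κ : Type} [Fintype κ] [DecidableEq κ] (u : κ → ℝ → ℝ) (a b : ℝ)
    (han : ∀ y, ∀ t ∈ Icc a b, AnalyticAt ℝ (u y) t)
    (hind : ∀ d : ℕ, RIndep (fun (e : κ → Fin (d + 1)) (t : ℝ) => ∏ k, u k t ^ (e k : ℕ)) a b)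
    (m n g d : ℕ) (A ε : ℝ) (hε : 0 < ε) :
    ∃ B C T₀ : ℝ, ∀ (F : Type) [Field F] [NumberField F], Module.finrank ℚ F ≤ m → ∀ (ι : F →+* ℂ) (ξ : Fin g → ℂ)
      (T : ℝ), T₀ ≤ T → ∀ X : Finset F,
        (∀ x ∈ X, (∃ t : ℝ, a ≤ t ∧ t ≤ b ∧ ι x = t) ∧
          ∃ a b : 𝓞 F, b ≠ 0 ∧ (∀ φ : F →+* ℂ, ‖φ a‖ ≤ T ∧ ‖φ b‖ ≤ T) ∧ x = a / b) →
        (({q : Fin n → F | (∀ h, q h ∈ X) ∧ ∃ P : MvPolynomial (Fin n × κ) ℂ, (∀ x, P.degreeOf x ≤ d) ∧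
          (∀ s, ∃ c : Fin g → 𝓞 F, (∀ a (φ : F →+* ℂ), ‖φ (c a)‖ ≤ T ^ A) ∧ P.coeff s = ∑ a, ξ a * ι (c a)) ∧
          ∃ s₀, P.coeff s₀ ≠ 0 ∧ ‖MvPolynomial.aeval (fun x : Fin n × κ => ((u x.2 (ι (q x.1)).re : ℝ) : ℂ)) P‖ ≤
            T ^ (-B) * ‖P.coeff s₀‖}.ncard : ℕ) : ℝ) ≤ C * T ^ ε * (X.card : ℝ) ^ (n - 1) := by
  obtain ⟨B, C, T₀, H⟩ := fewC (fun y => cx (u y)) _ ((isCompact_Icc (a := a) (b := b)).image Complex.continuous_ofReal)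
    (by
      rintro y _ ⟨t, ht, rfl⟩
      exact cx_an (han y t ht)) (locInd_cx u a b han hind) m n g d A ε hε
  refine ⟨B, C, T₀, fun F _ _ hF ι ξ T hT X hX => ?_⟩
  have h1 := H F hF ι ξ T hT X (fun x hx => by
    obtain ⟨⟨t, ht1, ht2, ht3⟩, h2⟩ := hX x hx
    exact ⟨⟨t, ⟨ht1, ht2⟩, ht3.symm⟩, h2⟩)
  refine le_trans (le_of_eq ?_) h1
  congr 2
  ext q
  simp only [mem_ofPred_eq]
  refine and_congr_right fun hq => ?_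
  have h2 : (fun x : Fin n × κ => ((u x.2 (ι (q x.1)).re : ℝ) : ℂ)) = fun x => cx (u x.2) (ι (q x.1)) := by
    funext x
    obtain ⟨⟨t, ht1, ht2, ht3⟩, -⟩ := hX _ (hq x.1)
    rw [ht3, Complex.ofReal_re, cx_real]
  rw [h2]

end Pool.Agent.Q23.AQ
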