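import Pool.Agent.Q23.AQ.DB

/-!
# Partial fractions which are not differences of a rational function
-/

set_option autoImplicit false

open Filter Topology Polynomial Set

namespace Pool.Agent.Q23.DA

/-- rational functions, arbitrary values at finitely many points -/
def IsRat (F : ℝ → ℝ) : Prop := ∃ N D : ℝ[X], D ≠ 0 ∧ ∀ t, D.eval t ≠ 0 → F t * D.eval t = N.eval t

theorem IsRat.add {F G : ℝ → ℝ} (hF : IsRat F) (hG : IsRat G) : IsRat (fun t => F t + G t) := by
  obtain ⟨N, D, hD, h⟩ := hF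
  obtain ⟨N', D', hD', h'⟩ := hG
  refine ⟨N * D' + N' * D, D * D', mul_ne_zero hD hD', fun t ht => ?_⟩
  rw [eval_mul] at ht
  have h1 := h t (left_ne_zero_of_mul ht)
  have h2 := h' t (right_ne_zero_of_mul ht)
  rw [eval_mul, eval_add, eval_mul, eval_mul, ← h1, ← h2]
  ring

theorem IsRat.const_mul {F : ℝ → ℝ} (c : ℝ) (hF : IsRat F) : IsRat (fun t => c * F t) := by
  obtain ⟨N, D, hD, h⟩ := hF
  refine ⟨C c * N, D, hD, fun t ht => ?_⟩
  rw [eval_mul, eval_C, ← h t ht]
  ring

theorem IsRat.sub {F G : ℝ → ℝ} (hF : IsRat F) (hG : IsRat G) : IsRat (fun t => F t - G t) := by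
  have := hF.add (hG.const_mul (-1))
  convert this using 2
  ring

theorem IsRat.zero : IsRat (fun _ => 0) := ⟨0, 1, one_ne_zero, fun t _ => by simp⟩

theorem IsRat.sum {ι : Type} (S : Finset ι) (F : ι → ℝ → ℝ) (h : ∀ i ∈ S, IsRat (F i)) :
    IsRat (fun t => ∑ i ∈ S, F i t) := by
  classical
  induction S using Finset.induction_on with
  | empty => simpa using IsRat.zero
  | insert a S ha ih =>
    have h1 := (h a (Finset.mem_insert_self _ _)).add (ih fun i hi => h i (Finset.mem_insert_of_mem hi))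
    convert h1 using 2
    rw [Finset.sum_insert ha]

theorem IsRat.div (A B : ℝ[X]) (hB : B ≠ 0) : IsRat (fun t => A.eval t / B.eval t) :=
  ⟨A, B, hB, fun t ht => by field_simp⟩

theorem shift_ne {B : ℝ[X]} (hB : B ≠ 0) : B.comp (X + 1) ≠ 0 := by
  intro h
  apply hB
  have h2 : (B.comp (X + 1)).comp (X - 1) = B := by
    rw [comp_assoc]
    simp
  rw [h, zero_comp] at h2
  exact h2.symm

theorem IsRat.div_shift (A B : ℝ[X]) (hB : B ≠ 0) : IsRat (fun t => A.eval (t + 1) / B.eval (t + 1)) := by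
  have := IsRat.div (A.comp (X + 1)) (B.comp (X + 1)) (shift_ne hB)
  simpa using this

theorem IsRat.pow (c x : ℝ) (k : ℕ) : IsRat (fun t => c / (t + x) ^ k) := by
  have h1 : ((X + C x : ℝ[X]) ^ k) ≠ 0 := pow_ne_zero _ (X_add_C_ne_zero x)
  have := IsRat.div (C c) _ h1
  simpa using this

/-- a rational function vanishing near infinity vanishes outside a finite set -/
theorem IsRat.zero_of {F : ℝ → ℝ} (hF : IsRat F) (h : ∀ᶠ t in atTop, F t = 0) :
    ∃ S : Finset ℝ, ∀ t, t ∉ S → F t = 0 := by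
  obtain ⟨N, D, hD, hND⟩ := hF
  have hN : N = 0 := by
    by_contra hN
    obtain ⟨t, h1, h2, h3⟩ := (h.and ((poly_ne hN).and (poly_ne hD))).exists
    have := hND t h3
    rw [h1, zero_mul] at this
    exact h2 this.symm
  refine ⟨D.roots.toFinset, fun t ht => ?_⟩
  have h1 : D.eval t ≠ 0 := fun h0 => ht (by
    rw [Multiset.mem_toFinset, mem_roots hD]
    exact h0)
  have h2 := hND t h1
  rw [hN, eval_zero] at h2
  exact (mul_eq_zero.1 h2).resolve_right h1

/-- boundedness near a point -/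
def Bd (g : ℝ → ℝ) (p : ℝ) : Prop := ∃ C : ℝ, ∀ᶠ t in 𝓝[≠] p, |g t| ≤ C

theorem Bd.add {f g : ℝ → ℝ} {p : ℝ} (hf : Bd f p) (hg : Bd g p) : Bd (fun t => f t + g t) p := by
  obtain ⟨C, hC⟩ := hf
  obtain ⟨C', hC'⟩ := hg
  exact ⟨C + C', by filter_upwards [hC, hC'] with t h1 h2 using (abs_add_le _ _).trans (add_le_add h1 h2)⟩

theorem Bd.neg {f : ℝ → ℝ} {p : ℝ} (hf : Bd f p) : Bd (fun t => -f t) p := by
  obtain ⟨C, hC⟩ := hf
  exact ⟨C, by filter_upwards [hC] with t h1 using by rwa [abs_neg]⟩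

theorem Bd.congr {f g : ℝ → ℝ} {p : ℝ} (hf : Bd f p) (h : ∀ᶠ t in 𝓝[≠] p, f t = g t) : Bd g p := by
  obtain ⟨C, hC⟩ := hf
  exact ⟨C, by filter_upwards [hC, h] with t h1 h2 using by rwa [← h2]⟩

theorem Bd.of_cont {f : ℝ → ℝ} {p : ℝ} (hf : ContinuousAt f p) : Bd f p := by
  have h1 : ∀ᶠ t in 𝓝 p, |f t| < |f p| + 1 := hf.abs.eventually (gt_mem_nhds (by simp))
  exact ⟨|f p| + 1, (h1.filter_mono nhdsWithin_le_nhds).mono fun t h => h.le⟩

theorem Bd.sum {ι : Type} {p : ℝ} (S : Finset ι) (F : ι → ℝ → ℝ) (h : ∀ i ∈ S, Bd (F i) p) :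
    Bd (fun t => ∑ i ∈ S, F i t) p := by
  classical
  induction S using Finset.induction_on with
  | empty => exact ⟨0, by simp⟩
  | insert a S ha ih =>
    have h1 := (h a (Finset.mem_insert_self _ _)).add (ih fun i hi => h i (Finset.mem_insert_of_mem hi))
    convert h1 using 2
    rw [Finset.sum_insert ha]

theorem Bd.shift {g : ℝ → ℝ} {p : ℝ} : Bd (fun t => g (t + 1)) p ↔ Bd g (p + 1) := by
  constructor
  · rintro ⟨C, hC⟩
    refine ⟨C, ?_⟩
    rw [eventually_nhdsWithin_iff, Metric.eventually_nhds_iff] at hC ⊢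
    obtain ⟨ε, hε, h⟩ := hC
    refine ⟨ε, hε, fun y hy hne => ?_⟩
    have h1 := h (y := y - 1) (by
      rw [Real.dist_eq] at hy ⊢
      rwa [show y - 1 - p = y - (p + 1) by ring]) (by
      intro h0
      apply hne
      rw [Set.mem_singleton_iff] at h0 ⊢
      linarith)
    simpa using h1
  · rintro ⟨C, hC⟩
    refine ⟨C, ?_⟩
    rw [eventually_nhdsWithin_iff, Metric.eventually_nhds_iff] at hC ⊢
    obtain ⟨ε, hε, h⟩ := hC
    refine ⟨ε, hε, fun y hy hne => ?_⟩
    refine h (y := y + 1) (by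
      rw [Real.dist_eq] at hy ⊢
      rwa [show y + 1 - (p + 1) = y - p by ring]) (by
      intro h0
      apply hne
      rw [Set.mem_singleton_iff] at h0 ⊢
      linarith)

/-- polynomials in `1 / (t - p)` without constant term are unbounded near `p` -/
theorem unbd (p : ℝ) (s : ℕ) (c : Fin s → ℝ) (hc : c ≠ 0) : ¬ Bd (fun t => ∑ k : Fin s, c k / (t - p) ^ ((k : ℕ) + 1)) p := by
  rintro ⟨C, hC⟩
  obtain ⟨k1, hk1⟩ : ∃ k, c k ≠ 0 := by
    by_contra hcon
    push Not at hcon
    exact hc (funext hcon)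
  obtain ⟨k0, hk0, hmax⟩ := (Finset.univ.filter fun k => c k ≠ 0).exists_max_image id ⟨k1, by simp [hk1]⟩
  rw [Finset.mem_filter] at hk0
  have h1 : Tendsto (fun t => (∑ k : Fin s, c k / (t - p) ^ ((k : ℕ) + 1)) * (t - p) ^ ((k0 : ℕ) + 1)) (𝓝[≠] p)
      (𝓝 (c k0)) := by
    have h2 : ∀ k ∈ Finset.univ.erase k0, Tendsto (fun t => c k / (t - p) ^ ((k : ℕ) + 1) * (t - p) ^ ((k0 : ℕ) + 1))
        (𝓝[≠] p) (𝓝 0) := by
      intro k hk
      rcases eq_or_ne (c k) 0 with h0 | h0
      · simp [h0]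
      have hle := hmax k (by simp [h0])
      have hlt : k < k0 := lt_of_le_of_ne hle (Finset.ne_of_mem_erase hk)
      have hlt' : (k : ℕ) < k0 := hlt
      have h3 : Tendsto (fun t : ℝ => c k * (t - p) ^ ((k0 : ℕ) - k)) (𝓝 p) (𝓝 (c k * (p - p) ^ ((k0 : ℕ) - k))) :=
        (continuous_const.mul ((continuous_id.sub continuous_const).pow _)).tendsto p
      rw [sub_self, zero_pow (by omega), mul_zero] at h3
      refine (h3.mono_left nhdsWithin_le_nhds).congr' ?_
      filter_upwards [self_mem_nhdsWithin] with t ht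
      have ht' : t - p ≠ 0 := sub_ne_zero.2 ht
      have h4 : (t - p) ^ ((k0 : ℕ) + 1) = (t - p) ^ ((k0 : ℕ) - k) * (t - p) ^ ((k : ℕ) + 1) := by
        rw [← pow_add]
        congr 1
        omega
      rw [h4, div_mul_eq_mul_div, mul_comm ((t - p) ^ ((k0 : ℕ) - k)), ← mul_assoc, mul_div_right_comm,
        mul_div_assoc, div_self (pow_ne_zero _ ht'), mul_one]
    have hsum := tendsto_finsetSum _ h2
    rw [Finset.sum_const_zero] at hsum
    have h5 := hsum.const_add (c k0)
    rw [add_zero] at h5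
    refine h5.congr' ?_
    filter_upwards [self_mem_nhdsWithin] with t ht
    have ht' : t - p ≠ 0 := sub_ne_zero.2 ht
    rw [Finset.sum_mul, ← Finset.add_sum_erase _ _ (Finset.mem_univ k0)]
    congr 1
    field_simp
  have h6 : Tendsto (fun t => (∑ k : Fin s, c k / (t - p) ^ ((k : ℕ) + 1)) * (t - p) ^ ((k0 : ℕ) + 1)) (𝓝[≠] p)
      (𝓝 0) := by
    have h3 : Tendsto (fun t : ℝ => C * |(t - p) ^ ((k0 : ℕ) + 1)|) (𝓝 p) (𝓝 (C * |(p - p) ^ ((k0 : ℕ) + 1)|)) :=
      (continuous_const.mul ((continuous_id.sub continuous_const).pow _).abs).tendsto p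
    rw [sub_self, zero_pow (by omega), abs_zero, mul_zero] at h3
    refine squeeze_zero_norm' ?_ (h3.mono_left nhdsWithin_le_nhds)
    filter_upwards [hC] with t ht
    rw [Real.norm_eq_abs, abs_mul]
    exact mul_le_mul_of_nonneg_right ht (abs_nonneg _)
  exact hk0.2 (tendsto_nhds_unique h1 h6)

theorem not_bd_finite (A B : ℝ[X]) (hB : B ≠ 0) {p : ℝ} (h : ¬ Bd (fun t => A.eval t / B.eval t) p) :
    p ∈ B.roots.toFinset := by
  by_contra hp
  apply h
  have h1 : B.eval p ≠ 0 := fun h0 => hp (by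
    rw [Multiset.mem_toFinset, mem_roots hB]
    exact h0)
  exact Bd.of_cont (A.continuous.continuousAt.div B.continuous.continuousAt h1)

theorem frac_ind (r s : ℕ) (x : Fin r → ℝ) (hx : ∀ i j (n : ℤ), x i = x j + n → i = j) (c : Fin r × Fin s → ℝ)
    (A B : ℝ[X]) (hB : B ≠ 0) (h : ∀ᶠ t in atTop, ∑ p, c p / (t + x p.1) ^ ((p.2 : ℕ) + 1) =
      A.eval (t + 1) / B.eval (t + 1) - A.eval t / B.eval t) : c = 0 := by
  classical
  set g : ℝ → ℝ := fun t => A.eval t / B.eval t with hg
  by_contra hc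
  obtain ⟨⟨i0, k0⟩, hi0⟩ : ∃ p, c p ≠ 0 := by
    by_contra hcon
    push Not at hcon
    exact hc (funext hcon)
  -- the identity outside a finite set
  have hR : IsRat (fun t => (∑ p, c p / (t + x p.1) ^ ((p.2 : ℕ) + 1)) -
      (A.eval (t + 1) / B.eval (t + 1) - A.eval t / B.eval t)) :=
    (IsRat.sum _ _ fun p _ => IsRat.pow _ _ _).sub ((IsRat.div_shift A B hB).sub (IsRat.div A B hB))
  obtain ⟨S, hS⟩ := hR.zero_of (by filter_upwards [h] with t ht using sub_eq_zero.2 ht)
  have hid : ∀ p : ℝ, ∀ᶠ t in 𝓝[≠] p, ∑ p, c p / (t + x p.1) ^ ((p.2 : ℕ) + 1) = g (t + 1) - g t := by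
    intro p
    have h1 : ∀ᶠ t in 𝓝[≠] p, t ∉ S := by
      have h2 : ∀ᶠ t in 𝓝[≠] p, t ∉ ((S.erase p : Finset ℝ) : Set ℝ) := by
        refine nhdsWithin_le_nhds ?_
        exact (S.erase p).finite_toSet.isClosed.isOpen_compl.mem_nhds (by simp)
      filter_upwards [h2, self_mem_nhdsWithin] with t ht1 ht2 ht3
      exact ht1 (Finset.mem_coe.2 (Finset.mem_erase.2 ⟨ht2, ht3⟩))
    filter_upwards [h1] with t ht
    exact sub_eq_zero.1 (hS t ht)
  -- away from `-x_i` the sum is bounded
  have hbd : ∀ p : ℝ, (∀ i, p ≠ -x i) → Bd (fun t => ∑ p, c p / (t + x p.1) ^ ((p.2 : ℕ) + 1)) p := by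
    intro p hp
    refine Bd.sum _ _ fun z _ => Bd.of_cont ?_
    refine ContinuousAt.div continuousAt_const (by fun_prop) ?_
    refine pow_ne_zero _ ?_
    intro h0
    exact hp z.1 (by linarith)
  have hstep : ∀ p : ℝ, (∀ i, p ≠ -x i) → (Bd g p ↔ Bd g (p + 1)) := by
    intro p hp
    have h1 := hbd p hp
    have h2 := hid p
    constructor
    · intro h3
      rw [← Bd.shift]
      refine (h1.add h3).congr ?_
      filter_upwards [h2] with t ht
      rw [ht]
      ring
    · intro h3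
      rw [← Bd.shift] at h3
      refine (h3.add h1.neg).congr ?_
      filter_upwards [h2] with t ht
      rw [ht]
      ring
  set p0 := -x i0 with hp0
  obtain ⟨M, hM⟩ := (B.roots.toFinset.finite_toSet).bddAbove
  obtain ⟨M', hM'⟩ := (B.roots.toFinset.finite_toSet).bddBelow
  -- to the right
  have hright : Bd g (p0 + 1) := by
    obtain ⟨N, hN⟩ := exists_nat_gt (M - p0)
    have hbig : Bd g (p0 + 1 + N) := by
      by_contra hcon
      have := hM (not_bd_finite A B hB hcon)
      linarith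
    have : ∀ n : ℕ, Bd g (p0 + 1 + n) → Bd g (p0 + 1) := by
      intro n
      induction n with
      | zero => intro h; simpa using h
      | succ n ih =>
        intro h
        apply ih
        rw [hstep]
        · push_cast at h
          rwa [show p0 + 1 + n + 1 = p0 + 1 + (n + 1) by ring]
        · intro i hi
          have h2 : i0 = i := hx i0 i ((n : ℤ) + 1) (by push_cast; linarith)
          rw [← h2] at hi
          have : (0 : ℝ) ≤ n := Nat.cast_nonneg n
          linarith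
    exact this N hbig
  -- to the left
  have hleft : Bd g p0 := by
    obtain ⟨N, hN⟩ := exists_nat_gt (p0 - M')
    have hbig : Bd g (p0 - N) := by
      by_contra hcon
      have := hM' (not_bd_finite A B hB hcon)
      linarith
    have : ∀ n : ℕ, Bd g (p0 - n) → Bd g p0 := by
      intro n
      induction n with
      | zero => intro h; simpa using h
      | succ n ih =>
        intro h
        apply ih
        rw [hstep] at h
        · push_cast at h
          rwa [show p0 - (n + 1) + 1 = p0 - n by ring] at h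
        · intro i hi
          have h2 : i0 = i := hx i0 i (-((n : ℤ) + 1)) (by push_cast at hi ⊢; linarith)
          rw [← h2] at hi
          push_cast at hi
          have : (0 : ℝ) ≤ n := Nat.cast_nonneg n
          linarith
    exact this N hbig
  -- contradiction
  have h1 : Bd (fun t => ∑ p, c p / (t + x p.1) ^ ((p.2 : ℕ) + 1)) p0 := by
    refine ((Bd.shift.2 hright).add hleft.neg).congr ?_
    filter_upwards [hid p0] with t ht
    rw [ht]
    ring
  refine unbd p0 s (fun k => c (i0, k)) (fun h0 => hi0 (congrFun h0 k0)) ?_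
  have h2 : Bd (fun t => ∑ i ∈ Finset.univ.erase i0, ∑ k : Fin s, c (i, k) / (t + x i) ^ ((k : ℕ) + 1)) p0 := by
    refine Bd.sum _ _ fun i hi => Bd.sum _ _ fun k _ => Bd.of_cont ?_
    refine ContinuousAt.div continuousAt_const (by fun_prop) ?_
    refine pow_ne_zero _ ?_
    intro h0
    have : i0 = i := hx i0 i 0 (by push_cast; linarith)
    exact (Finset.ne_of_mem_erase hi) this.symm
  refine (h1.add h2.neg).congr (Eventually.of_forall fun t => ?_)
  rw [Fintype.sum_prod_type, ← Finset.add_sum_erase _ _ (Finset.mem_univ i0)]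
  simp only [hp0, sub_neg_eq_add]
  ring

end Pool.Agent.Q23.DA
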