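import Pool.Agent.Q23.AQ.Frac
import Pool.Agent.TH659.AQ.Gam

/-!
# The digamma function and the Hurwitz zeta functions `ζ(k, t)`
-/

set_option autoImplicit false

open Filter Topology Set

namespace Pool.Agent.Q23.Hz

/-- the digamma function `Γ'/Γ` -/
noncomputable def psi (t : ℝ) : ℝ := deriv Real.Gamma t / Real.Gamma t

/-- the Hurwitz zeta function `∑ 1/(n+t)^k` -/
noncomputable def hz (k : ℕ) (t : ℝ) : ℝ := ∑' n : ℕ, 1 / ((n : ℝ) + t) ^ k

theorem psi_an {t : ℝ} (ht : 0 < t) : AnalyticAt ℝ psi t :=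
  (TH659.AQ.gamma_an ht).deriv.div (TH659.AQ.gamma_an ht) (Real.Gamma_pos_of_pos ht).ne'

theorem psi_step {t : ℝ} (ht : 0 < t) : psi (t + 1) = psi t + 1 / t := by
  have h1 : HasDerivAt Real.Gamma (deriv Real.Gamma t) t := (TH659.AQ.gamma_an ht).differentiableAt.hasDerivAt
  have h2 : HasDerivAt Real.Gamma (deriv Real.Gamma (t + 1)) (t + 1) :=
    (TH659.AQ.gamma_an (by linarith)).differentiableAt.hasDerivAt
  have h3 : HasDerivAt (fun s : ℝ => Real.Gamma (s + 1)) (deriv Real.Gamma (t + 1)) t := h2.comp_add_const t 1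
  have h4 : HasDerivAt (fun s : ℝ => s * Real.Gamma s) (1 * Real.Gamma t + t * deriv Real.Gamma t) t :=
    (hasDerivAt_id t).mul h1
  have h5 : HasDerivAt (fun s : ℝ => s * Real.Gamma s) (deriv Real.Gamma (t + 1)) t := by
    refine h3.congr_of_eventuallyEq ?_
    filter_upwards [lt_mem_nhds ht] with s hs
    rw [Real.Gamma_add_one hs.ne']
  have h6 := h4.unique h5
  have hG := (Real.Gamma_pos_of_pos ht).ne'
  unfold psi
  rw [← h6, Real.Gamma_add_one ht.ne']
  field_simp
  ring

theorem hz_summable {k : ℕ} (hk : 2 ≤ k) {t : ℝ} (ht : 0 < t) : Summable (fun n : ℕ => 1 / ((n : ℝ) + t) ^ k) := by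
  have h0 : Summable (fun n : ℕ => (1 : ℝ) / (n : ℝ) ^ k) := Real.summable_one_div_nat_pow.2 (by omega)
  rw [← summable_nat_add_iff 1]
  rw [← summable_nat_add_iff 1] at h0
  refine Summable.of_nonneg_of_le (fun n => by positivity) (fun n => ?_) h0
  refine one_div_le_one_div_of_le (by positivity) (pow_le_pow_left₀ (by positivity) ?_ _)
  linarith

theorem hz_step {k : ℕ} (hk : 2 ≤ k) {t : ℝ} (ht : 0 < t) : hz k (t + 1) = hz k t + -1 / t ^ k := by
  unfold hz
  rw [(hz_summable hk ht).tsum_eq_zero_add]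
  have : ∀ n : ℕ, ((n : ℝ) + (t + 1)) = ((n + 1 : ℕ) : ℝ) + t := fun n => by push_cast; ring
  simp only [this]
  simp
  ring

theorem hz_an {k : ℕ} (hk : 2 ≤ k) {t : ℝ} (ht : 0 < t) : AnalyticAt ℝ (hz k) t := by
  set U : Set ℂ := {z : ℂ | t / 2 < z.re} with hU
  have hopen : IsOpen U := isOpen_lt continuous_const Complex.continuous_re
  have ht2 : 0 < t / 2 := by linarith
  have hne : ∀ (n : ℕ) (w : ℂ), w ∈ U → (n : ℂ) + w ≠ 0 := by
    intro n w hw h0
    have h1 := congrArg Complex.re h0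
    have h2 : t / 2 < w.re := hw
    have h3 : (0 : ℝ) ≤ n := Nat.cast_nonneg n
    simp at h1
    linarith
  have hd : DifferentiableOn ℂ (fun z : ℂ => ∑' n : ℕ, 1 / ((n : ℂ) + z) ^ k) U := by
    refine Complex.differentiableOn_tsum_of_summable_norm (hz_summable hk ht2) ?_ hopen ?_
    · intro n w hw
      refine DifferentiableAt.differentiableWithinAt ?_
      refine DifferentiableAt.div (differentiableAt_const _) (by fun_prop) (pow_ne_zero _ (hne n w hw))
    · intro n w hw
      have h2 : t / 2 < w.re := hw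
      have h3 : (0 : ℝ) ≤ n := Nat.cast_nonneg n
      rw [norm_div, norm_one, norm_pow]
      have h4 : (n : ℝ) + t / 2 ≤ ‖(n : ℂ) + w‖ := by
        refine le_trans ?_ (Complex.re_le_norm _)
        simp
        linarith
      gcongr
  have h2 : AnalyticAt ℂ (fun z : ℂ => ∑' n : ℕ, 1 / ((n : ℂ) + z) ^ k) (t : ℂ) :=
    hd.analyticAt (hopen.mem_nhds (by simp [hU]; linarith))
  have h3 := h2.re_ofReal
  refine h3.congr (Eventually.of_forall fun y => ?_)
  have h4 : ∑' n : ℕ, 1 / ((n : ℂ) + (y : ℂ)) ^ k = ((hz k y : ℝ) : ℂ) := by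
    unfold hz
    rw [Complex.ofReal_tsum]
    refine tsum_congr fun n => ?_
    push_cast
    rfl
  simp only [h4, Complex.ofReal_re]

/-- the functions: `ψ(t + x_i)` for `k = 0`, `ζ(k + 1, t + x_i)` for `k ≥ 1` -/
noncomputable def fn {r s : ℕ} (x : Fin r → ℝ) (p : Fin r × Fin s) (t : ℝ) : ℝ :=
  if (p.2 : ℕ) = 0 then psi (t + x p.1) else hz (p.2 + 1) (t + x p.1)

theorem fn_an {r s : ℕ} (x : Fin r → ℝ) (p : Fin r × Fin s) {t : ℝ} (ht : 0 < t + x p.1) : AnalyticAt ℝ (fn x p) t := by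
  have h1 : AnalyticAt ℝ (fun t : ℝ => t + x p.1) t := analyticAt_id.add analyticAt_const
  by_cases h : (p.2 : ℕ) = 0
  · have : fn x p = fun t => psi (t + x p.1) := by
      funext t
      simp [fn, h]
    rw [this]
    exact AnalyticAt.comp (g := psi) (f := fun t : ℝ => t + x p.1) (psi_an ht) h1
  · have : fn x p = fun t => hz (p.2 + 1) (t + x p.1) := by
      funext t
      simp [fn, h]
    rw [this]
    exact AnalyticAt.comp (g := hz (p.2 + 1)) (f := fun t : ℝ => t + x p.1) (hz_an (by omega) ht) h1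

open Polynomial in
theorem fn_ind (r s d : ℕ) (x : Fin r → ℝ) (hx : ∀ i j (n : ℤ), x i = x j + n → i = j) (a b : ℝ) (hab : a < b)
    (ha : ∀ i, 0 < a + x i) :
    TH818.AP.RIndep (fun (e : (Fin r × Fin s) → Fin (d + 1)) (t : ℝ) => ∏ k, fn x k t ^ (e k : ℕ)) a b := by
  classical
  refine DA.concrete (fn x) (fun p => if (p.2 : ℕ) = 0 then 1 else -1) (fun p => (X + C (x p.1)) ^ ((p.2 : ℕ) + 1))
    (fun p => pow_ne_zero _ (X_add_C_ne_zero _)) ?_ ?_ a b hab (fun p t ht => fn_an x p (by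
      have := ha p.1
      rw [Set.mem_Ici] at ht
      linarith))
  · intro p
    filter_upwards [eventually_ge_atTop a] with t ht
    have h0 : 0 < t + x p.1 := by linarith [ha p.1]
    have h1 : t + 1 + x p.1 = t + x p.1 + 1 := by ring
    by_cases h : (p.2 : ℕ) = 0
    · simp only [fn, h, if_true, h1]
      rw [psi_step h0]
      simp
    · simp only [fn, h, if_false, h1]
      rw [hz_step (by omega) h0]
      simp
  · intro c A B hB h
    have h1 := DA.frac_ind r s x hx (fun p => if (p.2 : ℕ) = 0 then c p else -c p) A B hB (by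
      filter_upwards [h] with t ht
      rw [← ht]
      refine Finset.sum_congr rfl fun p _ => ?_
      by_cases h : (p.2 : ℕ) = 0
      · simp [h]
        ring
      · simp [h]
        ring)
    funext p
    have h2 := congrFun h1 p
    by_cases h : (p.2 : ℕ) = 0
    · simpa [h] using h2
    · simpa [h] using h2

end Pool.Agent.Q23.Hz
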