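import Pool.Agent.Q23.AQ.Comb

/-!
# Iterated exponentials; periods and logarithms together with other functions
-/

set_option autoImplicit false

open Set Polynomial Filter Topology

namespace Pool.Agent.Q23.AQ

open Pool.Agent.TH818.AP Pool.Agent.TH818.AR Pool.Agent.TH659.AQ

namespace It

/-- Iterated exponential: `E 0 t = t`, `E (k + 1) t = e ^ (E k t)`. -/
noncomputable def E : ℕ → ℝ → ℝ
  | 0, t => t
  | k + 1, t => Real.exp (E k t)

/-- the scale -/
noncomputable def L {s : ℕ} (l : Fin (s + 1)) (t : ℝ) : ℝ :=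
  if (l : ℕ) < s then E (s - 1 - l) t else Real.log t

theorem E_top (k : ℕ) : Tendsto (E k) atTop atTop := by
  induction k with
  | zero => exact tendsto_id
  | succ k ih => exact Real.tendsto_exp_atTop.comp ih

theorem E_ratio (k : ℕ) : Tendsto (fun t => E k t / E (k + 1) t) atTop (𝓝 0) := by
  have h := (pow_div_exp 1).comp (E_top k)
  refine h.congr fun t => ?_
  simp only [Function.comp, pow_one]
  rfl

theorem E_an (k : ℕ) (t : ℝ) : AnalyticAt ℝ (E k) t := by
  induction k with
  | zero => exact analyticAt_id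
  | succ k ih => exact ih.rexp

theorem scales (s : ℕ) : Scales (L (s := s)) := by
  refine scales_fin L ?_ ?_
  · intro l
    unfold L
    split_ifs with h
    · exact E_top _
    · exact Real.tendsto_log_atTop
  · intro i h
    have hi : i < s := by omega
    unfold L
    simp only [hi, if_true]
    by_cases h2 : i + 1 < s
    · simp only [h2, if_true]
      have h3 : s - 1 - i = (s - 1 - (i + 1)) + 1 := by omega
      rw [h3]
      exact E_ratio _
    · simp only [h2, if_false]
      have h3 : s - 1 - i = 0 := by omega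
      rw [h3]
      exact log_div_id

theorem ind (s d : ℕ) (a b : ℝ) (hab : a < b) :
    RIndep (fun (e : Fin s → Fin (d + 1)) (t : ℝ) => ∏ k : Fin s, E ((k : ℕ) + 1) t ^ (e k : ℕ)) a b := by
  refine rind (d := d) (fun k : Fin s => E ((k : ℕ) + 1)) L (scales s) (Fin.last s)
    (Eventually.of_forall fun t => by simp [L])
    (fun k l => if (l : ℕ) + k + 1 = s then 1 else 0) (fun _ _ => 0)
    (fun k => Eventually.of_forall fun t => Real.exp_pos _)
    (fun k => by
      refine Eventually.of_forall fun t => ?_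
      rw [add_zero]
      show Real.log (Real.exp (E k t)) = _
      rw [Real.log_exp]
      have hk := k.2
      rw [Finset.sum_eq_single (⟨s - 1 - k, by omega⟩ : Fin (s + 1))]
      · have h1 : s - 1 - (k : ℕ) + k + 1 = s := by omega
        have h2 : s - 1 - (k : ℕ) < s := by omega
        have h3 : s - 1 - (s - 1 - (k : ℕ)) = k := by omega
        simp only [h1, if_true, L, h2, h3, one_mul]
      · intro l _ hl
        have h1 : ¬ ((l : ℕ) + k + 1 = s) := fun h => hl (Fin.ext (by simp; omega))
        simp only [h1, if_false, zero_mul]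
      · intro h
        exact absurd (Finset.mem_univ _) h)
    (fun k l => by simp)
    (by
      intro m r h
      funext k
      have hk := k.2
      have h1 := h ⟨s - 1 - k, by omega⟩
      rw [Finset.sum_eq_single k] at h1
      · have h2 : s - 1 - (k : ℕ) + k + 1 = s := by omega
        have h3 : ¬ ((⟨s - 1 - (k : ℕ), by omega⟩ : Fin (s + 1)) = Fin.last s) := by
          intro h4
          have := congrArg Fin.val h4
          simp at this
          omega
        simp only [h2, if_true, mul_one, h3, if_false] at h1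
        exact_mod_cast h1
      · intro l _ hl
        have h4 : ¬ (s - 1 - (k : ℕ) + (l : ℕ) + 1 = s) := fun h5 => hl (Fin.ext (by omega))
        simp only [h4, if_false, mul_zero]
      · intro h5
        exact absurd (Finset.mem_univ _) h5)
    a b hab (fun k t _ => E_an _ t)

end It

/-- entire functions, logarithms and periods of Legendre families -/
theorem comb_all {κ : Type} [Fintype κ] [DecidableEq κ] {d N k : ℕ} (u : κ → ℝ → ℝ)
    (han : ∀ i t, AnalyticAt ℝ (u i) t)
    (hind : ∀ a b : ℝ, a < b → RIndep (fun (e : κ → Fin (d + 1)) (t : ℝ) => ∏ k, u k t ^ (e k : ℕ)) a b)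
    (α γ : Fin N → ℝ) (x : Fin k → ℝ) (hα : StrictAnti α) (hγ : StrictMono γ) (hx : Function.Injective x)
    (c : ℝ) (hcα : ∀ j, c < α j) (hcx : ∀ i, 0 < c + x i) (a b : ℝ) (hab : a < b) (hca : c ≤ a)
    (huj : ∀ j, α j < a ∧ b < γ j) :
    RIndep (fun (e : ((Fin N × Fin 3) ⊕ (κ ⊕ Fin k)) → Fin (d + 1)) (t : ℝ) =>
      ∏ p, Sum.elim (fun z : Fin N × Fin 3 => KC (α z.1) (γ z.1) z.2) (Sum.elim u (lf x)) p t ^ (e p : ℕ)) a b := by
  obtain ⟨c', hc'a, hc'x⟩ : ∃ c' : ℝ, c' < a ∧ ∀ j, c' < -x j := by
    refine ⟨-(|a| + 1 + ∑ j, |x j|), ?_, fun j => ?_⟩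
    · have h1 : 0 ≤ ∑ j, |x j| := Finset.sum_nonneg fun j _ => abs_nonneg _
      have h2 := neg_abs_le a
      linarith
    · have h1 : |x j| ≤ ∑ j, |x j| := Finset.single_le_sum (f := fun j => |x j|) (fun _ _ => abs_nonneg _) (Finset.mem_univ j)
      have h2 := le_abs_self (x j)
      have h3 := abs_nonneg a
      linarith
  set y : ℝ := 1 + |b| + ∑ j, |γ j| with hy
  have hsum0 : 0 ≤ ∑ j, |γ j| := Finset.sum_nonneg fun j _ => abs_nonneg _
  have hyγ : ∀ j, γ j < y := fun j => by
    have h1 : |γ j| ≤ ∑ j, |γ j| := Finset.single_le_sum (f := fun j => |γ j|) (fun _ _ => abs_nonneg _) (Finset.mem_univ j)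
    have h2 := le_abs_self (γ j)
    have h3 := abs_nonneg b
    linarith
  have hyb : b ≤ y := by
    have h2 := le_abs_self b
    linarith
  refine comb_leg (d := d) (Sum.elim u (lf x)) c y a b hca hab hyb ?_ ?_ α γ hα hγ
    (fun j => (huj j).1.trans (hab.trans (huj j).2)) hcα hyγ (fun j => ⟨(huj j).1.le, (huj j).2.le⟩)
  · rintro (i | j) t ht
    · exact han i t
    · exact lf_an x j (by linarith [hcx j, ht.1])
  · intro a' b' ha' hab' hb'
    exact comb_log u c' a' b' (hc'a.trans_le ha') hab' (fun i t _ => han i t) (hind a' b' hab') x hx hc'x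
      (fun j => by linarith [hcx j])

end Pool.Agent.Q23.AQ
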