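import Pool.Agent.TH818.AP.LiInd
import Pool.Agent.TH818.AP.LiLoc
import Pool.Agent.Q23.AQ.Comb

/-!
# Algebraic independence of `log t`, `Li_1(t)`, …, `Li_w(t)` over the functions which are analytic on `[0, 1]`

The proof is that of `Pool.Agent.TH818.AP.liInd_of` with analytic functions as coefficients instead of polynomials.
-/

set_option autoImplicit false

open Set Polynomial Filter Topology

namespace Pool.Agent.Q23.AQ.LiC

open Pool.Agent.TH818.AP Pool.Agent.TH818.AR Pool.Agent.TH818.AR.IndL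
open Pool.Agent.TH818.AP.LiI (anP_prod identO ident0 ident1 yv vM an_li an_yv vand coef_zero)

variable {w d : ℕ}

/-- the relation -/
noncomputable def FF (p : (Fin (w + 1) → Fin (d + 1)) → ℝ → ℝ) (t : ℝ) (y : Fin (w + 1) → ℝ) : ℝ :=
  ∑ e : Fin (w + 1) → Fin (d + 1), p e t * ∏ k, y k ^ (e k : ℕ)

/-- the logarithm can be replaced by any number -/
lemma lemA {φ : ℝ → ℝ} (p : (Fin (w + 1) → Fin (d + 1)) → ℝ → ℝ) (hφ : ∀ e, AnalyticAt ℝ (fun s => p e (φ s)) 0)
    (Y : Fin (w + 1) → ℝ → ℝ[X]) (hY : ∀ k, AnP (Y k)) (D : ℕ)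
    (hD : ∀ k s, (Y k s).natDegree ≤ D)
    (h : ∀ᶠ s in 𝓝[>] (0 : ℝ), FF p (φ s) (fun k => (Y k s).eval (Real.log s)) = 0) :
    ∀ᶠ s in 𝓝 (0 : ℝ), ∀ M : ℝ, FF p (φ s) (fun k => (Y k s).eval M) = 0 := by
  have hev : ∀ s M : ℝ, (∑ e : Fin (w + 1) → Fin (d + 1),
      Polynomial.C (p e (φ s)) * ∏ k, (Y k s) ^ (e k : ℕ)).eval M =
      FF p (φ s) (fun k => (Y k s).eval M) := by
    intro s M
    rw [eval_finsetSum]
    unfold FF
    refine Finset.sum_congr rfl fun e _ => ?_
    rw [eval_mul, eval_C, eval_prod]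
    simp only [eval_pow]
  have key := tr' tr (κ := 1) (G := fun _ => 0) one_ne_zero analyticAt_const
    (P := fun s => ∑ e : Fin (w + 1) → Fin (d + 1),
      Polynomial.C (p e (φ s)) * ∏ k, (Y k s) ^ (e k : ℕ))
    (AnP.sum _ (fun e => (AnP.C (hφ e)).mul
      (anP_prod _ (fun k => (hY k).pow _)))) (∑ _k : Fin (w + 1), d * D)
    (fun s => natDegree_sum_le_of_forall_le _ _ (fun e _ => by
      refine (natDegree_C_mul_le _ _).trans ((natDegree_prod_le _ _).trans ?_)
      refine Finset.sum_le_sum fun k _ => ?_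
      refine natDegree_pow_le.trans ?_
      exact Nat.mul_le_mul (Nat.lt_succ_iff.1 (e k).2) (hD k s)))
    (by
      filter_upwards [h] with s hs
      rw [one_mul, add_zero, hev]
      exact hs)
  filter_upwards [key] with s hs M
  rw [← hev, hs, eval_zero]

/-- analyticity of the relation -/
lemma an_FF (p : (Fin (w + 1) → Fin (d + 1)) → ℝ → ℝ) {y : Fin (w + 1) → ℝ → ℝ} {t : ℝ}
    (hp : ∀ e, AnalyticAt ℝ (p e) t) (hy : ∀ k, AnalyticAt ℝ (y k) t) : AnalyticAt ℝ (fun s => FF p s (fun k => y k s)) t := by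
  unfold FF
  refine Finset.analyticAt_fun_sum _ (fun e _ => ?_)
  refine (hp e).fun_mul ?_
  exact Finset.analyticAt_fun_prod _ (fun k _ => (hy k).fun_pow _)

/-- the set of the translations -/
def VV (p : (Fin (w + 1) → Fin (d + 1)) → ℝ → ℝ) (c : ℕ → ℝ) : Prop :=
  ∀ L : ℝ, ∀ t ∈ Ioo (0 : ℝ) 1, FF p t (yv L c t) = 0

lemma VV_zero (h1 : T_liAn) (p : (Fin (w + 1) → Fin (d + 1)) → ℝ → ℝ)
    (hp : ∀ e, ∀ t ∈ Icc (0 : ℝ) 1, AnalyticAt ℝ (p e) t)
    (h : ∀ t ∈ Ioo (0 : ℝ) 1, FF p t (fun k => pl k t) = 0) : VV p 0 := by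
  have key := lemA (w := w) (d := d) (φ := fun s => s) p (fun e => hp e 0 ⟨le_rfl, zero_le_one⟩)
    (fun k s => if (k : ℕ) = 0 then X else Polynomial.C (Li k s))
    (fun k => by
      by_cases hk : (k : ℕ) = 0
      · simp only [hk, if_true]
        exact AnP.const X
      · simp only [hk, if_false]
        exact AnP.C (an_li h1 k le_rfl one_pos)) 1
    (fun k s => by
      split_ifs
      · exact natDegree_X_le
      · simp)
    (by
      filter_upwards [Ioo_mem_nhdsGT (zero_lt_one' ℝ)] with s hs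
      rw [← h s hs]
      congr 1
      funext k
      unfold pl
      split_ifs <;> simp)
  intro L
  refine ident0 (fun t ht => an_FF p (fun e => hp e _ ⟨ht.1.le, ht.2.le⟩) (fun k => an_yv h1 L 0 k ht.1.le ht.2)) ?_
  filter_upwards [key.filter_mono nhdsWithin_le_nhds] with s hs
  have h2 := hs L
  rw [← h2]
  congr 1
  funext k
  unfold yv
  split_ifs <;> simp

lemma VV_step (h1 : T_liAn) (h2 : T_liLoc) (p : (Fin (w + 1) → Fin (d + 1)) → ℝ → ℝ)
    (hp : ∀ e, ∀ t ∈ Icc (0 : ℝ) 1, AnalyticAt ℝ (p e) t) {c : ℕ → ℝ}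
    (h : VV p c) (μ M : ℝ) : VV p (fun k => c k + μ * vM M k) := by
  intro L
  -- the singularity at one
  have hloc : ∀ k : Fin (w + 1), ∃ H : ℝ → ℝ, AnalyticAt ℝ H 1 ∧ ((k : ℕ) ≠ 0 → ∀ᶠ t in 𝓝[<] (1 : ℝ),
      Li k t = H t - vM (Real.log t) k * Real.log (1 - t)) := by
    intro k
    by_cases hk : (k : ℕ) = 0
    · exact ⟨fun _ => 0, analyticAt_const, fun h => absurd hk h⟩
    · obtain ⟨H, hH, hev⟩ := h2 k (Nat.one_le_iff_ne_zero.2 hk)
      exact ⟨H, hH, fun _ => hev⟩
  choose H hH hev using hloc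
  have h1s : AnalyticAt ℝ (fun s : ℝ => 1 - s) 0 := analyticAt_const.fun_sub analyticAt_id
  have hps : ∀ e, AnalyticAt ℝ (fun s : ℝ => p e (1 - s)) 0 := by
    intro e
    have h3 : AnalyticAt ℝ (p e) ((fun s : ℝ => 1 - s) 0) := by
      simpa using hp e 1 ⟨zero_le_one, le_rfl⟩
    exact h3.fun_comp h1s
  have hHs : ∀ k, AnalyticAt ℝ (fun s : ℝ => H k (1 - s)) 0 := by
    intro k
    have h3 : AnalyticAt ℝ (H k) ((fun s : ℝ => 1 - s) 0) := by simpa using hH k
    exact h3.fun_comp h1s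
  have hlog : AnalyticAt ℝ (fun s : ℝ => Real.log (1 - s)) 0 := by
    have h3 : AnalyticAt ℝ Real.log ((fun s : ℝ => 1 - s) 0) := by
      apply _root_.analyticAt_log
      norm_num
    exact h3.fun_comp h1s
  have hvM : ∀ k : ℕ, AnalyticAt ℝ (fun s : ℝ => vM (Real.log (1 - s)) k) 0 := by
    intro k
    unfold vM
    exact (hlog.fun_pow _).fun_div analyticAt_const (by positivity)
  have htend : Tendsto (fun s : ℝ => 1 - s) (𝓝[>] 0) (𝓝[<] 1) := by
    rw [tendsto_nhdsWithin_iff]
    constructor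
    · have h4 : Continuous fun x : ℝ => 1 - x := by fun_prop
      have h5 := h4.tendsto 0
      rw [sub_zero] at h5
      exact h5.mono_left nhdsWithin_le_nhds
    · filter_upwards [self_mem_nhdsWithin] with x hx
      have hx' : 0 < x := hx
      show 1 - x < 1
      linarith
  have hev' : ∀ᶠ s in 𝓝[>] (0 : ℝ), ∀ k : Fin (w + 1), (k : ℕ) ≠ 0 →
      Li k (1 - s) = H k (1 - s) - vM (Real.log (1 - s)) k * Real.log s := by
    rw [eventually_all]
    intro k
    by_cases hk : (k : ℕ) = 0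
    · exact Eventually.of_forall fun s h => absurd hk h
    · filter_upwards [htend.eventually (hev k hk)] with s hs _
      rw [hs, sub_sub_cancel]
  have key := lemA (w := w) (d := d) (φ := fun s => 1 - s) p (fun e => hps e)
    (fun k s => if (k : ℕ) = 0 then Polynomial.C L else
      Polynomial.C (H k (1 - s) - c k) + Polynomial.C (-vM (Real.log (1 - s)) k) * X)
    (fun k => by
      by_cases hk : (k : ℕ) = 0
      · simp only [hk, if_true]
        exact AnP.const _
      · simp only [hk, if_false]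
        exact (AnP.C ((hHs k).fun_sub analyticAt_const)).add
          ((AnP.C (hvM k).fun_neg).mul (AnP.const X))) 1
    (fun k s => by
      split_ifs
      · simp
      · exact deg2 _ _)
    (by
      filter_upwards [hev', Ioo_mem_nhdsGT (zero_lt_one' ℝ)] with s hs hs1
      rw [← h L (1 - s) ⟨by linarith [hs1.2], by linarith [hs1.1]⟩]
      congr 1
      funext k
      unfold yv
      split_ifs with hk
      · simp
      · rw [hs k hk]
        simp
        ring)
  -- the relation with powers of the logarithm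
  have hT : ∀ t ∈ Ioo (0 : ℝ) 1, FF p t (yv L (fun k => c k + μ * vM (Real.log t) k) t) = 0 := by
    have han : AnalyticOnNhd ℝ (fun t : ℝ => FF p t (yv (w := w) L
        (fun k => c k + μ * vM (Real.log t) k) t)) (Ioo 0 1) := by
      intro t ht
      refine an_FF p (fun e => hp e _ ⟨ht.1.le, ht.2.le⟩) (y := fun k s => yv L (fun k => c k + μ * vM (Real.log s) k) s k) (fun k => ?_)
      unfold yv
      by_cases hk : (k : ℕ) = 0
      · simp only [hk, if_true]
        exact analyticAt_const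
      · simp only [hk, if_false]
        refine (an_li h1 k ht.1.le ht.2).fun_sub (analyticAt_const.fun_add
          (analyticAt_const.fun_mul ?_))
        unfold vM
        exact ((_root_.analyticAt_log ht.1).fun_pow _).fun_div analyticAt_const (by positivity)
    refine ident1 han ?_
    filter_upwards [key.filter_mono nhdsWithin_le_nhds, hev'] with s hs hs2
    have h3 := hs (Real.log s + μ)
    rw [← h3]
    congr 1
    funext k
    unfold yv
    split_ifs with hk
    · simp
    · rw [hs2 k hk]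
      simp
      ring
  have key2 := lemA (w := w) (d := d) (φ := fun s => s) p (fun e => hp e 0 ⟨le_rfl, zero_le_one⟩)
    (fun k s => if (k : ℕ) = 0 then Polynomial.C L else
      Polynomial.C (Li k s - c k) + Polynomial.C (-μ / (((k : ℕ) - 1).factorial : ℝ)) * X ^ ((k : ℕ) - 1))
    (fun k => by
      by_cases hk : (k : ℕ) = 0
      · simp only [hk, if_true]
        exact AnP.const _
      · simp only [hk, if_false]
        exact (AnP.C ((an_li h1 k le_rfl one_pos).fun_sub analyticAt_const)).add (AnP.const _)) w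
    (fun k s => by
      split_ifs
      · simp
      · refine (natDegree_add_le _ _).trans (max_le (by simp) ?_)
        refine (natDegree_C_mul_le _ _).trans ?_
        rw [natDegree_X_pow]
        have := k.2
        omega)
    (by
      filter_upwards [Ioo_mem_nhdsGT (zero_lt_one' ℝ)] with s hs1
      rw [← hT s hs1]
      congr 1
      funext k
      unfold yv vM
      split_ifs with hk
      · simp
      · simp
        ring)
  refine ident0 (fun t ht => an_FF p (fun e => hp e _ ⟨ht.1.le, ht.2.le⟩) (fun k => an_yv h1 L _ k ht.1.le ht.2)) ?_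
  filter_upwards [key2.filter_mono nhdsWithin_le_nhds] with s hs
  have h3 := hs M
  rw [← h3]
  congr 1
  funext k
  unfold yv vM
  split_ifs
  · simp
  · simp
    ring

lemma VV_sum (h1 : T_liAn) (h2 : T_liLoc) (p : (Fin (w + 1) → Fin (d + 1)) → ℝ → ℝ)
    (hp : ∀ e, ∀ t ∈ Icc (0 : ℝ) 1, AnalyticAt ℝ (p e) t)
    (h : VV p 0) {ι : Type} (s : Finset ι) (μ M : ι → ℝ) :
    VV p (fun k => ∑ i ∈ s, μ i * vM (M i) k) := by
  classical
  induction s using Finset.induction_on with
  | empty =>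
    have e : (fun k => ∑ i ∈ (∅ : Finset ι), μ i * vM (M i) k) = (0 : ℕ → ℝ) := by
      funext k
      simp
    rw [e]
    exact h
  | insert a s ha ih =>
    have h3 := VV_step h1 h2 p hp ih (μ a) (M a)
    have e : (fun k => ∑ i ∈ insert a s, μ i * vM (M i) k) =
        fun k => ∑ i ∈ s, μ i * vM (M i) k + μ a * vM (M a) k := by
      funext k
      rw [Finset.sum_insert ha, add_comm]
    rw [e]
    exact h3

/-- `log t` and the polylogarithms are algebraically independent over the functions analytic on `[0, 1]` -/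
theorem main (p : (Fin (w + 1) → Fin (d + 1)) → ℝ → ℝ) (hp : ∀ e, ∀ t ∈ Icc (0 : ℝ) 1, AnalyticAt ℝ (p e) t)
    (a b : ℝ) (ha : 0 < a) (hab : a < b) (hb : b < 1)
    (h : ∀ t ∈ Icc a b, FF p t (fun k => pl k t) = 0) : ∀ e, ∀ t ∈ Ioo (0 : ℝ) 1, p e t = 0 := by
  have h1 := liAn
  have h2 := liLoc
  have h0 : ∀ t ∈ Ioo (0 : ℝ) 1, FF p t (fun k => pl k t) = 0 := by
    refine identO ?_ hab ha.le hb.le (fun t ht => ?_)
    · intro t ht
      refine an_FF p (fun e => hp e _ ⟨ht.1.le, ht.2.le⟩) (y := fun k s => pl k s) (fun k => ?_)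
      unfold pl
      by_cases hk : (k : ℕ) = 0
      · simp only [hk, if_true]
        exact _root_.analyticAt_log ht.1
      · simp only [hk, if_false]
        exact an_li h1 k ht.1.le ht.2
    · exact h t ⟨ht.1.le, ht.2.le⟩
  have hV := VV_zero h1 p hp h0
  have hall : ∀ t ∈ Ioo (0 : ℝ) 1, ∀ y : Fin (w + 1) → ℝ, FF p t y = 0 := by
    intro t ht y
    obtain ⟨μ, hμ⟩ := vand w (fun k => Li k t - (if h : k < w + 1 then y ⟨k, h⟩ else 0))
    have h3 := VV_sum h1 h2 p hp hV Finset.univ μ (fun i => ((i : ℕ) : ℝ)) (y 0) t ht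
    rw [← h3]
    congr 1
    funext k
    unfold yv
    split_ifs with hk
    · congr 1
      exact Fin.ext hk
    · have h4 := hμ k (Nat.one_le_iff_ne_zero.2 hk) (by have := k.2; omega)
      rw [dif_pos k.2] at h4
      show y k = Li (↑k) t - ∑ i, μ i * vM (((i : ℕ) : ℝ)) (k : ℕ)
      rw [h4, sub_sub_cancel]
  intro e t ht
  exact coef_zero (fun e => p e t) (fun y => hall t ht y) e

end Pool.Agent.Q23.AQ.LiC

namespace Pool.Agent.Q23.AQ

open Pool.Agent.TH818.AP

/-- adding `log t` and the polylogarithms to functions analytic on `[0, 1]` -/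
theorem comb_li {κ : Type} [Fintype κ] [DecidableEq κ] {d w : ℕ} (u : κ → ℝ → ℝ) (a b : ℝ) (ha : 0 < a)
    (hab : a < b) (hb : b < 1) (han : ∀ i, ∀ t ∈ Icc (0 : ℝ) 1, AnalyticAt ℝ (u i) t)
    (hind : ∀ a' b', a ≤ a' → a' < b' → b' ≤ b →
      RIndep (fun (e : κ → Fin (d + 1)) (t : ℝ) => ∏ k, u k t ^ (e k : ℕ)) a' b') :
    ∀ a' b', a ≤ a' → a' < b' → b' ≤ b →
    RIndep (fun (e : (κ ⊕ Fin (w + 1)) → Fin (d + 1)) (t : ℝ) =>
      ∏ p, Sum.elim u (fun k : Fin (w + 1) => pl (k : ℕ)) p t ^ (e p : ℕ)) a' b' := by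
  classical
  intro a' b' ha' hab' hb' p hp
  let C : (Fin (w + 1) → Fin (d + 1)) → ℝ → ℝ := fun e2 t =>
    ∑ e1 : κ → Fin (d + 1), (p (sumEq κ (Fin (w + 1)) d (e1, e2))).eval t * ∏ i, u i t ^ (e1 i : ℕ)
  have hC : ∀ e2, ∀ t ∈ Icc (0 : ℝ) 1, AnalyticAt ℝ (C e2) t := by
    intro e2 t ht
    refine Finset.analyticAt_fun_sum _ fun e1 _ => AnalyticAt.mul ?_ ?_
    · exact AnalyticOnNhd.eval_polynomial _ t (mem_univ _)
    · exact Finset.analyticAt_fun_prod _ fun i _ => (han i t ht).pow _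
  have hrel : ∀ t ∈ Icc a' b', LiC.FF C t (fun k => pl k t) = 0 := by
    intro t ht
    have h1 := hp t ht
    rw [← Equiv.sum_comp (sumEq κ (Fin (w + 1)) d), Fintype.sum_prod_type, Finset.sum_comm] at h1
    rw [← h1]
    unfold LiC.FF
    refine Finset.sum_congr rfl fun e2 _ => ?_
    simp only [C, Finset.sum_mul]
    refine Finset.sum_congr rfl fun e1 _ => ?_
    have h2 : ∏ p, Sum.elim u (fun k : Fin (w + 1) => pl (k : ℕ)) p t ^
        ((sumEq κ (Fin (w + 1)) d (e1, e2) p : Fin (d + 1)) : ℕ) =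
        (∏ i, u i t ^ (e1 i : ℕ)) * ∏ k : Fin (w + 1), pl (k : ℕ) t ^ (e2 k : ℕ) := by
      rw [Fintype.prod_sum_type]
      rfl
    rw [h2]
    ring
  have hz := LiC.main C hC a' b' (ha.trans_le ha') hab' (lt_of_le_of_lt hb' hb) hrel
  funext e
  obtain ⟨⟨e1, e2⟩, rfl⟩ := (sumEq κ (Fin (w + 1)) d).surjective e
  have h2 := hind a' b' ha' hab' hb' (fun e1 => p (sumEq κ (Fin (w + 1)) d (e1, e2))) (fun t ht => hz e2 t
    ⟨(ha.trans_le ha').trans_le ht.1, lt_of_le_of_lt ht.2 (lt_of_le_of_lt hb' hb)⟩)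
  exact congrFun h2 e1

end Pool.Agent.Q23.AQ
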