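import Pool.Agent.Q23.AQ.Str

/-!
# Laurent monomials in independent functions
-/

set_option autoImplicit false

open Filter Topology MvPolynomial

namespace Pool.Agent.Q23.AQ

theorem prod_zpow {κ : Type} (a : ℂ) (ha : a ≠ 0) (n : κ → ℤ) (s : κ → ℕ) (T : Finset κ) :
    ∏ y ∈ T, (a ^ n y) ^ s y = a ^ (∑ y ∈ T, (s y : ℤ) * n y) := by
  classical
  induction T using Finset.induction_on with
  | empty => simp
  | insert y T hy ih =>
    rw [Finset.prod_insert hy, Finset.sum_insert hy, ih, zpow_add₀ ha, ← zpow_natCast, ← zpow_mul, mul_comm (n y)]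

/-- Laurent monomials with independent exponents -/
theorem locInd_mon {κ μ : Type} [Fintype κ] [Fintype μ] (g : μ → ℂ → ℂ) (z0 : ℂ)
    (hg0 : ∀ j, ∀ᶠ z in 𝓝 z0, g j z ≠ 0) (n : κ → μ → ℤ)
    (hn : ∀ k : κ → ℤ, (∀ j, ∑ y, k y * n y j = 0) → k = 0) (h : Y124.LocInd g z0) :
    Y124.LocInd (fun y z => ∏ j, g j z ^ n y j) z0 := by
  classical
  intro P hP
  let S : (Option κ →₀ ℕ) → μ → ℤ := fun s j => ∑ y, (s (some y) : ℤ) * n y j
  obtain ⟨M, hM⟩ : ∃ M : ℕ, ∀ s ∈ P.support, ∀ j, 0 ≤ (M : ℤ) + S s j := by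
    refine ⟨∑ s ∈ P.support, ∑ j, (S s j).natAbs, fun s hs j => ?_⟩
    have h1 : (S s j).natAbs ≤ ∑ j, (S s j).natAbs :=
      Finset.single_le_sum (f := fun j => (S s j).natAbs) (fun _ _ => Nat.zero_le _) (Finset.mem_univ j)
    have h2 : ∑ j, (S s j).natAbs ≤ ∑ s ∈ P.support, ∑ j, (S s j).natAbs :=
      Finset.single_le_sum (f := fun s => ∑ j, (S s j).natAbs) (fun _ _ => Nat.zero_le _) hs
    omega
  let E : (Option κ →₀ ℕ) → (Option μ →₀ ℕ) := fun s =>
    Finsupp.equivFunOnFinite.symm fun o => o.elim (s none) fun j => ((M : ℤ) + S s j).toNat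
  have hE0 : ∀ s, E s none = s none := fun s => rfl
  have hE1 : ∀ s j, E s (some j) = ((M : ℤ) + S s j).toNat := fun s j => rfl
  have hEinj : ∀ s ∈ P.support, ∀ s' ∈ P.support, E s = E s' → s = s' := by
    intro s hs s' hs' hss
    have h0 : s none = s' none := by rw [← hE0, ← hE0, hss]
    have h1 := hn (fun y => (s (some y) : ℤ) - s' (some y)) (fun j => by
      have h2 : ((M : ℤ) + S s j).toNat = ((M : ℤ) + S s' j).toNat := by rw [← hE1, ← hE1, hss]
      have h3 := hM s hs j
      have h4 := hM s' hs' j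
      have h5 : S s j = S s' j := by omega
      simp only [sub_mul, Finset.sum_sub_distrib]
      exact sub_eq_zero.2 h5)
    ext o
    rcases o with _ | y
    · exact h0
    · have h2 := congrFun h1 y
      simp only [Pi.zero_apply] at h2
      omega
  have hQ := h (∑ s ∈ P.support, monomial (E s) (P.coeff s)) (by
    have hall : ∀ᶠ z in 𝓝 z0, ∀ j, g j z ≠ 0 := eventually_all.2 hg0
    filter_upwards [hP, hall] with z hz hz'
    rw [eval_eq'] at hz
    rw [map_sum]
    have h1 : ∀ s ∈ P.support, eval (fun o : Option μ => o.elim z fun j => g j z) (monomial (E s) (P.coeff s)) =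
        (∏ j, g j z) ^ M * (P.coeff s * ∏ o, (o.elim z fun y => ∏ j, g j z ^ n y j) ^ s o) := by
      intro s hs
      rw [eval_monomial, Finsupp.prod_fintype _ _ (fun _ => pow_zero _), Fintype.prod_option, Fintype.prod_option]
      simp only [Option.elim_none, Option.elim_some, hE0, hE1]
      have h2 : ∏ j, g j z ^ ((M : ℤ) + S s j).toNat = (∏ j, g j z) ^ M * ∏ y, (∏ j, g j z ^ n y j) ^ s (some y) := by
        have h3 : ∏ y, (∏ j, g j z ^ n y j) ^ s (some y) = ∏ j, g j z ^ S s j := by
          simp only [← Finset.prod_pow]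
          rw [Finset.prod_comm]
          refine Finset.prod_congr rfl fun j _ => ?_
          exact prod_zpow (g j z) (hz' j) (fun y => n y j) (fun y => s (some y)) Finset.univ
        rw [h3, ← Finset.prod_pow, ← Finset.prod_mul_distrib]
        refine Finset.prod_congr rfl fun j _ => ?_
        rw [← zpow_natCast, Int.toNat_of_nonneg (hM s hs j), zpow_add₀ (hz' j), zpow_natCast]
      rw [h2]
      ring
    rw [Finset.sum_congr rfl h1, ← Finset.mul_sum, hz, mul_zero])
  by_contra hne
  obtain ⟨s, hs⟩ := support_nonempty.2 hne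
  have h1 := congrArg (coeff (E s)) hQ
  rw [coeff_sum, Finset.sum_eq_single s, coeff_monomial, if_pos rfl, coeff_zero] at h1
  · exact (mem_support_iff.1 hs) h1
  · intro s' hs' hne'
    rw [coeff_monomial, if_neg]
    intro h2
    exact hne' (hEinj s' hs' s hs h2)
  · intro h2
    exact absurd hs h2

end Pool.Agent.Q23.AQ
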