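import Pool.Agent.Q23.AQ.Hz
import Pool.Agent.Q23.AQ.It
import Pool.Agent.Q23.AQ.Ex

/-!
# `e^(α_i t)` and `ψ(t)`
-/

set_option autoImplicit false

open Set Polynomial Filter Topology

namespace Pool.Agent.Q23.AQ

open Pool.Agent.TH818.AP Pool.Agent.TH818.AR Pool.Agent.TH659.AQ Pool.Agent.Q23.Hz

theorem log_gamma_deriv {t : ℝ} (ht : 0 < t) : HasDerivAt (Real.log ∘ Real.Gamma) (psi t) t := by
  have h1 : HasDerivAt Real.Gamma (deriv Real.Gamma t) t := (gamma_an ht).differentiableAt.hasDerivAt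
  have h2 := h1.log (Real.Gamma_pos_of_pos ht).ne'
  exact h2

theorem psi_le {t : ℝ} (ht : 0 < t) : psi t ≤ Real.log t := by
  have h := Real.convexOn_log_Gamma.le_slope_of_hasDerivAt (x := t) (y := t + 1) (mem_Ioi.2 ht)
    (mem_Ioi.2 (by linarith)) (by linarith) (log_gamma_deriv ht)
  rw [slope_def_field] at h
  simp only [Function.comp] at h
  rw [Real.Gamma_add_one ht.ne', Real.log_mul ht.ne' (Real.Gamma_pos_of_pos ht).ne'] at h
  have : (Real.log t + Real.log (Real.Gamma t) - Real.log (Real.Gamma t)) / (t + 1 - t) = Real.log t := by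
    rw [add_sub_cancel_left, add_sub_cancel_right, div_one]
  rwa [this] at h

theorem le_psi {t : ℝ} (ht : 0 < t) : Real.log t ≤ psi (t + 1) := by
  have h := Real.convexOn_log_Gamma.slope_le_of_hasDerivAt (x := t) (y := t + 1) (mem_Ioi.2 ht)
    (mem_Ioi.2 (by linarith)) (by linarith) (log_gamma_deriv (by linarith : 0 < t + 1))
  rw [slope_def_field] at h
  simp only [Function.comp] at h
  rw [Real.Gamma_add_one ht.ne', Real.log_mul ht.ne' (Real.Gamma_pos_of_pos ht).ne'] at h
  have : (Real.log t + Real.log (Real.Gamma t) - Real.log (Real.Gamma t)) / (t + 1 - t) = Real.log t := by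
    rw [add_sub_cancel_left, add_sub_cancel_right, div_one]
  rwa [this] at h

/-- `ψ(t) / log t → 1` -/
theorem psi_div_log : Tendsto (fun t : ℝ => psi t / Real.log t) atTop (𝓝 1) := by
  have h1 : ∀ᶠ t : ℝ in atTop, 1 - (1 / t) / Real.log t ≤ psi t / Real.log t := by
    filter_upwards [eventually_gt_atTop 1] with t ht
    have ht0 : 0 < t := by linarith
    have hl : 0 < Real.log t := Real.log_pos ht
    have h2 := psi_step ht0
    have h3 := le_psi ht0
    rw [le_div_iff₀ hl, sub_mul, one_mul, div_mul_cancel₀ _ hl.ne']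
    linarith
  have h2 : ∀ᶠ t : ℝ in atTop, psi t / Real.log t ≤ 1 := by
    filter_upwards [eventually_gt_atTop 1] with t ht
    have ht0 : 0 < t := by linarith
    have hl : 0 < Real.log t := Real.log_pos ht
    rw [div_le_one hl]
    exact psi_le ht0
  have h3 : Tendsto (fun t : ℝ => 1 - (1 / t) / Real.log t) atTop (𝓝 1) := by
    have h4 : Tendsto (fun t : ℝ => (1 / t) * (Real.log t)⁻¹) atTop (𝓝 (0 * 0)) := by
      refine Tendsto.mul ?_ inv_log
      exact (tendsto_inv_atTop_zero (𝕜 := ℝ)).congr fun t => (one_div t).symm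
    rw [mul_zero] at h4
    have h5 := h4.const_sub 1
    rw [sub_zero] at h5
    exact h5
  exact tendsto_of_tendsto_of_tendsto_of_le_of_le' h3 tendsto_const_nhds h1 h2

/-- the scale `t, log t, log log t` -/
noncomputable def Ll : Fin 3 → ℝ → ℝ
  | 0, t => t
  | 1, t => Real.log t
  | 2, t => Real.log (Real.log t)

theorem scalesL : Scales Ll := by
  refine scales_fin Ll ?_ ?_
  · intro k
    fin_cases k
    · exact tendsto_id
    · exact Real.tendsto_log_atTop
    · exact Real.tendsto_log_atTop.comp Real.tendsto_log_atTop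
  · intro i h
    have hi : i < 2 := by omega
    interval_cases i
    · exact log_div_id
    · exact log_div_id.comp Real.tendsto_log_atTop

/-- the functions `e^(α_i t)` and `ψ(t)` -/
noncomputable def ep {m : ℕ} (α : Fin m → ℝ) : Fin m ⊕ Unit → ℝ → ℝ
  | Sum.inl i, t => Real.exp (α i * t)
  | Sum.inr _, t => psi t

theorem ep_an {m : ℕ} (α : Fin m → ℝ) (i : Fin m ⊕ Unit) {t : ℝ} (ht : 0 < t) : AnalyticAt ℝ (ep α i) t := by
  rcases i with i | i
  · exact (analyticAt_const.mul analyticAt_id).rexp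
  · exact psi_an ht

theorem ep_ind {m d : ℕ} (α : Fin m → ℝ) (hα : ∀ k : Fin m → ℤ, ∑ i, (k i : ℝ) * α i = 0 → k = 0) (a b : ℝ)
    (ha : 0 < a) (hab : a < b) :
    RIndep (fun (e : (Fin m ⊕ Unit) → Fin (d + 1)) (t : ℝ) => ∏ k, ep α k t ^ (e k : ℕ)) a b := by
  have hll : Tendsto (fun t : ℝ => Real.log (Real.log t)) atTop atTop :=
    Real.tendsto_log_atTop.comp Real.tendsto_log_atTop
  have hpsi : ∀ᶠ t : ℝ in atTop, 0 < psi t := by
    filter_upwards [psi_div_log.eventually (lt_mem_nhds (show (0 : ℝ) < 1 by norm_num)), eventually_gt_atTop 1]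
      with t h1 h2
    have := mul_pos h1 (Real.log_pos h2)
    rwa [div_mul_cancel₀ _ (Real.log_pos h2).ne'] at this
  have hR : Tendsto (fun t : ℝ => Real.log (psi t) - Real.log (Real.log t)) atTop (𝓝 0) := by
    have h1 := (Real.continuousAt_log one_ne_zero).tendsto.comp psi_div_log
    rw [Real.log_one] at h1
    refine h1.congr' ?_
    filter_upwards [hpsi, eventually_gt_atTop 1] with t h1 h2
    simp only [Function.comp]
    rw [Real.log_div h1.ne' (Real.log_pos h2).ne']
  refine rind (ep α) Ll scalesL 1 (Eventually.of_forall fun _ => rfl)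
    (fun k => Sum.elim (fun i => ![α i, 0, 0]) (fun _ => ![0, 0, 1]) k)
    (fun k t => Sum.elim (fun _ => 0) (fun _ => Real.log (psi t) - Real.log (Real.log t)) k) ?_ ?_ ?_ ?_ a b hab
    (fun k t ht => ep_an α k (ha.trans_le ht))
  · rintro (i | i)
    · exact Eventually.of_forall fun t => Real.exp_pos _
    · exact hpsi
  · rintro (i | i)
    · refine Eventually.of_forall fun t => ?_
      show Real.log (Real.exp (α i * t)) = _
      rw [Real.log_exp]
      simp [Fin.sum_univ_succ, Ll]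
    · refine Eventually.of_forall fun t => ?_
      show Real.log (psi t) = _
      simp [Fin.sum_univ_succ, Ll]
  · rintro (i | i) l
    · simp
    · exact hR.div_atTop (scalesL.top l)
  · intro k r h
    have h0 := h 0
    have h2 := h 2
    rw [Fintype.sum_sum_type] at h0 h2
    simp at h0 h2
    have h3 := hα (fun i => k (Sum.inl i)) h0
    funext z
    rcases z with i | i
    · exact congrFun h3 i
    · exact_mod_cast h2

/-- functions analytic on `(c', ∞)`, logarithms and periods of Legendre families -/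
theorem comb_all' {κ : Type} [Fintype κ] [DecidableEq κ] {d N k : ℕ} (u : κ → ℝ → ℝ) (c' : ℝ)
    (han : ∀ i, AnalyticOnNhd ℝ (u i) (Ioi c'))
    (hind : ∀ a b : ℝ, c' < a → a < b → RIndep (fun (e : κ → Fin (d + 1)) (t : ℝ) => ∏ k, u k t ^ (e k : ℕ)) a b)
    (α γ : Fin N → ℝ) (x : Fin k → ℝ) (hα : StrictAnti α) (hγ : StrictMono γ) (hx : Function.Injective x)
    (c : ℝ) (hcα : ∀ j, c < α j) (hcx : ∀ i, 0 < c + x i) (hc'x : ∀ i, c' < -x i) (a b : ℝ) (hab : a < b)
    (hc'c : c' ≤ c) (hc'a : c' < a) (hca : c ≤ a) (huj : ∀ j, α j < a ∧ b < γ j) :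
    RIndep (fun (e : ((Fin N × Fin 3) ⊕ (κ ⊕ Fin k)) → Fin (d + 1)) (t : ℝ) =>
      ∏ p, Sum.elim (fun z : Fin N × Fin 3 => KC (α z.1) (γ z.1) z.2) (Sum.elim u (lf x)) p t ^ (e p : ℕ)) a b := by
  set y : ℝ := 1 + |b| + ∑ j, |γ j| with hy
  have hsum0 : 0 ≤ ∑ j, |γ j| := Finset.sum_nonneg fun j _ => abs_nonneg _
  have hyγ : ∀ j, γ j < y := fun j => by
    have h1 : |γ j| ≤ ∑ j, |γ j| := Finset.single_le_sum (f := fun j => |γ j|) (fun _ _ => abs_nonneg _) (Finset.mem_univ j)
    have h2 := le_abs_self (γ j)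
    have h3 := abs_nonneg b
    linarith
  have hyb : b ≤ y := by
    have h2 := le_abs_self b
    linarith
  refine comb_leg (d := d) (Sum.elim u (lf x)) c y a b hca hab hyb ?_ ?_ α γ hα hγ
    (fun j => (huj j).1.trans (hab.trans (huj j).2)) hcα hyγ (fun j => ⟨(huj j).1.le, (huj j).2.le⟩)
  · rintro (i | j) t ht
    · exact han i t (lt_of_le_of_lt hc'c ht.1)
    · exact lf_an x j (by linarith [hcx j, ht.1])
  · intro a' b' ha' hab' hb'
    exact comb_log u c' a' b' (hc'a.trans_le ha') hab' han (hind a' b' (hc'a.trans_le ha') hab') x hx hc'x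
      (fun j => by linarith [hcx j])

end Pool.Agent.Q23.AQ
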