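import Pool.Agent.Q23.AQ.Sc

/-!
# Functions `e^(δ + λ t) t^(α t + θ)`
-/

set_option autoImplicit false

open Set Polynomial Filter Topology

namespace Pool.Agent.Q23.AQ

open Pool.Agent.TH818.AP

/-- the function `e^(δ + λ t) t^(α t + θ)` -/
noncomputable def pw (δ lam α θ t : ℝ) : ℝ := Real.exp (δ + lam * t) * t ^ (α * t + θ)

/-- the scale `t log t, t, log t` -/
noncomputable def L3 : Fin 3 → ℝ → ℝ
  | 0, t => t * Real.log t
  | 1, t => t
  | 2, t => Real.log t

theorem scales3 : Scales L3 := by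
  refine scales_fin L3 ?_ ?_
  · intro k
    fin_cases k
    · exact tendsto_id.atTop_mul_atTop₀ Real.tendsto_log_atTop
    · exact tendsto_id
    · exact Real.tendsto_log_atTop
  · intro i h
    have hi : i < 2 := by omega
    interval_cases i
    · refine inv_log.congr' ?_
      filter_upwards [eventually_gt_atTop 1] with t ht
      show (Real.log t)⁻¹ = t / (t * Real.log t)
      have := (Real.log_pos ht).ne'
      field_simp
    · exact log_div_id

theorem pw_pos (δ lam α θ : ℝ) {t : ℝ} (ht : 0 < t) : 0 < pw δ lam α θ t :=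
  mul_pos (Real.exp_pos _) (Real.rpow_pos_of_pos ht _)

theorem pw_an (δ lam α θ : ℝ) {t : ℝ} (ht : 0 < t) : AnalyticAt ℝ (pw δ lam α θ) t := by
  refine AnalyticAt.mul ?_ ?_
  · exact (analyticAt_const.add (analyticAt_const.mul analyticAt_id)).rexp
  · exact an_rpow analyticAt_id ((analyticAt_const.mul analyticAt_id).add analyticAt_const) ht

theorem pw_log (δ lam α θ : ℝ) {t : ℝ} (ht : 0 < t) :
    Real.log (pw δ lam α θ t) = ∑ l, (![α, lam, θ] : Fin 3 → ℝ) l * L3 l t + δ := by
  unfold pw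
  rw [Real.log_mul (Real.exp_pos _).ne' (Real.rpow_pos_of_pos ht _).ne', Real.log_exp, Real.log_rpow ht]
  simp [Fin.sum_univ_succ, L3]
  ring

theorem pw_ind {m d : ℕ} (δ lam α θ : Fin m → ℝ)
    (h : ∀ (k : Fin m → ℤ) (r : ℤ), ∑ i, (k i : ℝ) * α i = 0 → ∑ i, (k i : ℝ) * lam i = 0 →
      ∑ i, (k i : ℝ) * θ i = r → k = 0) (a b : ℝ) (ha : 0 < a) (hab : a < b) :
    RIndep (fun (e : Fin m → Fin (d + 1)) (t : ℝ) => ∏ k, pw (δ k) (lam k) (α k) (θ k) t ^ (e k : ℕ)) a b := by
  refine rind (fun k => pw (δ k) (lam k) (α k) (θ k)) L3 scales3 2 (Eventually.of_forall fun _ => rfl)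
    (fun k => ![α k, lam k, θ k]) (fun k _ => δ k)
    (fun k => by filter_upwards [eventually_gt_atTop 0] with t ht using pw_pos _ _ _ _ ht)
    (fun k => by
      filter_upwards [eventually_gt_atTop 0] with t ht
      exact pw_log _ _ _ _ ht)
    (fun k l => tendsto_const_nhds.div_atTop (scales3.top l)) ?_ a b hab
    (fun k t ht => pw_an _ _ _ _ (ha.trans_le ht))
  intro k r hk
  refine h k r ?_ ?_ ?_
  · simpa using hk 0
  · simpa using hk 1
  · simpa using hk 2

end Pool.Agent.Q23.AQ
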