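import Pool.Agent.Q23.AQ.Lex

/-!
# Scales
-/

set_option autoImplicit false

open Set Polynomial Filter Topology

namespace Pool.Agent.Q23.AQ

open Pool.Agent.TH818.AP

theorem scales_fin {m : ℕ} (L : Fin m → ℝ → ℝ) (htop : ∀ k, Tendsto (L k) atTop atTop)
    (hr : ∀ (i : ℕ) (h : i + 1 < m), Tendsto (fun t => L ⟨i + 1, h⟩ t / L ⟨i, by omega⟩ t) atTop (𝓝 0)) : Scales L := by
  refine ⟨htop, ?_⟩
  have key : ∀ (j i : ℕ) (h : i + j + 1 < m),
      Tendsto (fun t => L ⟨i + j + 1, h⟩ t / L ⟨i, by omega⟩ t) atTop (𝓝 0) := by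
    intro j
    induction j with
    | zero => intro i h; exact hr i h
    | succ j ih =>
      intro i h
      have h1 := ih i (by omega)
      have h2 := hr (i + j + 1) h
      have h3 := h2.mul h1
      rw [mul_zero] at h3
      refine h3.congr' ?_
      filter_upwards [(htop ⟨i + j + 1, by omega⟩).eventually_gt_atTop 0] with t ht
      have : (⟨i + (j + 1) + 1, h⟩ : Fin m) = ⟨i + j + 1 + 1, by omega⟩ := rfl
      rw [this]
      field_simp
  intro k l hkl
  have h1 : (k : ℕ) < l := hkl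
  have h2 := key ((l : ℕ) - k - 1) k (by omega)
  have e1 : (⟨(k : ℕ) + ((l : ℕ) - k - 1) + 1, by omega⟩ : Fin m) = l := Fin.ext (by simp; omega)
  rw [e1] at h2
  exact h2

theorem log_div_id : Tendsto (fun t : ℝ => Real.log t / t) atTop (𝓝 0) :=
  Real.isLittleO_log_id_atTop.tendsto_div_nhds_zero

theorem inv_log : Tendsto (fun t : ℝ => (Real.log t)⁻¹) atTop (𝓝 0) :=
  Real.tendsto_log_atTop.inv_tendsto_atTop

theorem pow_div_exp (n : ℕ) : Tendsto (fun t : ℝ => t ^ n / Real.exp t) atTop (𝓝 0) :=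
  Real.tendsto_pow_mul_exp_neg_atTop_nhds_zero n |>.congr fun t => by rw [Real.exp_neg]; rfl

theorem an_rpow {f g : ℝ → ℝ} {t : ℝ} (hf : AnalyticAt ℝ f t) (hg : AnalyticAt ℝ g t) (h : 0 < f t) :
    AnalyticAt ℝ (fun s => f s ^ g s) t := by
  have h1 : AnalyticAt ℝ (fun s => Real.exp (Real.log (f s) * g s)) t :=
    (((analyticAt_log h).comp hf).mul hg).rexp
  refine h1.congr ?_
  filter_upwards [hf.continuousAt.eventually (lt_mem_nhds h)] with s hs
  rw [Real.rpow_def_of_pos hs]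

end Pool.Agent.Q23.AQ
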